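import Pool.Agent.Lib.MP_1a91b9_nuT.CF.Defs
import Pool.Agent.Lib.MP_1a91b9_nt.Residue

/-! # CF: Frobenius elements

PROOF (complete; job of helper29, see team-store bsd_D_doc_CF.md):
exists_over: lying over (Ideal.exists_maximal_ideal_liesOver or HeightOneSpectrum API). exists_fr:
IsArithFrobAt.exists_of_isInvariant (G = Gal(N/k), instances IsGaloisGroup Gal(N/k) (O k) (O N));
nrm v = Nat.card (O k / v). IsFr.zeta: AlgHom.IsArithFrobAt.apply_of_pow_eq_one for the element zeta
of O N; q not in W; or by hand: phi zeta = zeta^j, zeta^(nrm v) - zeta^j in W, and 1 - zeta^i divides q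
if zeta^i <> 1. fr_fix: V = W.under (O L). For x in O_L: x - x^n in W, so in V: all elements of the
finite field O_L/V satisfy x^n = x. A generator of its unit group gives nrm V - 1 | n - 1, nrm V =
nrm v^(f_V), n = nrm v^f: (Nv^(f_V) - 1) | (Nv^f - 1) implies f_V | f (Nat.pow_sub_one_dvd or gcd
formula Nat.pow_sub_one_gcd_pow_sub_one). fix_of_triv: phi restricts to phi_L in Gal(L/k)
(AlgEquiv.restrictNormal) with phi_L x - x in V for all x in O_L: phi_L is in the inertia group of V,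
which has order ramificationIdxIn = 1 (Ideal.card_inertia_eq_ramificationIdxIn).
-/

set_option autoImplicit false

namespace Pool.Agent.Lib.MP_1a91b9_nuT.CF

variable [CD]

open NumberField IsDedekindDomain UniqueFactorizationMonoid Pool.Agent.Lib.MP_1a91b9_nt S4

universe u

section
variable {k N : Type u} [Field k] [NumberField k] [Field N] [NumberField N] [Algebra k N]
  [IsGalois k N]

/-- `φ` is a Frobenius element at `W` over the place `v` below -/
def IsFr (v : HeightOneSpectrum (𝓞 k)) (W : HeightOneSpectrum (𝓞 N)) (φ : Gal(N/k)) : Prop :=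
  ∀ x : 𝓞 N, φ • x - x ^ nrm v ∈ W.asIdeal

theorem exists_over (v : HeightOneSpectrum (𝓞 k)) :
    ∃ W : HeightOneSpectrum (𝓞 N), W.under (𝓞 k) = v := by
  obtain ⟨P, hPm, hP⟩ := Ideal.exists_maximal_ideal_liesOver_of_isIntegral (S := 𝓞 N) v.asIdeal
  refine ⟨⟨P, hPm.isPrime, ?_⟩, ?_⟩
  · intro hb
    apply v.ne_bot
    rw [hP.over, hb]
    exact Ideal.comap_bot_of_injective _ (FaithfulSMul.algebraMap_injective (𝓞 k) (𝓞 N))
  · apply HeightOneSpectrum.ext
    exact hP.over.symm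

private theorem frob_card (v : HeightOneSpectrum (𝓞 k)) :
    Nat.card (𝓞 k ⧸ v.asIdeal) = nrm v := by
  rw [nrm_eq]
  rfl

theorem exists_fr (W : HeightOneSpectrum (𝓞 N)) : ∃ φ : Gal(N/k), IsFr (W.under (𝓞 k)) W φ := by
  have hfin : Finite (𝓞 N ⧸ W.asIdeal) := Ideal.finiteQuotientOfFreeOfNeBot _ W.ne_bot
  have hprime := W.isPrime
  obtain ⟨φ, hφ⟩ := IsArithFrobAt.exists_of_isInvariant (𝓞 k) Gal(N/k) W.asIdeal
  refine ⟨φ, fun x => ?_⟩
  have h := hφ x
  rw [← frob_card]
  exact h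

/-- the action of a Frobenius element on roots of unity of order prime to `W` -/
theorem IsFr.zeta {v : HeightOneSpectrum (𝓞 k)} {W : HeightOneSpectrum (𝓞 N)} {φ : Gal(N/k)}
    (h : IsFr v W φ) (hv : W.under (𝓞 k) = v) (q : ℕ) (hq : (q : 𝓞 N) ∉ W.asIdeal) (ζ : N)
    (hζ : ζ ^ q = 1) : φ ζ = ζ ^ nrm v := by
  rcases Nat.eq_zero_or_pos q with rfl | hq0
  · exact absurd (by simp) hq
  have hint : IsIntegral ℤ ζ := IsIntegral.of_pow hq0 (by rw [hζ]; exact isIntegral_one)
  let z : 𝓞 N := ⟨ζ, hint⟩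
  have hz : z ^ q = 1 := by
    apply RingOfIntegers.ext
    exact hζ
  have hF : IsArithFrobAt (𝓞 k) φ W.asIdeal := by
    intro x
    have h1 := h x
    rw [← frob_card v, ← hv] at h1
    exact h1
  have h2 := AlgHom.IsArithFrobAt.apply_of_pow_eq_one hF hz hq
  have h3 : Nat.card (𝓞 k ⧸ W.asIdeal.under (𝓞 k)) = nrm v := by
    rw [← frob_card v, ← hv]
    rfl
  rw [h3] at h2
  have h4 := congrArg (fun x : 𝓞 N => (x : N)) h2
  exact h4

end

section
variable {k L N : Type u} [Field k] [NumberField k] [Field L] [NumberField L] [Field N]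
  [NumberField N] [Algebra k L] [Algebra k N] [Algebra L N] [IsScalarTower k L N]

end

open NumberField IsDedekindDomain UniqueFactorizationMonoid Pool.Agent.Lib.MP_1a91b9_nt S4

section
variable {k N : Type u} [Field k] [NumberField k] [Field N] [NumberField N] [Algebra k N]
  [IsGalois k N]

end

section
variable {k L N : Type u} [Field k] [NumberField k] [Field L] [NumberField L] [Field N]
  [NumberField N] [Algebra k L] [Algebra k N] [Algebra L N] [IsScalarTower k L N]

omit [NumberField k] [NumberField L] [NumberField N] in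
private theorem frob_smul (φ : Gal(N/k)) (x : 𝓞 N) : ((φ • x : 𝓞 N) : N) = φ (x : N) := rfl

private theorem frob_dvd {a m n : ℕ} (ha : 2 ≤ a) (h : a ^ m - 1 ∣ a ^ n - 1) : m ∣ n := by
  have h1 := Nat.pow_sub_one_gcd_pow_sub_one a m n
  rw [Nat.gcd_eq_left h] at h1
  have h2 : 1 ≤ a ^ m := Nat.one_le_pow _ _ (by omega)
  have h3 : 1 ≤ a ^ (m.gcd n) := Nat.one_le_pow _ _ (by omega)
  have h4 : a ^ m = a ^ (m.gcd n) := by omega
  have h5 : m = m.gcd n := Nat.pow_right_injective ha h4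
  rw [h5]
  exact Nat.gcd_dvd_right m n

private theorem frobB_card {κ : Type*} [Field κ] [Finite κ] {n : ℕ} (hn : 1 ≤ n)
    (h : ∀ x : κ, x = x ^ n) : Nat.card κ - 1 ∣ n - 1 := by
  have := Fintype.ofFinite κ
  obtain ⟨g, hg⟩ := IsCyclic.exists_generator (α := κˣ)
  have h1 : orderOf g = Nat.card κˣ := orderOf_eq_card_of_forall_mem_zpowers hg
  have h2 : Nat.card κˣ = Nat.card κ - 1 := Nat.card_units κ
  have h3 : g ^ (n - 1) = 1 := by
    have h4 : g = g ^ n := Units.ext (by rw [Units.val_pow_eq_pow_val]; exact h g)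
    have h5 : g * g ^ (n - 1) = g * 1 := by
      rw [← pow_succ', Nat.sub_add_cancel hn, mul_one]
      exact h4.symm
    exact mul_left_cancel h5
  rw [← h2, ← h1]
  exact orderOf_dvd_of_pow_eq_one h3

/-- an automorphism of `N` which fixes `L` and is a Frobenius element at `W` (with the norm `n`):
the residue field of `L` below `W` is contained in the field with `n` elements -/
theorem fr_fix (W : HeightOneSpectrum (𝓞 N)) (φ : Gal(N/k)) (n f : ℕ)
    (v : HeightOneSpectrum (𝓞 k)) (hv : W.under (𝓞 k) = v) (hn : n = nrm v ^ f) (hf : 0 < f)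
    (h : ∀ x : 𝓞 N, φ • x - x ^ n ∈ W.asIdeal) (hfix : ∀ x : L, φ (algebraMap L N x) = algebraMap L N x) :
    (W.under (𝓞 L)).asIdeal.inertiaDeg (𝓞 k) ∣ f := by
  set V : HeightOneSpectrum (𝓞 L) := W.under (𝓞 L) with hV
  have hVv : V.under (𝓞 k) = v := by
    rw [← hv]
    apply HeightOneSpectrum.ext
    show Ideal.under (𝓞 k) (Ideal.under (𝓞 L) W.asIdeal) = Ideal.under (𝓞 k) W.asIdeal
    exact Ideal.under_under _
  have hlo : V.asIdeal.LiesOver v.asIdeal := ⟨by rw [← hVv]; rfl⟩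
  have hcard : nrm V = nrm v ^ V.asIdeal.inertiaDeg (𝓞 k) := by
    rw [nrm_eq, nrm_eq, Ideal.absNorm_pow_inertiaDeg v.asIdeal V.asIdeal]
  have h2 : 2 ≤ nrm v := by
    rw [nrm_eq]
    have h0 : Ideal.absNorm v.asIdeal ≠ 0 := by
      rw [Ne, Ideal.absNorm_eq_zero_iff]
      exact v.ne_bot
    have h1 : Ideal.absNorm v.asIdeal ≠ 1 := by
      rw [Ne, Ideal.absNorm_eq_one_iff]
      exact v.isPrime.ne_top
    omega
  have hn1 : 1 ≤ n := by
    rw [hn]
    exact Nat.one_le_pow _ _ (by omega)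
  have hx : ∀ x : 𝓞 L, x - x ^ n ∈ V.asIdeal := by
    intro x
    have h1 := h (algebraMap (𝓞 L) (𝓞 N) x)
    have h3 : φ • (algebraMap (𝓞 L) (𝓞 N) x) = algebraMap (𝓞 L) (𝓞 N) x := by
      apply RingOfIntegers.ext
      rw [frob_smul]
      exact hfix (x : L)
    rw [h3, ← map_pow, ← map_sub] at h1
    exact h1
  have hmax : V.asIdeal.IsMaximal := V.isMaximal
  let _ : Field (𝓞 L ⧸ V.asIdeal) := Ideal.Quotient.field V.asIdeal
  have hfin : Finite (𝓞 L ⧸ V.asIdeal) := inferInstance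
  have h4 : Nat.card (𝓞 L ⧸ V.asIdeal) - 1 ∣ n - 1 := by
    refine frobB_card hn1 fun y => ?_
    obtain ⟨x, rfl⟩ := Ideal.Quotient.mk_surjective y
    rw [← map_pow, Ideal.Quotient.eq]
    exact hx x
  have h5 : Nat.card (𝓞 L ⧸ V.asIdeal) = nrm V := by
    rw [nrm_eq, Ideal.absNorm_apply, Submodule.cardQuot_apply]
  rw [h5, hcard, hn] at h4
  exact frob_dvd h2 h4

/-- an automorphism of `N` which acts trivially on the residue field of `L` below `W` fixes `L` if
`L / k` is unramified there -/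
theorem fix_of_triv [IsGalois k L] (W : HeightOneSpectrum (𝓞 N)) (φ : Gal(N/k))
    (hr : ¬ Ram L (W.under (𝓞 k)))
    (h : ∀ x : 𝓞 L, φ • (algebraMap (𝓞 L) (𝓞 N) x) - algebraMap (𝓞 L) (𝓞 N) x ∈ W.asIdeal) :
    ∀ x : L, φ (algebraMap L N x) = algebraMap L N x := by
  set V : HeightOneSpectrum (𝓞 L) := W.under (𝓞 L) with hV
  set v : HeightOneSpectrum (𝓞 k) := W.under (𝓞 k) with hv
  have hVv : V.under (𝓞 k) = v := by
    rw [hv, hV]
    apply HeightOneSpectrum.ext
    show Ideal.under (𝓞 k) (Ideal.under (𝓞 L) W.asIdeal) = Ideal.under (𝓞 k) W.asIdeal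
    exact Ideal.under_under _
  have hlo : V.asIdeal.LiesOver v.asIdeal := ⟨by rw [← hVv]; rfl⟩
  have hr1 : v.asIdeal.ramificationIdxIn (𝓞 L) = 1 := by
    by_contra hne
    exact hr hne
  set ψ : Gal(L/k) := φ.restrictNormal L with hψ
  have hcomm : ∀ x : L, algebraMap L N (ψ x) = φ (algebraMap L N x) :=
    AlgEquiv.restrictNormal_commutes φ L
  have hin : ψ ∈ Ideal.inertia Gal(L/k) V.asIdeal := by
    rw [AddSubgroup.mem_inertia]
    intro x
    have h1 := h x
    have h2 : algebraMap (𝓞 L) (𝓞 N) (ψ • x) = φ • (algebraMap (𝓞 L) (𝓞 N) x) := by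
      apply RingOfIntegers.ext
      rw [frob_smul]
      exact hcomm (x : L)
    have h3 : algebraMap (𝓞 L) (𝓞 N) (ψ • x - x) ∈ W.asIdeal := by
      rw [map_sub, h2]
      exact h1
    exact h3
  have hc := Ideal.card_inertia_eq_ramificationIdxIn (G := Gal(L/k)) v.asIdeal V.asIdeal
  rw [hr1] at hc
  have hbot : Ideal.inertia Gal(L/k) V.asIdeal = ⊥ := Subgroup.card_eq_one.1 hc
  rw [hbot, Subgroup.mem_bot] at hin
  intro x
  rw [← hcomm x, hin]
  rfl

end

end Pool.Agent.Lib.MP_1a91b9_nuT.CF
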