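import Pool.Agent.Lib.MP_1a91b9_nuT.CF.PrimeSum

/-! # CF: orthogonal families of ray class characters and density

PROOF (complete; job of helper29, see team-store bsd_D_doc_CF.md):
For i <> i0: log_L gives sum_w Re X_i(w) N w^(-s) <= log|Lf X_i s| + B <= log(max(B_i,1)) + B
(Lf <> 0). For i0: Re X_{i0}(w) <= 1 so the sum is <= PZ univ s <= log(1/(s-1)) + B'. Sum over i (finite)
and use hsum termwise (tsum of a finite sum; all series summable by summable_places).
-/

set_option autoImplicit false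

namespace Pool.Agent.Lib.MP_1a91b9_nuT.CF

variable [CD]

open NumberField IsDedekindDomain UniqueFactorizationMonoid Pool.Agent.Lib.MP_1a91b9_nt S4

universe u

section
variable {F : Type u} [Field F] [NumberField F]

/-- density bound from an orthogonal family of ray class characters, whose `L`-series are bounded
near `1` (except the one of `i₀`) -/
theorem dens_family (m : Ideal (𝓞 F)) (hm0 : m ≠ 0) (hm1 : m ≠ 1) {ι : Type*} [Fintype ι]
    (X : ι → Ideal (𝓞 F) → ℂ) (i₀ : ι) (hX : ∀ i, IsRay m (X i))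
    (hb : ∀ i, i ≠ i₀ → ∃ B : ℝ, ∀ s : ℝ, 1 < s → s ≤ 2 → ‖Lf (X i) (s : ℂ)‖ ≤ B)
    (Z : Set (HeightOneSpectrum (𝓞 F)))
    (hsum : ∀ w, (Fintype.card ι : ℝ) * Z.indicator 1 w ≤ ∑ i, (X i w.asIdeal).re) :
    ∃ B : ℝ, ∀ s : ℝ, 1 < s → s ≤ 2 →
      (Fintype.card ι : ℝ) * PZ Z s ≤ Real.log (1 / (s - 1)) + B := by
  classical
  obtain ⟨B0, hB0⟩ := log_L F
  obtain ⟨B1, hB1⟩ := prime_sum F
  have hX0 : ∀ i, X i 0 = 0 := fun i => (hX i).zero 0 (by
    intro h
    rw [isCoprime_zero_left, Ideal.isUnit_iff] at h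
    exact hm1 (by rw [h, Ideal.one_eq_top]))
  have hXn : ∀ i I, ‖X i I‖ ≤ 1 := by
    intro i I
    by_cases h : IsCoprime I m
    · exact ((hX i).norm I h).le
    · rw [(hX i).zero I h, norm_zero]
      exact zero_le_one
  have hre : ∀ i I, |(X i I).re| ≤ 1 := fun i I => (Complex.abs_re_le_norm _).trans (hXn i I)
  have hnn : ∀ (s : ℝ) (w : HeightOneSpectrum (𝓞 F)), 0 ≤ (nrm w : ℝ) ^ (-s) := fun s w =>
    Real.rpow_nonneg (Nat.cast_nonneg _) _
  have hsummable : ∀ (s : ℝ), 1 < s → ∀ i, Summable fun w : HeightOneSpectrum (𝓞 F) =>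
      (X i w.asIdeal).re * (nrm w : ℝ) ^ (-s) := by
    intro s hs i
    refine Summable.of_norm_bounded (summable_places F s hs) fun w => ?_
    rw [Real.norm_eq_abs, abs_mul, abs_of_nonneg (hnn s w)]
    exact mul_le_of_le_one_left (hnn s w) (hre i _)
  have key : ∀ i, ∃ B : ℝ, ∀ s : ℝ, 1 < s → s ≤ 2 →
      ∑' w : HeightOneSpectrum (𝓞 F), (X i w.asIdeal).re * (nrm w : ℝ) ^ (-s) ≤
        (if i = i₀ then Real.log (1 / (s - 1)) else 0) + B := by
    intro i
    by_cases hi : i = i₀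
    · refine ⟨B1, fun s hs hs2 => ?_⟩
      rw [if_pos hi]
      have h1 : ∑' w : HeightOneSpectrum (𝓞 F), (X i w.asIdeal).re * (nrm w : ℝ) ^ (-s) ≤
          PZ (Set.univ : Set (HeightOneSpectrum (𝓞 F))) s := by
        unfold PZ
        simp only [Set.indicator_univ]
        refine (hsummable s hs i).tsum_le_tsum (fun w => ?_) (summable_places F s hs)
        exact mul_le_of_le_one_left (hnn s w) ((le_abs_self _).trans (hre i _))
      have h2 := (abs_le.mp (hB1 s hs hs2)).2
      linarith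
    · obtain ⟨B, hB⟩ := hb i hi
      refine ⟨Real.log (max B 1) + B0, fun s hs hs2 => ?_⟩
      rw [if_neg hi, zero_add]
      obtain ⟨h1, h2⟩ := hB0 (X i) (hX0 i) (hX i).one (hX i).mul (hXn i) s hs hs2
      have h3 : Real.log ‖Lf (X i) (s : ℂ)‖ ≤ Real.log (max B 1) :=
        Real.log_le_log (norm_pos_iff.mpr h1) ((hB s hs hs2).trans (le_max_left _ _))
      have h4 := (abs_le.mp h2).1
      linarith
  choose Bf hBf using key
  refine ⟨∑ i, Bf i, fun s hs hs2 => ?_⟩
  have h1 : ∑ i, ∑' w : HeightOneSpectrum (𝓞 F), (X i w.asIdeal).re * (nrm w : ℝ) ^ (-s) ≤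
      Real.log (1 / (s - 1)) + ∑ i, Bf i := by
    refine (Finset.sum_le_sum fun i _ => hBf i s hs hs2).trans (le_of_eq ?_)
    rw [Finset.sum_add_distrib, Finset.sum_ite_eq' Finset.univ i₀, if_pos (Finset.mem_univ _)]
  refine le_trans ?_ h1
  rw [← Summable.tsum_finsetSum (fun i _ => hsummable s hs i)]
  unfold PZ
  rw [← tsum_mul_left]
  refine Summable.tsum_le_tsum (fun w => ?_) ?_ (summable_sum fun i _ => hsummable s hs i)
  · rw [← Finset.sum_mul]
    have h2 := mul_le_mul_of_nonneg_right (hsum w) (hnn s w)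
    refine le_trans (le_of_eq ?_) h2
    by_cases hw : w ∈ Z
    · rw [Set.indicator_of_mem hw, Set.indicator_of_mem hw, Pi.one_apply, mul_one]
    · rw [Set.indicator_of_notMem hw, Set.indicator_of_notMem hw, mul_zero, zero_mul]
  · exact ((summable_places F s hs).indicator Z).mul_left _

end

end Pool.Agent.Lib.MP_1a91b9_nuT.CF
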