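import Pool.Agent.Lib.MP_1a91b9_nuT.CF.RayFun

/-! # CF: ray class functions of an extension from norms

PROOF (complete; job of helper29, see team-store bsd_D_doc_CF.md):
norm_one_mod: z = 1 + y with y in m O_E. N(z) = product of conjugates, or: the matrix of
multiplication by z on the O_k-module O_E... (localise: it suffices to prove N z - 1 in m locally
at each prime, where O_E is free over O_k: the matrix of z is congruent to 1 modulo m, so its
determinant is 1 modulo m.) Alternative: the minimal integral approach: Algebra.intNorm and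
base change to a Galois closure N/k: N(z) = product of sigma(z), each is 1 modulo m O_N (m O_N is
stable), so N(z) - 1 in m O_N intersected with O_k, which is m (O_N faithfully flat / Ideal.
comap_map for Dedekind: under (map m) = m). evI_norm: both sides are additive in I (relNorm_mul,
evI_mul), true for I prime: relNorm w = v^f (Ideal.relNorm_eq_pow_of_isMaximal or similar; see
S4/NormPsi.lean, psi_over), induction on the factorization of I. rc_norm: zero: m O_E <= w implies
m <= w.under. princ: relNorm (z) = (intNorm z) (Ideal.relNorm_singleton), norm_one_mod, intNorm z <> 0.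
-/

set_option autoImplicit false

namespace Pool.Agent.Lib.MP_1a91b9_nuT.CF

variable [CD]

open NumberField IsDedekindDomain UniqueFactorizationMonoid Pool.Agent.Lib.MP_1a91b9_nt S4

universe u

private theorem normrc_repr {R S ι : Type*} [CommRing R] [CommRing S] [Algebra R S]
    (b : Module.Basis ι R S) (m : Ideal R) (y : S) (hy : y ∈ m.map (algebraMap R S)) (i : ι) :
    b.repr y i ∈ m := by
  have h1 : y ∈ (m • (⊤ : Submodule R S)) := by
    rw [Ideal.smul_top_eq_map]
    exact hy
  clear hy
  induction h1 using Submodule.smul_induction_on' with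
  | smul r hr n hn =>
    rw [map_smul, Finsupp.smul_apply, smul_eq_mul]
    exact m.mul_mem_right _ hr
  | add x hx y hy h1 h2 =>
    rw [map_add, Finsupp.add_apply]
    exact m.add_mem h1 h2

private theorem normrc_free {R S : Type*} [CommRing R] [CommRing S] [Algebra R S]
    [Module.Free R S] [Module.Finite R S] (m : Ideal R) (z : S)
    (hz : z - 1 ∈ m.map (algebraMap R S)) : Algebra.norm R z - 1 ∈ m := by
  classical
  by_cases hn : Nontrivial R
  swap
  · rw [not_nontrivial_iff_subsingleton] at hn
    rw [Subsingleton.elim (Algebra.norm R z - 1) 0]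
    exact m.zero_mem
  let b := Module.Free.chooseBasis R S
  rw [Algebra.norm_eq_matrix_det b, ← Ideal.Quotient.eq_zero_iff_mem, map_sub, map_one,
    sub_eq_zero, RingHom.map_det]
  have h0 : (Ideal.Quotient.mk m).mapMatrix (Algebra.leftMulMatrix b (z - 1)) = 0 := by
    ext i j
    rw [RingHom.mapMatrix_apply, Matrix.map_apply, Algebra.leftMulMatrix_eq_repr_mul,
      Matrix.zero_apply, Ideal.Quotient.eq_zero_iff_mem]
    exact normrc_repr b m _ (Ideal.mul_mem_right _ _ hz) i
  have h1 : (Ideal.Quotient.mk m).mapMatrix (Algebra.leftMulMatrix b z) = 1 := by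
    have h2 : z = 1 + (z - 1) := by ring
    rw [h2, map_add, map_one, map_add, map_one, h0, add_zero]
  rw [h1, Matrix.det_one]

open Ideal in
private theorem normrc_gen {R S : Type*} [CommRing R] [CommRing S] 
    [IsDedekindDomain R] [IsDedekindDomain S] [Algebra R S] [Module.Finite R S]
    [Module.IsTorsionFree R S] (hR : ¬ IsField R) (m : Ideal R) (z : S)
    (hz : z - 1 ∈ m.map (algebraMap R S)) : Algebra.intNorm R S z - 1 ∈ m := by
  refine Ideal.mem_of_localization_maximal fun P hP => ?_
  have hP0 : P ≠ ⊥ := Ring.ne_bot_of_isMaximal_of_not_isField hP hR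
  have : NeZero P := ⟨hP0⟩
  let P' := Algebra.algebraMapSubmonoid S P.primeCompl
  have hz' : algebraMap S (Localization P') z - 1 ∈
      (m.map (algebraMap R (Localization.AtPrime P))).map
        (algebraMap (Localization.AtPrime P) (Localization P')) := by
    rw [Ideal.map_map, ← IsScalarTower.algebraMap_eq, IsScalarTower.algebraMap_eq R S,
      ← Ideal.map_map, ← map_one (algebraMap S (Localization P')), ← map_sub]
    exact Ideal.mem_map_of_mem _ hz
  rw [map_sub, map_one,
    Algebra.intNorm_eq_of_isLocalization P.primeCompl (Bₘ := Localization P'),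
    Algebra.intNorm_eq_norm]
  exact normrc_free _ _ hz'

section
variable (k E : Type u) [Field k] [NumberField k] [Field E] [NumberField E] [Algebra k E]

/-- an element which is `1` modulo `m` has norm `1` modulo `m` -/
theorem norm_one_mod (m : Ideal (𝓞 k)) (z : 𝓞 E)
    (hz : z - 1 ∈ m.map (algebraMap (𝓞 k) (𝓞 E))) : Algebra.intNorm (𝓞 k) (𝓞 E) z - 1 ∈ m :=
  normrc_gen (RingOfIntegers.not_isField k) m z hz

end

open NumberField IsDedekindDomain UniqueFactorizationMonoid Pool.Agent.Lib.MP_1a91b9_nt S4

section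
variable (k E : Type u) [Field k] [NumberField k] [Field E] [NumberField E] [Algebra k E]

private theorem normrc_relNorm_ne {I : Ideal (𝓞 E)} (hI : I ≠ 0) :
    Ideal.relNorm (𝓞 k) I ≠ 0 := by
  intro h
  exact hI (Ideal.relNorm_eq_bot_iff.mp h)

private theorem normrc_pow {A : Type*} [CommSemiring A] (x : HeightOneSpectrum (𝓞 k) → A)
    (v : HeightOneSpectrum (𝓞 k)) (n : ℕ) : evI x (v.asIdeal ^ n) = (n : A) * x v := by
  induction n with
  | zero => rw [pow_zero, evI_one, Nat.cast_zero, zero_mul]
  | succ n ih =>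
    rw [pow_succ, evI_mul _ _ _ (pow_ne_zero _ v.ne_bot) v.ne_bot, ih, evI_place]
    push_cast
    ring

private theorem normrc_place {A : Type*} [CommSemiring A] (x : HeightOneSpectrum (𝓞 k) → A)
    (w : HeightOneSpectrum (𝓞 E)) :
    evI (fun w : HeightOneSpectrum (𝓞 E) =>
      (w.asIdeal.inertiaDeg (𝓞 k) : A) * x (w.under (𝓞 k))) w.asIdeal =
      evI x (Ideal.relNorm (𝓞 k) w.asIdeal) := by
  have hlo : w.asIdeal.LiesOver (w.under (𝓞 k)).asIdeal := ⟨rfl⟩
  have i1 : w.asIdeal.IsMaximal := w.isMaximal
  have i2 : (w.under (𝓞 k)).asIdeal.IsMaximal := (w.under (𝓞 k)).isMaximal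
  rw [evI_place, Ideal.relNorm_eq_pow_of_isMaximal w.asIdeal (w.under (𝓞 k)).asIdeal,
    normrc_pow]

/-- composition with the norm of ideals -/
theorem evI_norm {A : Type*} [CommSemiring A] (x : HeightOneSpectrum (𝓞 k) → A)
    (I : Ideal (𝓞 E)) (hI : I ≠ 0) :
    evI (fun w : HeightOneSpectrum (𝓞 E) =>
      (w.asIdeal.inertiaDeg (𝓞 k) : A) * x (w.under (𝓞 k))) I =
      evI x (Ideal.relNorm (𝓞 k) I) := by
  classical
  induction I using UniqueFactorizationMonoid.induction_on_prime with
  | h₁ => exact absurd rfl hI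
  | h₂ J hJ =>
    have hJ1 : J = 1 := by
      rw [Ideal.isUnit_iff] at hJ
      rw [hJ, Ideal.one_eq_top]
    rw [hJ1, map_one, evI_one, evI_one]
  | h₃ J P hJ hP ih =>
    have hP0 : P ≠ 0 := hP.ne_zero
    rw [evI_mul _ _ _ hP0 hJ, map_mul, evI_mul _ _ _ (normrc_relNorm_ne k E hP0)
      (normrc_relNorm_ne k E hJ), ih hJ]
    congr 1
    have hPp : P.IsPrime := Ideal.isPrime_of_prime hP
    exact normrc_place k E x ⟨P, hPp, hP0⟩

private theorem normrc_intNorm_ne {z : 𝓞 E} (hz : z ≠ 0) :
    Algebra.intNorm (𝓞 k) (𝓞 E) z ≠ 0 := by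
  intro h
  have h1 := Ideal.relNorm_singleton (𝓞 k) z
  rw [h, Ideal.span_singleton_zero, Ideal.relNorm_eq_bot_iff, Ideal.span_singleton_eq_bot] at h1
  exact hz h1

theorem rc_norm {A : Type*} [CommSemiring A] (m : Ideal (𝓞 k)) (x : HeightOneSpectrum (𝓞 k) → A)
    (hx : RC m x) : RC (m.map (algebraMap (𝓞 k) (𝓞 E)))
      (fun w : HeightOneSpectrum (𝓞 E) =>
        (w.asIdeal.inertiaDeg (𝓞 k) : A) * x (w.under (𝓞 k))) := by
  refine ⟨fun w hw => ?_, fun z hz hz1 => ?_⟩
  · have h : m ≤ (w.under (𝓞 k)).asIdeal := Ideal.map_le_iff_le_comap.mp hw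
    rw [hx.zero _ h, mul_zero]
  · rw [evI_norm k E x _ (by rwa [Ne, Ideal.zero_eq_bot, Ideal.span_singleton_eq_bot]),
      Ideal.relNorm_singleton]
    exact hx.princ _ (normrc_intNorm_ne k E hz) (norm_one_mod k E m z hz1)

end

end Pool.Agent.Lib.MP_1a91b9_nuT.CF
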