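import Pool.Agent.Lib.MP_1a91b9_nuT.CF.Ord

/-! # CF: orders in extensions

PROOF (complete; job of helper29, see team-store bsd_D_doc_CF.md):
ord_incA: valuation of algebraMap y at w is the e-th power (HeightOneSpectrum.valuation_liesOver or
via ideals (y)O_L). ord_nmA: for y integral: (N y) = relNorm (y) and relNorm w = v^f, additivity;
general y = y1/y2. ord_transport: Galois group transitive on primes above v, valuation transport.
trichotomy: ncard * (e * f) = ell prime.
-/

set_option autoImplicit false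

namespace Pool.Agent.Lib.MP_1a91b9_nuT.CF

variable [CD]

open NumberField IsDedekindDomain UniqueFactorizationMonoid Pool.Agent.Lib.MP_1a91b9_nt S4

universe u

noncomputable section

section
variable (k L : Type u) [Field k] [NumberField k] [Field L] [NumberField L] [Algebra k L]

/-- the norm, written additively -/
def nmA : Additive Lˣ →+ Additive kˣ :=
  MonoidHom.toAdditive (Units.map (Algebra.norm k : L →* k))

/-- the inclusion, written additively -/
def incA : Additive kˣ →+ Additive Lˣ :=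
  MonoidHom.toAdditive (Units.map (algebraMap k L : k →* L))

variable {k L}

/-- an automorphism, written additively -/
def autA (σ : Gal(L/k)) : Additive Lˣ →+ Additive Lˣ :=
  MonoidHom.toAdditive (Units.map (σ : L →* L))

theorem incA_injective : Function.Injective (incA k L) := by
  intro x y h
  have h1 : Units.map (algebraMap k L : k →* L) (Additive.toMul x) =
      Units.map (algebraMap k L : k →* L) (Additive.toMul y) := h
  have h2 := congrArg (fun u : Lˣ => (u : L)) h1
  have h3 : ((Additive.toMul x : kˣ) : k) = ((Additive.toMul y : kˣ) : k) :=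
    (algebraMap k L).injective h2
  exact Additive.toMul.injective (Units.ext h3)

theorem ord_incA (w : HeightOneSpectrum (𝓞 L)) (y : Additive kˣ) :
    ord w (incA k L y) = (w.asIdeal.ramificationIdx (𝓞 k) : ℤ) * ord (w.under (𝓞 k)) y := by
  have hbot : (w.under (𝓞 k)).asIdeal ≠ ⊥ := (w.under (𝓞 k)).ne_bot
  have hover : w.asIdeal.LiesOver (w.under (𝓞 k)).asIdeal := ⟨rfl⟩
  have hprime : w.asIdeal.IsPrime := w.isPrime
  have hram : (w.under (𝓞 k)).asIdeal.ramificationIdx' w.asIdeal =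
      w.asIdeal.ramificationIdx (𝓞 k) :=
    Ideal.ramificationIdx'_eq_ramificationIdx _ _ hbot
  have key : w.valuationOfNeZero (Units.map (algebraMap k L : k →* L) (Additive.toMul y)) =
      ((w.under (𝓞 k)).valuationOfNeZero (Additive.toMul y)) ^
        (w.asIdeal.ramificationIdx (𝓞 k)) := by
    rw [← WithZero.coe_inj, HeightOneSpectrum.valuationOfNeZero_eq, WithZero.coe_pow,
      HeightOneSpectrum.valuationOfNeZero_eq, Units.coe_map, ← hram]
    exact (HeightOneSpectrum.valuation_liesOver L (w.under (𝓞 k)) w _).symm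
  have h1 : ord w (incA k L y) = -(Multiplicative.toAdd (w.valuationOfNeZero
      (Units.map (algebraMap k L : k →* L) (Additive.toMul y)))) := rfl
  have h2 : ord (w.under (𝓞 k)) y = -(Multiplicative.toAdd
      ((w.under (𝓞 k)).valuationOfNeZero (Additive.toMul y))) := rfl
  rw [h1, h2, key, toAdd_pow, nsmul_eq_mul]
  ring

open Classical in
private theorem OXA_count (v : HeightOneSpectrum (𝓞 k)) (s : Finset (HeightOneSpectrum (𝓞 L)))
    (hs : ∀ w, w ∈ s ↔ w.asIdeal.under (𝓞 k) = v.asIdeal) (I : Ideal (𝓞 L)) (hI : I ≠ 0) :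
    (normalizedFactors (Ideal.relNorm (𝓞 k) I)).count v.asIdeal =
      ∑ w ∈ s, w.asIdeal.inertiaDeg (𝓞 k) * (normalizedFactors I).count w.asIdeal := by
  revert hI
  refine UniqueFactorizationMonoid.induction_on_prime I ?_ ?_ ?_
  · intro h
    exact absurd rfl h
  · intro J hJ _
    have hJ1 : J = 1 := by
      rw [Ideal.isUnit_iff] at hJ
      rw [hJ, Ideal.one_eq_top]
    rw [hJ1, map_one, normalizedFactors_one, normalizedFactors_one]
    simp
  · intro J P hJ hP ih _
    have hJr : Ideal.relNorm (𝓞 k) J ≠ 0 := by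
      intro h0
      exact hJ (Ideal.relNorm_eq_bot_iff.mp h0)
    have hPr : Ideal.relNorm (𝓞 k) P ≠ 0 := by
      intro h0
      exact hP.ne_zero (Ideal.relNorm_eq_bot_iff.mp h0)
    have hPp : P.IsPrime := Ideal.isPrime_of_prime hP
    have hPb : P ≠ ⊥ := hP.ne_zero
    have hPm : P.IsMaximal := hPp.isMaximal hPb
    obtain ⟨w₀, hw₀⟩ : ∃ w₀ : HeightOneSpectrum (𝓞 L), w₀.asIdeal = P := ⟨⟨P, hPp, hPb⟩, rfl⟩
    have hu : (P.under (𝓞 k)).IsMaximal := Ideal.isMaximal_comap_of_isIntegral_of_isMaximal P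
    have hub : P.under (𝓞 k) ≠ ⊥ := mt Ideal.eq_bot_of_comap_eq_bot hPb
    have hrel : Ideal.relNorm (𝓞 k) P = (P.under (𝓞 k)) ^ P.inertiaDeg (𝓞 k) :=
      Ideal.relNorm_eq_pow_of_isMaximal P (P.under (𝓞 k))
    have hup : Irreducible (P.under (𝓞 k)) := (Ideal.prime_of_isPrime hub hu.isPrime).irreducible
    rw [map_mul, normalizedFactors_mul hPr hJr, normalizedFactors_mul hP.ne_zero hJ,
      Multiset.count_add, ih hJ, hrel, normalizedFactors_pow, normalizedFactors_irreducible hup,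
      Multiset.count_nsmul, normalizedFactors_irreducible hP.irreducible]
    simp only [normalize_eq, Multiset.count_add, Nat.mul_add, Finset.sum_add_distrib,
      Multiset.count_singleton]
    congr 1
    by_cases h : P.under (𝓞 k) = v.asIdeal
    · rw [if_pos h.symm]
      rw [Finset.sum_eq_single w₀]
      · rw [if_pos hw₀, hw₀]
      · intro w _ hw
        rw [if_neg, mul_zero]
        intro h1
        exact hw (HeightOneSpectrum.ext (h1.trans hw₀.symm))
      · intro h1
        exact absurd ((hs w₀).mpr (by rw [hw₀]; exact h)) h1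
    · rw [if_neg (fun h1 => h h1.symm), mul_zero]
      symm
      apply Finset.sum_eq_zero
      intro w hw
      rw [if_neg, mul_zero]
      intro h1
      apply h
      rw [← h1]
      exact (hs w).mp hw

private theorem OXA_int (v : HeightOneSpectrum (𝓞 k)) (z : 𝓞 L) (u : Lˣ) (hu : (u : L) = (z : L)) :
    ord v (nmA k L (Additive.ofMul u)) =
      ∑ w : Over L v, (w.1.asIdeal.inertiaDeg (𝓞 k) : ℤ) * ord w.1 (Additive.ofMul u) := by
  classical
  have hz : z ≠ 0 := by
    rintro rfl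
    exact u.ne_zero hu
  have hz' : Ideal.span {z} ≠ (0 : Ideal (𝓞 L)) := by
    intro h0
    exact hz (Ideal.span_singleton_eq_bot.mp h0)
  have h1 : ((Units.map (Algebra.norm k : L →* k) u : kˣ) : k) =
      ((Algebra.intNorm (𝓞 k) (𝓞 L) z : 𝓞 k) : k) := by
    rw [Units.coe_map]
    show Algebra.norm k (u : L) = algebraMap (𝓞 k) k (Algebra.intNorm (𝓞 k) (𝓞 L) z)
    rw [Algebra.algebraMap_intNorm (A := 𝓞 k) (K := k) (L := L) (B := 𝓞 L), hu]
  have h2 := ord_int v (Algebra.intNorm (𝓞 k) (𝓞 L) z) _ h1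
  have h3 := OXA_count v (Finset.univ.image (fun w : Over L v => w.1)) (by
    intro w
    simp only [Finset.mem_image, Finset.mem_univ, true_and]
    constructor
    · rintro ⟨w', rfl⟩
      exact w'.2
    · intro h
      exact ⟨⟨w, h⟩, rfl⟩) (Ideal.span {z}) hz'
  rw [Ideal.relNorm_singleton] at h3
  rw [Finset.sum_subtype (p := fun w : HeightOneSpectrum (𝓞 L) =>
    w.asIdeal.under (𝓞 k) = v.asIdeal) _ (by
    intro w
    simp only [Finset.mem_image, Finset.mem_univ, true_and]
    constructor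
    · rintro ⟨w', rfl⟩
      exact w'.2
    · intro h
      exact ⟨⟨w, h⟩, rfl⟩)] at h3
  show ord v (Additive.ofMul (Units.map (Algebra.norm k : L →* k) u)) = _
  rw [h2, h3, Nat.cast_sum]
  refine Finset.sum_congr rfl fun w _ => ?_
  rw [ord_int w.1 z u hu, Nat.cast_mul]

theorem ord_nmA (v : HeightOneSpectrum (𝓞 k)) (y : Additive Lˣ) :
    ord v (nmA k L y) =
      ∑ w : Over L v, (w.1.asIdeal.inertiaDeg (𝓞 k) : ℤ) * ord w.1 y := by
  classical
  obtain ⟨u, hyu⟩ : ∃ u : Lˣ, y = Additive.ofMul u := ⟨Additive.toMul y, rfl⟩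
  obtain ⟨a, b, hb, hab⟩ := IsFractionRing.div_surjective (A := 𝓞 L) (u : L)
  have hb0 : (b : L) ≠ 0 := by
    intro h0
    exact nonZeroDivisors.ne_zero hb (RingOfIntegers.ext h0)
  have ha0 : (a : L) ≠ 0 := by
    intro h0
    apply u.ne_zero
    rw [← hab]
    show (a : L) / (b : L) = 0
    rw [h0, zero_div]
  have hu : Additive.ofMul u = Additive.ofMul (Units.mk0 (a : L) ha0) -
      Additive.ofMul (Units.mk0 (b : L) hb0) := by
    rw [← ofMul_div]
    congr 1
    ext
    rw [Units.val_div_eq_div_val, Units.val_mk0, Units.val_mk0]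
    exact hab.symm
  rw [hyu, hu, map_sub, map_sub, OXA_int v a _ rfl, OXA_int v b _ rfl, ← Finset.sum_sub_distrib]
  refine Finset.sum_congr rfl fun w _ => ?_
  rw [map_sub, mul_sub]

variable [IsGalois k L]

end

section
variable (k L : Type u) [Field k] [NumberField k] [Field L] [NumberField L] [Algebra k L]
  [IsGalois k L] (ℓ : ℕ) [Fact ℓ.Prime]

end

end

open NumberField IsDedekindDomain UniqueFactorizationMonoid Pool.Agent.Lib.MP_1a91b9_nt S4

noncomputable section

section
variable (k L : Type u) [Field k] [NumberField k] [Field L] [NumberField L] [Algebra k L]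

variable {k L}

variable [IsGalois k L]

/-- the order of a nonzero integer in terms of powers of the prime -/
private theorem ordext_le_iff {F : Type u} [Field F] [NumberField F]
    (w : HeightOneSpectrum (𝓞 F)) (z : 𝓞 F) (y : Fˣ) (hy : (y : F) = (z : F)) (n : ℕ) :
    (n : ℤ) ≤ ord w (Additive.ofMul y) ↔ z ∈ w.asIdeal ^ n := by
  rw [← HeightOneSpectrum.intValuation_le_pow_iff_mem, ← HeightOneSpectrum.valuation_of_algebraMap
    (K := F)]
  have h1 : w.valuation F (algebraMap (𝓞 F) F z) = w.valuation F (y : F) := by rw [hy]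
  rw [h1, ← HeightOneSpectrum.valuationOfNeZero_eq]
  have h2 : ord w (Additive.ofMul y) = -(Multiplicative.toAdd (w.valuationOfNeZero y)) := rfl
  rw [h2]
  have h3 : ((w.valuationOfNeZero y : Multiplicative ℤ) : WithZero (Multiplicative ℤ)) =
      WithZero.exp (Multiplicative.toAdd (w.valuationOfNeZero y)) := rfl
  rw [h3, WithZero.exp_le_exp]
  omega

private theorem ordext_nonneg {F : Type u} [Field F] [NumberField F]
    (w : HeightOneSpectrum (𝓞 F)) (z : 𝓞 F) (y : Fˣ) (hy : (y : F) = (z : F)) :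
    0 ≤ ord w (Additive.ofMul y) := by
  have h := (ordext_le_iff w z y hy 0).2 (by rw [pow_zero, Ideal.one_eq_top]; exact trivial)
  exact_mod_cast h

private theorem ordext_eq_of_int {F : Type u} [Field F] [NumberField F]
    (w w' : HeightOneSpectrum (𝓞 F)) (z z' : 𝓞 F) (y y' : Fˣ) (hy : (y : F) = (z : F))
    (hy' : (y' : F) = (z' : F)) (h : ∀ n : ℕ, z ∈ w.asIdeal ^ n ↔ z' ∈ w'.asIdeal ^ n) :
    ord w (Additive.ofMul y) = ord w' (Additive.ofMul y') := by
  obtain ⟨a, ha⟩ := Int.eq_ofNat_of_zero_le (ordext_nonneg w z y hy)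
  obtain ⟨b, hb⟩ := Int.eq_ofNat_of_zero_le (ordext_nonneg w' z' y' hy')
  have h1 : ∀ n : ℕ, n ≤ a ↔ n ≤ b := by
    intro n
    have e1 := ordext_le_iff w z y hy n
    have e2 := ordext_le_iff w' z' y' hy' n
    rw [ha] at e1
    rw [hb] at e2
    constructor
    · intro hn
      have := e2.2 ((h n).1 (e1.1 (by exact_mod_cast hn)))
      exact_mod_cast this
    · intro hn
      have := e1.2 ((h n).2 (e2.1 (by exact_mod_cast hn)))
      exact_mod_cast this
  rw [ha, hb]
  have h2 := (h1 a).1 le_rfl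
  have h3 := (h1 b).2 le_rfl
  have : a = b := le_antisymm h2 h3
  rw [this]

open scoped Pointwise in
/-- transport of the order by an automorphism -/
private theorem ordext_smul (σ : Gal(L/k)) (w w' : HeightOneSpectrum (𝓞 L))
    (h : σ • w.asIdeal = w'.asIdeal) (y : Additive Lˣ) :
    ord w' (autA σ y) = ord w y := by
  have key : ∀ (z : 𝓞 L) (y : Lˣ), (y : L) = (z : L) →
      ord w' (autA σ (Additive.ofMul y)) = ord w (Additive.ofMul y) := by
    intro z y hy
    have h1 : (autA σ (Additive.ofMul y)) =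
      Additive.ofMul (Units.map ((σ : L →* L)) y) := rfl
    rw [h1]
    refine ordext_eq_of_int w' w (σ • z) z _ y ?_ hy ?_
    · rw [Units.coe_map]
      have h2 : ((σ • z : 𝓞 L) : L) = σ • (z : L) := rfl
      rw [h2, ← hy]
      rfl
    · intro n
      rw [← h, ← smul_pow' σ w.asIdeal n]
      exact Ideal.smul_mem_pointwise_smul_iff
  obtain ⟨a, b, hb, hab⟩ := IsFractionRing.div_surjective (A := 𝓞 L) ((Additive.toMul y : Lˣ) : L)
  have hb0 : (algebraMap (𝓞 L) L b) ≠ 0 := by
    have := nonZeroDivisors.ne_zero hb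
    simpa using this
  have ha0 : (algebraMap (𝓞 L) L a) ≠ 0 := by
    intro h0
    rw [h0, zero_div] at hab
    exact (Additive.toMul y).ne_zero hab.symm
  have hy : y = Additive.ofMul (Units.mk0 _ ha0) - Additive.ofMul (Units.mk0 _ hb0) := by
    apply Additive.toMul.injective
    apply Units.ext
    rw [toMul_sub, toMul_ofMul, toMul_ofMul, Units.val_div_eq_div_val, Units.val_mk0,
      Units.val_mk0, hab]
  rw [hy, map_sub, map_sub, map_sub, key a _ rfl, key b _ rfl]

open scoped Pointwise in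
/-- conjugate places -/
theorem ord_transport (w w' : HeightOneSpectrum (𝓞 L)) (h : w.under (𝓞 k) = w'.under (𝓞 k)) :
    ∃ σ : Gal(L/k), ∀ y : Additive Lˣ, ord w' (autA σ y) = ord w y := by
  have h1 : w.asIdeal.under (𝓞 k) = w'.asIdeal.under (𝓞 k) :=
    congrArg HeightOneSpectrum.asIdeal h
  have i1 : w.asIdeal.IsPrime := w.isPrime
  have i2 : w'.asIdeal.IsPrime := w'.isPrime
  have i3 : w.asIdeal.LiesOver (w.asIdeal.under (𝓞 k)) := ⟨rfl⟩
  have i4 : w'.asIdeal.LiesOver (w.asIdeal.under (𝓞 k)) := ⟨h1⟩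
  obtain ⟨σ, hσ⟩ := Ideal.exists_smul_eq_of_isGaloisGroup (w.asIdeal.under (𝓞 k)) w.asIdeal
    w'.asIdeal Gal(L/k)
  exact ⟨σ, fun y => ordext_smul σ w w' hσ y⟩

open scoped Pointwise in
/-- an automorphism permutes the places above `v` -/
theorem ord_autA (σ : Gal(L/k)) (w : HeightOneSpectrum (𝓞 L)) :
    ∃ w' : HeightOneSpectrum (𝓞 L), w'.under (𝓞 k) = w.under (𝓞 k) ∧
      ∀ y : Additive Lˣ, ord w (autA σ y) = ord w' y := by
  have i1 : w.asIdeal.IsPrime := w.isPrime
  have hp : (σ⁻¹ • w.asIdeal).IsPrime := inferInstance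
  have hne : σ⁻¹ • w.asIdeal ≠ ⊥ := by
    intro h0
    apply w.ne_bot
    have h1 : σ • (σ⁻¹ • w.asIdeal) = w.asIdeal := smul_inv_smul σ w.asIdeal
    rw [← h1, h0]
    exact Ideal.map_bot
  have hu : (σ⁻¹ • w.asIdeal).under (𝓞 k) = w.asIdeal.under (𝓞 k) := Ideal.under_smul _ _ _
  refine ⟨⟨σ⁻¹ • w.asIdeal, hp, hne⟩, HeightOneSpectrum.ext hu, fun y => ?_⟩
  exact ordext_smul σ ⟨σ⁻¹ • w.asIdeal, hp, hne⟩ w (smul_inv_smul σ w.asIdeal) y

/-- the norm as a sum of conjugates -/
theorem inc_nmA (y : Additive Lˣ) : incA k L (nmA k L y) = ∑ σ : Gal(L/k), autA σ y := by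
  apply Additive.toMul.injective
  rw [toMul_sum]
  apply Units.ext
  rw [Units.coe_prod]
  exact Algebra.norm_eq_prod_automorphisms k ((Additive.toMul y : Lˣ) : L)

/-- elements fixed by the Galois group -/
theorem mem_range_incA (y : Additive Lˣ) (h : ∀ σ : Gal(L/k), autA σ y = y) :
    ∃ x : Additive kˣ, incA k L x = y := by
  have h1 : ((Additive.toMul y : Lˣ) : L) ∈ Set.range (algebraMap k L) := by
    rw [IsGalois.mem_range_algebraMap_iff_fixed]
    intro σ
    have h2 := congrArg (fun t : Additive Lˣ => ((Additive.toMul t : Lˣ) : L)) (h σ)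
    exact h2
  obtain ⟨x, hx⟩ := h1
  have hx0 : x ≠ 0 := by
    rintro rfl
    rw [map_zero] at hx
    exact (Additive.toMul y).ne_zero hx.symm
  refine ⟨Additive.ofMul (Units.mk0 x hx0), ?_⟩
  apply Additive.toMul.injective
  apply Units.ext
  exact hx

end

section
variable (k L : Type u) [Field k] [NumberField k] [Field L] [NumberField L] [Algebra k L]
  [IsGalois k L] (ℓ : ℕ) [Fact ℓ.Prime]

/-- the three kinds of places in a cyclic extension of prime degree -/
theorem trichotomy (hdeg : Module.finrank k L = ℓ) (v : HeightOneSpectrum (𝓞 k)) :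
    (Ram L v ∧ ¬ Spl L v ∧ Fintype.card (Over L v) = 1 ∧ ∀ w : Over L v,
      w.1.asIdeal.ramificationIdx (𝓞 k) = ℓ ∧ w.1.asIdeal.inertiaDeg (𝓞 k) = 1) ∨
    (¬ Ram L v ∧ ¬ Spl L v ∧ Fintype.card (Over L v) = 1 ∧ ∀ w : Over L v,
      w.1.asIdeal.ramificationIdx (𝓞 k) = 1 ∧ w.1.asIdeal.inertiaDeg (𝓞 k) = ℓ) ∨
    (¬ Ram L v ∧ Spl L v ∧ Fintype.card (Over L v) = ℓ ∧ ∀ w : Over L v,
      w.1.asIdeal.ramificationIdx (𝓞 k) = 1 ∧ w.1.asIdeal.inertiaDeg (𝓞 k) = 1) := by
  have hvp : v.asIdeal.IsPrime := v.isPrime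
  have hvm : v.asIdeal.IsMaximal := v.isMaximal
  have hℓ : ℓ.Prime := Fact.out
  have hfund := Ideal.ncard_primesOver_mul_ramificationIdxIn_mul_inertiaDegIn v.asIdeal (𝓞 L)
    Gal(L/k)
  have hcard : Nat.card Gal(L/k) = ℓ := by
    rw [IsGalois.card_aut_eq_finrank, hdeg]
  rw [hcard] at hfund
  have hdegw : ∀ w : Over L v,
      w.1.asIdeal.inertiaDeg (𝓞 k) = Ideal.inertiaDegIn v.asIdeal (𝓞 L) := by
    intro w
    have i1 : w.1.asIdeal.IsPrime := w.1.isPrime
    have i2 : w.1.asIdeal.LiesOver v.asIdeal := ⟨w.2.symm⟩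
    exact (Ideal.inertiaDegIn_eq_inertiaDeg v.asIdeal w.1.asIdeal Gal(L/k)).symm
  have hramw : ∀ w : Over L v,
      w.1.asIdeal.ramificationIdx (𝓞 k) = Ideal.ramificationIdxIn v.asIdeal (𝓞 L) := by
    intro w
    have i1 : w.1.asIdeal.IsPrime := w.1.isPrime
    have i2 : w.1.asIdeal.LiesOver v.asIdeal := ⟨w.2.symm⟩
    exact (Ideal.ramificationIdxIn_eq_ramificationIdx v.asIdeal w.1.asIdeal Gal(L/k)).symm
  have hc : Fintype.card (Over L v) = (v.asIdeal.primesOver (𝓞 L)).ncard := by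
    rw [← card_over_eq, Nat.card_eq_fintype_card]
  rw [hc]
  unfold Ram Spl
  set g := (v.asIdeal.primesOver (𝓞 L)).ncard with hg
  set e := Ideal.ramificationIdxIn v.asIdeal (𝓞 L) with he
  set f := Ideal.inertiaDegIn v.asIdeal (𝓞 L) with hf
  have hdvdg : g ∣ ℓ := ⟨_, hfund.symm⟩
  have hdvde : e ∣ ℓ := ⟨g * f, by rw [← hfund]; ring⟩
  have h1ℓ : ℓ ≠ 1 := hℓ.one_lt.ne'
  have hpos : 0 < ℓ := hℓ.pos
  rcases (Nat.dvd_prime hℓ).mp hdvde with he1 | he1
  · rcases (Nat.dvd_prime hℓ).mp hdvdg with hg1 | hg1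
    · -- inert
      have hf1 : f = ℓ := by rw [← hfund, hg1, he1]; ring
      refine Or.inr (Or.inl ⟨by simp [he1], ?_, hg1, fun w => ⟨?_, ?_⟩⟩)
      · rintro ⟨_, h2⟩
        exact h1ℓ (by rw [← hf1, h2])
      · rw [hramw w, he1]
      · rw [hdegw w, hf1]
    · -- split
      have hf1 : f = 1 := by
        have h3 : ℓ * f = ℓ * 1 := by
          rw [mul_one]
          conv_rhs => rw [← hfund]
          rw [hg1, he1, one_mul]
        exact Nat.eq_of_mul_eq_mul_left hpos h3
      refine Or.inr (Or.inr ⟨by simp [he1], ⟨he1, hf1⟩, hg1, fun w => ⟨?_, ?_⟩⟩)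
      · rw [hramw w, he1]
      · rw [hdegw w, hf1]
  · -- ramified
    have hgf : g * f = 1 := by
      have h3 : ℓ * (g * f) = ℓ * 1 := by
        rw [mul_one]
        conv_rhs => rw [← hfund]
        rw [he1]
        ring
      exact Nat.eq_of_mul_eq_mul_left hpos h3
    have hg1 : g = 1 := Nat.eq_one_of_mul_eq_one_right hgf
    have hf1 : f = 1 := Nat.eq_one_of_mul_eq_one_left hgf
    refine Or.inl ⟨by rw [he1]; exact h1ℓ, ?_, hg1, fun w => ⟨?_, ?_⟩⟩
    · rintro ⟨h2, _⟩
      exact h1ℓ (by rw [← he1, h2])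
    · rw [hramw w, he1]
    · rw [hdegw w, hf1]

end

end

end Pool.Agent.Lib.MP_1a91b9_nuT.CF
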