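import Pool.Agent.Lib.MP_1a91b9_nuT.CF.Defs

/-! # CF: an auxiliary prime

PROOF (complete; job of helper29, see team-store bsd_D_doc_CF.md):
For r >= 1 let b_r = a^(ell^(r-1)), P_r = 1 + b_r + ... + b_r^(ell - 1) = (a^(ell^r) - 1)/(a^(ell^(r-1))
- 1). A prime q dividing P_r with q <> ell: b_r <> 1 mod q (else P_r = ell mod q) and b_r^ell = 1 mod q,
so a has order exactly ell^r modulo q (order divides ell^r and not ell^(r-1)). P_r has a prime factor
q <> ell for r >= 2: if P_r is a power of ell: ell odd: b_r = 1 mod ell (as b_r^ell = 1 mod ell) and then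
P_r = ell mod ell^2, P_r > ell, contradiction; ell = 2: P_r = 1 + b_r with b_r = a^(2^(r-1)) a square,
so 1 + b_r is not 0 mod 4, and > 2. The order ell^r divides q - 1 so q > ell^r; choose r with
ell^r > B.
-/

set_option autoImplicit false

namespace Pool.Agent.Lib.MP_1a91b9_nuT.CF

variable [CD]

open NumberField IsDedekindDomain UniqueFactorizationMonoid Pool.Agent.Lib.MP_1a91b9_nt S4

universe u

/-- the exponent of `ℓ` in `1 + b + ... + b ^ (ℓ - 1)` is at most one -/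
private theorem qprime_not_sq_dvd (ℓ : ℕ) (hℓ : ℓ.Prime) (b : ℕ) (hb : ℓ = 2 → ∃ s, b = s ^ 2) :
    ¬ ℓ ^ 2 ∣ ∑ i ∈ Finset.range ℓ, b ^ i := by
  intro h
  rcases hℓ.eq_two_or_odd' with h2 | hodd
  · obtain ⟨s, rfl⟩ := hb h2
    subst h2
    rw [Finset.sum_range_succ, Finset.sum_range_one, pow_zero, pow_one] at h
    obtain ⟨c, hc⟩ := h
    rcases Nat.even_or_odd' s with ⟨t, rfl | rfl⟩
    · ring_nf at hc
      omega
    · ring_nf at hc
      omega
  · have h1 : ((ℓ : ℤ)) ^ 2 ∣ ∑ i ∈ Finset.range ℓ, (b : ℤ) ^ i := by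
      have := (Int.natCast_dvd_natCast (m := ℓ ^ 2) (n := ∑ i ∈ Finset.range ℓ, b ^ i)).2 h
      push_cast at this
      exact this
    -- `b = 1` modulo `ℓ`
    have h2 : (ℓ : ℤ) ∣ (b : ℤ) - 1 := by
      have : Fact ℓ.Prime := ⟨hℓ⟩
      rw [← ZMod.intCast_zmod_eq_zero_iff_dvd]
      have h3 : (∑ i ∈ Finset.range ℓ, (b : ZMod ℓ) ^ i) = 0 := by
        have h4 : (ℓ : ℤ) ∣ ∑ i ∈ Finset.range ℓ, (b : ℤ) ^ i :=
          (dvd_pow_self _ two_ne_zero).trans h1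
        rw [← ZMod.intCast_zmod_eq_zero_iff_dvd] at h4
        push_cast at h4
        exact h4
      have h5 := geom_sum_mul (b : ZMod ℓ) ℓ
      rw [h3, zero_mul, ZMod.pow_card] at h5
      push_cast
      exact h5.symm
    obtain ⟨c, hc⟩ := h2
    have h6 := odd_sq_dvd_geom_sum₂_sub (R := ℤ) (a := 1) (b := c) hodd
    have h7 : (∑ i ∈ Finset.range ℓ, (1 + (ℓ : ℤ) * c) ^ i * 1 ^ (ℓ - 1 - i)) =
        ∑ i ∈ Finset.range ℓ, (b : ℤ) ^ i := by
      refine Finset.sum_congr rfl fun i _ => ?_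
      rw [one_pow, mul_one, ← hc]
      congr 1
      ring
    rw [h7, one_pow, mul_one] at h6
    have h8 : (ℓ : ℤ) ^ 2 ∣ ℓ := by
      have := dvd_sub h1 h6
      rwa [sub_sub_cancel] at this
    have h9 : ℓ ^ 2 ∣ ℓ := by
      rw [← Int.natCast_dvd_natCast]
      push_cast
      exact h8
    have h10 := Nat.le_of_dvd hℓ.pos h9
    have h11 := hℓ.one_lt
    nlinarith

/-- there are infinitely many primes `q` modulo which the order of `a` is divisible by `ℓ` -/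
theorem exists_q (ℓ : ℕ) (hℓ : ℓ.Prime) (a B : ℕ) (ha : 2 ≤ a) :
    ∃ q : ℕ, q.Prime ∧ B < q ∧ ∃ u : (ZMod q)ˣ, (u : ZMod q) = (a : ZMod q) ∧ ℓ ∣ orderOf u := by
  obtain ⟨b, hb⟩ : ∃ b : ℕ, b = a ^ ℓ ^ (B + 1) := ⟨_, rfl⟩
  have hb2 : 2 ≤ b := by
    rw [hb]
    exact ha.trans (Nat.le_self_pow (pow_ne_zero _ hℓ.ne_zero) a)
  obtain ⟨P, hP⟩ : ∃ P : ℕ, P = ∑ i ∈ Finset.range ℓ, b ^ i := ⟨_, rfl⟩
  have hPl : ℓ < P := by
    rw [hP]
    calc ℓ = ∑ i ∈ Finset.range ℓ, 1 := by simp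
      _ < ∑ i ∈ Finset.range ℓ, b ^ i := by
        refine Finset.sum_lt_sum (fun i _ => Nat.one_le_pow _ _ (by omega)) ⟨1, ?_, ?_⟩
        · exact Finset.mem_range.2 hℓ.one_lt
        · rw [pow_one]
          omega
  have hsq : ¬ ℓ ^ 2 ∣ P := by
    rw [hP]
    refine qprime_not_sq_dvd ℓ hℓ b ?_
    rintro rfl
    exact ⟨a ^ 2 ^ B, by rw [hb, pow_succ, pow_mul]⟩
  obtain ⟨q, hq, hqP, hql⟩ : ∃ q : ℕ, q.Prime ∧ q ∣ P ∧ q ≠ ℓ := by
    by_contra hcon
    push Not at hcon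
    have h1 := Nat.eq_prime_pow_of_unique_prime_dvd (p := ℓ) (by omega : P ≠ 0)
      (fun {d} hd hdP => hcon d hd hdP)
    rcases Nat.lt_or_ge P.primeFactorsList.length 2 with h2 | h2
    · have h3 : P ≤ ℓ ^ 1 := by
        rw [h1]
        exact Nat.pow_le_pow_right hℓ.pos (by omega)
      rw [pow_one] at h3
      omega
    · exact hsq (by rw [h1]; exact pow_dvd_pow _ h2)
  have : Fact q.Prime := ⟨hq⟩
  have hsum : (∑ i ∈ Finset.range ℓ, (b : ZMod q) ^ i) = 0 := by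
    have h1 := (ZMod.natCast_eq_zero_iff P q).2 hqP
    rw [hP] at h1
    push_cast at h1
    exact h1
  have hbl : (b : ZMod q) ^ ℓ = 1 := by
    have h1 := geom_sum_mul (b : ZMod q) ℓ
    rw [hsum, zero_mul] at h1
    exact (sub_eq_zero.1 h1.symm)
  have hb1 : (b : ZMod q) ≠ 1 := by
    intro h1
    rw [h1] at hsum
    simp only [one_pow, Finset.sum_const, Finset.card_range, nsmul_eq_mul, mul_one] at hsum
    rw [ZMod.natCast_eq_zero_iff] at hsum
    exact hql ((Nat.prime_dvd_prime_iff_eq hq hℓ).1 hsum)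
  have hal : (a : ZMod q) ^ ℓ ^ (B + 1 + 1) = 1 := by
    rw [pow_succ, pow_mul]
    rw [hb] at hbl
    push_cast at hbl
    exact hbl
  have hal1 : (a : ZMod q) ^ ℓ ^ (B + 1) ≠ 1 := by
    rw [hb] at hb1
    push_cast at hb1
    exact hb1
  have ha0 : IsUnit (a : ZMod q) :=
    IsUnit.of_pow_eq_one hal (pow_ne_zero _ hℓ.ne_zero)
  obtain ⟨u, hu⟩ := ha0
  have : Fact ℓ.Prime := ⟨hℓ⟩
  have hord : orderOf u = ℓ ^ (B + 1 + 1) := by
    refine orderOf_eq_prime_pow ?_ ?_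
    · intro h1
      apply hal1
      rw [← hu, ← Units.val_pow_eq_pow_val, h1, Units.val_one]
    · apply Units.ext
      rw [Units.val_pow_eq_pow_val, hu, hal, Units.val_one]
  refine ⟨q, hq, ?_, u, hu, ?_⟩
  · have h1 : orderOf u ∣ q - 1 := by
      have h2 := orderOf_dvd_card (x := u)
      rwa [ZMod.card_units] at h2
    have h3 := Nat.le_of_dvd (by have := hq.two_le; omega) h1
    rw [hord] at h3
    have h4 : B + 1 + 1 < ℓ ^ (B + 1 + 1) := Nat.lt_pow_self hℓ.one_lt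
    omega
  · rw [hord]
    exact dvd_pow_self _ (Nat.succ_ne_zero _)

end Pool.Agent.Lib.MP_1a91b9_nuT.CF
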