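import Pool.Agent.Lib.MP_1a91b9_nuT.CF.Frob
import Pool.Agent.Lib.MP_1a91b9_nuT.CF.QPrime
import Pool.Agent.Lib.MP_1a91b9_nuT.CF.CycExt
import Pool.Agent.Lib.MP_1a91b9_nuT.CF.FixedF
import Pool.Agent.Lib.MP_1a91b9_nuT.CF.OrdExt

/-! # CF: the auxiliary extension of an inert place

PROOF (complete; job of helper29, see team-store bsd_D_doc_CF.md):
spl_up: if w is not completely split in E1/E then by trichotomy (OrdExt.trichotomy; Galois of prime
degree) there is exactly one place w' of E1 above w, so tau w' = w'. The restriction tau_L of tau to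
L (Galois over k; tau fixes k) is nontrivial and fixes V = w' under O_L. But v = w.under splits
completely in L: Gal(L/k) of order ell acts transitively on the ell places above v, so a nontrivial
element fixes none (simply transitive). Contradiction.
exists_aux: q from exists_q ell (nrm v0) (nrm v0): q > nrm v0 so q not in v0. N, zeta from exists_cyc.
W0 above v0, phi = Frobenius at W0 over k (exists_fr). phi is not trivial on L: else fr_fix with
n = nrm v0, f = 1 gives inertia degree 1 at V0, contradiction with trichotomy (v0 is neither Ram nor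
Spl). a = the unit of norm nrm v0 modulo q; phi zeta = zeta^(nrm v0) (IsFr.zeta). E, E1 from
exists_fixed. Order of a divisible by ell from exists_q. w0 = W0.under (O E): for x in O_E: phi x = x,
so x - x^(nrm v0) in w0: residue field of w0 has at most nrm v0 elements, inertia degree 1.
For w in E, q not in w: W above w in N, tau in Gal(N/E) Frobenius at W over w (N/E Galois), tau =
phi^i; tau zeta = zeta^(nrm w) and phi^i zeta = zeta^((nrm v0)^i), so nrm w = a^i mod q (zeta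
primitive of order q). If ell | i then phi^i fixes L, and fr_fix (n = nrm w = nrm v^f, f = inertia
degree of w over k) gives inertiaDeg V | f; if v is neither Ram nor Spl this degree is ell.
For w in E1 with inertia degree 1 over k, v = w.under not Ram: w_E = w.under (O E) also has degree 1
over k (and w over w_E). W above w in N, tau = phi^i in Gal(N/E) a Frobenius at W over w_E: for x in
O_L (contained in O_E1): tau x - x^(nrm w_E) in W and x^(nrm w_E) - x in w because the residue field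
of w has nrm w = nrm w_E elements; so tau x - x in W for all x in O_L, fix_of_triv: tau fixes L, so
ell | i (phi restricted to L has order ell) and nrm w_E = a^i mod q as before.
-/

set_option autoImplicit false

namespace Pool.Agent.Lib.MP_1a91b9_nuT.CF

variable [CD]

open NumberField IsDedekindDomain UniqueFactorizationMonoid Pool.Agent.Lib.MP_1a91b9_nt S4

universe u

/-- restriction of `τ` to `L` -/
private theorem auxF_restrict (k L E E1 : Type u) [Field k] [Field L] [Field E] [Field E1]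
    [Algebra k L] [Algebra k E] [Algebra k E1] [Algebra E E1] [Algebra L E1]
    [IsScalarTower k E E1] [IsScalarTower k L E1] [IsGalois k L] (τ : Gal(E1/E)) :
    ∃ σ : Gal(L/k), ∀ x : L, algebraMap L E1 (σ x) = τ (algebraMap L E1 x) :=
  ⟨AlgEquiv.restrictNormal (τ.restrictScalars k) L, fun x => by
    rw [AlgEquiv.restrictNormal_commutes]
    rfl⟩

open scoped Pointwise in
private theorem auxF_contra (k L E E1 : Type u) [Field k] [NumberField k] [Field L] [NumberField L]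
    [Field E] [NumberField E] [Field E1] [NumberField E1] [Algebra k L] [Algebra k E]
    [Algebra k E1] [Algebra E E1] [Algebra L E1] [IsScalarTower k E E1] [IsScalarTower k L E1]
    [IsGalois k L] [IsGalois E E1] (τ : Gal(E1/E))
    (hτ : ∃ x : L, τ (algebraMap L E1 x) ≠ algebraMap L E1 x)
    (w : HeightOneSpectrum (𝓞 E)) (w' : HeightOneSpectrum (𝓞 E1))
    (hw' : w'.asIdeal.under (𝓞 E) = w.asIdeal)
    (hu : ∀ w'' : HeightOneSpectrum (𝓞 E1), w''.asIdeal.under (𝓞 E) = w.asIdeal → w'' = w')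
    (h : Spl L (w.under (𝓞 k))) : False := by
  obtain ⟨σ, hσ⟩ := auxF_restrict k L E E1 τ
  -- `τ` fixes `w'`
  have hfix : ∀ ρ : Gal(E1/E), ρ • w'.asIdeal = w'.asIdeal := by
    intro ρ
    have hne : ρ • w'.asIdeal ≠ ⊥ := by
      intro h0
      apply w'.ne_bot
      have : ρ⁻¹ • (ρ • w'.asIdeal) = ρ⁻¹ • (⊥ : Ideal (𝓞 E1)) := by rw [h0]
      rw [inv_smul_smul] at this
      rw [this, Ideal.smul_bot]
    have hpr : (ρ • w'.asIdeal).IsPrime := inferInstance
    have h1 := hu ⟨ρ • w'.asIdeal, hpr, hne⟩ (by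
      change (ρ • w'.asIdeal).under (𝓞 E) = w.asIdeal
      rw [← hw']
      exact Ideal.under_smul ..)
    exact congrArg HeightOneSpectrum.asIdeal h1
  set V := w'.under (𝓞 L) with hV
  have hVk : V.asIdeal.under (𝓞 k) = (w.under (𝓞 k)).asIdeal := by
    change (w'.asIdeal.under (𝓞 L)).under (𝓞 k) = w.asIdeal.under (𝓞 k)
    rw [← hw']
    rw [Ideal.under_under, Ideal.under_under]
  have hmem : ∀ x : 𝓞 L, x ∈ V.asIdeal ↔ algebraMap (𝓞 L) (𝓞 E1) x ∈ w'.asIdeal := fun x => Iff.rfl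
  have hcomm : ∀ x : 𝓞 L, algebraMap (𝓞 L) (𝓞 E1) (σ • x) = τ • algebraMap (𝓞 L) (𝓞 E1) x := by
    intro x
    apply RingOfIntegers.ext
    exact hσ x
  have hstab : σ ∈ MulAction.stabilizer Gal(L/k) V.asIdeal := by
    rw [MulAction.mem_stabilizer_iff]
    ext x
    rw [Ideal.mem_pointwise_smul_iff_inv_smul_mem, hmem, hmem]
    have h1 : algebraMap (𝓞 L) (𝓞 E1) (σ⁻¹ • x) = τ⁻¹ • algebraMap (𝓞 L) (𝓞 E1) x := by
      have h2 := hcomm (σ⁻¹ • x)
      rw [smul_inv_smul] at h2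
      rw [h2, inv_smul_smul]
    rw [h1, ← Ideal.mem_pointwise_smul_iff_inv_smul_mem, hfix τ]
  have : V.asIdeal.LiesOver (w.under (𝓞 k)).asIdeal := ⟨hVk.symm⟩
  have hc := Ideal.card_stabilizer_eq (G := Gal(L/k)) (w.under (𝓞 k)).asIdeal V.asIdeal
  rw [h.1, h.2, one_mul] at hc
  have h1 : σ = 1 := by
    have := (Nat.card_eq_one_iff_unique.1 hc).1
    have h2 := this.elim ⟨σ, hstab⟩ 1
    exact congrArg Subtype.val h2
  obtain ⟨x, hx⟩ := hτ
  apply hx
  rw [← hσ x, h1]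
  rfl

/-- completely split places of `k` in `L` give completely split places of `E` in `E1 = L E` -/
theorem spl_up (k L E E1 : Type u) [Field k] [NumberField k] [Field L] [NumberField L]
    [Field E] [NumberField E] [Field E1] [NumberField E1] [Algebra k L] [Algebra k E]
    [Algebra k E1] [Algebra E E1] [Algebra L E1] [IsScalarTower k E E1] [IsScalarTower k L E1]
    [IsGalois k L] [IsGalois E E1] (ℓ : ℕ) [Fact ℓ.Prime] (hdeg : Module.finrank k L = ℓ)
    (hdeg1 : Module.finrank E E1 = ℓ) (τ : Gal(E1/E))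
    (hτ : ∃ x : L, τ (algebraMap L E1 x) ≠ algebraMap L E1 x)
    (w : HeightOneSpectrum (𝓞 E)) (h : Spl L (w.under (𝓞 k))) : Spl E1 w := by
  by_contra hns
  have hcard : Fintype.card (Over E1 w) = 1 := by
    rcases trichotomy E E1 ℓ hdeg1 w with ⟨-, -, h1, -⟩ | ⟨-, -, h1, -⟩ | ⟨-, h1, -⟩
    · exact h1
    · exact h1
    · exact absurd h1 hns
  obtain ⟨⟨w', hw'⟩, hu⟩ := Fintype.card_eq_one_iff.1 hcard
  exact auxF_contra k L E E1 τ hτ w w' hw' (fun w'' hw'' => by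
    have := hu ⟨w'', hw''⟩
    exact congrArg Subtype.val this) h

open NumberField IsDedekindDomain UniqueFactorizationMonoid Pool.Agent.Lib.MP_1a91b9_nt S4

section auxf
variable {k N : Type u} [Field k] [NumberField k] [Field N] [NumberField N] [Algebra k N]

private theorem auxf_nrm_pow (W : HeightOneSpectrum (𝓞 N)) (v : HeightOneSpectrum (𝓞 k))
    (h : W.under (𝓞 k) = v) : nrm W = nrm v ^ W.asIdeal.inertiaDeg (𝓞 k) := by
  have i1 : W.asIdeal.IsPrime := W.isPrime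
  have i2 : W.asIdeal.LiesOver v.asIdeal := ⟨by rw [← h]; rfl⟩
  rw [nrm_eq, nrm_eq, Ideal.absNorm_pow_inertiaDeg v.asIdeal W.asIdeal]

private theorem auxf_deg_pos (W : HeightOneSpectrum (𝓞 N)) : 0 < W.asIdeal.inertiaDeg (𝓞 k) := by
  have i1 : W.asIdeal.IsPrime := W.isPrime
  exact Ideal.inertiaDeg_pos _ _

private theorem auxf_two_le (v : HeightOneSpectrum (𝓞 k)) : 2 ≤ nrm v := by
  rw [nrm_eq]
  have h0 : Ideal.absNorm v.asIdeal ≠ 0 := by
    rw [Ne, Ideal.absNorm_eq_zero_iff]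
    exact v.ne_bot
  have h1 : Ideal.absNorm v.asIdeal ≠ 1 := by
    rw [Ne, Ideal.absNorm_eq_one_iff]
    exact v.isPrime.ne_top
  omega

private theorem auxf_pow_sub (v : HeightOneSpectrum (𝓞 k)) (x : 𝓞 k) :
    x ^ nrm v - x ∈ v.asIdeal := by
  classical
  have hmax : v.asIdeal.IsMaximal := v.isMaximal
  let _ : Field (𝓞 k ⧸ v.asIdeal) := Ideal.Quotient.field _
  have hfin : Finite (𝓞 k ⧸ v.asIdeal) := v.asIdeal.finiteQuotientOfFreeOfNeBot v.ne_bot
  have := Fintype.ofFinite (𝓞 k ⧸ v.asIdeal)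
  have hcard : Fintype.card (𝓞 k ⧸ v.asIdeal) = nrm v := by
    rw [nrm_eq, Ideal.absNorm_apply, Submodule.cardQuot_apply, Nat.card_eq_fintype_card]
  rw [← Ideal.Quotient.eq_zero_iff_mem, map_sub, map_pow, ← hcard, FiniteField.pow_card, sub_self]

private theorem auxf_not_mem (v : HeightOneSpectrum (𝓞 k)) (q : ℕ) (hq : q.Prime)
    (h : nrm v < q) : (q : 𝓞 k) ∉ v.asIdeal := by
  intro hm
  have h1 : ((nrm v : ℕ) : 𝓞 k) ∈ v.asIdeal := by
    rw [nrm_eq]
    exact Ideal.absNorm_mem _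
  have h2 := auxf_two_le v
  have hc : Nat.Coprime (nrm v) q :=
    (Nat.coprime_of_lt_prime (by omega) h hq).symm
  have hc' : IsCoprime ((nrm v : ℕ) : ℤ) (q : ℤ) := Nat.isCoprime_iff_coprime.mpr hc
  obtain ⟨a, b, hab⟩ := hc'
  apply v.isPrime.ne_top
  rw [Ideal.eq_top_iff_one]
  have e : (1 : 𝓞 k) = (a : 𝓞 k) * ((nrm v : ℕ) : 𝓞 k) + (b : 𝓞 k) * (q : 𝓞 k) := by
    have := congrArg (Int.cast : ℤ → 𝓞 k) hab
    push_cast at this
    exact this.symm
  rw [e]
  exact Ideal.add_mem _ (Ideal.mul_mem_left _ _ h1) (Ideal.mul_mem_left _ _ hm)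

private theorem auxf_under_nat (W : HeightOneSpectrum (𝓞 N)) (q : ℕ) :
    (q : 𝓞 k) ∈ (W.under (𝓞 k)).asIdeal ↔ (q : 𝓞 N) ∈ W.asIdeal := by
  change algebraMap (𝓞 k) (𝓞 N) (q : 𝓞 k) ∈ W.asIdeal ↔ _
  rw [map_natCast]

end auxf

section auxf2
variable {k E N : Type u} [Field k] [NumberField k] [Field E] [NumberField E] [Field N]
  [NumberField N] [Algebra k E] [Algebra k N] [Algebra E N] [IsScalarTower k E N]

private theorem auxf_under_under (W : HeightOneSpectrum (𝓞 N)) :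
    (W.under (𝓞 E)).under (𝓞 k) = W.under (𝓞 k) := by
  apply HeightOneSpectrum.ext
  change (W.asIdeal.under (𝓞 E)).under (𝓞 k) = W.asIdeal.under (𝓞 k)
  rw [Ideal.under_under]

/-- powers of the Frobenius and roots of unity -/
private theorem auxf_norm_eq (q : ℕ) (hq : q.Prime) (ζ : N) (hζ : IsPrimitiveRoot ζ q) (φ : Gal(N/k))
    (n m i : ℕ) (h1 : φ ζ = ζ ^ n) (h2 : (φ ^ i) ζ = ζ ^ m) :
    ((m : ℕ) : ZMod q) = ((n : ℕ) : ZMod q) ^ i := by
  have h3 : ∀ j : ℕ, (φ ^ j) ζ = ζ ^ (n ^ j) := by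
    intro j
    induction j with
    | zero => simp
    | succ j ih =>
      rw [pow_succ', AlgEquiv.mul_apply, ih, map_pow, h1, ← pow_mul, pow_succ']
  have h4 : ζ ^ m = ζ ^ (n ^ i) := by rw [← h2, h3]
  have hz : ζ ≠ 0 := hζ.ne_zero hq.ne_zero
  have h5 : (IsPrimitiveRoot.isUnit hζ hq.ne_zero).unit ^ m =
      (IsPrimitiveRoot.isUnit hζ hq.ne_zero).unit ^ (n ^ i) := by
    apply Units.ext
    simpa using h4
  rw [pow_eq_pow_iff_modEq] at h5
  have h6 : orderOf (IsPrimitiveRoot.isUnit hζ hq.ne_zero).unit = q := by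
    rw [← orderOf_units, IsUnit.unit_spec]
    exact hζ.eq_orderOf.symm
  rw [h6] at h5
  have h7 := (ZMod.natCast_eq_natCast_iff _ _ _).mpr h5
  rw [h7]
  push_cast
  rfl

end auxf2

/-- the auxiliary fields of an inert place `v₀` -/
theorem exists_aux (k L : Type u) [Field k] [NumberField k] [Field L] [NumberField L] [Algebra k L]
    [IsGalois k L] (ℓ : ℕ) [Fact ℓ.Prime] (hdeg : Module.finrank k L = ℓ)
    (v₀ : HeightOneSpectrum (𝓞 k)) (hr : ¬ Ram L v₀) (hs : ¬ Spl L v₀) :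
    ∃ (q : ℕ) (a : (ZMod q)ˣ) (E E1 : Type u) (_ : Field E) (_ : NumberField E) (_ : Field E1)
      (_ : NumberField E1) (_ : Algebra k E) (_ : Algebra k E1) (_ : Algebra E E1)
      (_ : IsScalarTower k E E1), q.Prime ∧ ℓ ∣ orderOf a ∧ (q : 𝓞 k) ∉ v₀.asIdeal ∧
      (nrm v₀ : ZMod q) = a ∧ IsGalois E E1 ∧ Module.finrank E E1 = ℓ ∧
      (∃ w₀ : HeightOneSpectrum (𝓞 E), w₀.under (𝓞 k) = v₀ ∧ w₀.asIdeal.inertiaDeg (𝓞 k) = 1) ∧
      (∀ w : HeightOneSpectrum (𝓞 E), (q : 𝓞 E) ∉ w.asIdeal → ∃ i : ℕ,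
        (nrm w : ZMod q) = ((a ^ i : (ZMod q)ˣ) : ZMod q) ∧
        (ℓ ∣ i → ¬ Ram L (w.under (𝓞 k)) → ¬ Spl L (w.under (𝓞 k)) →
          ℓ ∣ w.asIdeal.inertiaDeg (𝓞 k))) ∧
      (∀ w : HeightOneSpectrum (𝓞 E1), (q : 𝓞 E1) ∉ w.asIdeal → ¬ Ram L (w.under (𝓞 k)) →
        w.asIdeal.inertiaDeg (𝓞 k) = 1 → ∃ i : ℕ, ℓ ∣ i ∧
        (nrm (w.under (𝓞 E)) : ZMod q) = ((a ^ i : (ZMod q)ˣ) : ZMod q)) ∧
      (∀ w : HeightOneSpectrum (𝓞 E), Spl L (w.under (𝓞 k)) → Spl E1 w) := by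
  classical
  have hℓ : ℓ.Prime := Fact.out
  obtain ⟨q, hq, hBq, a, ha, hord⟩ := exists_q ℓ hℓ (nrm v₀) (nrm v₀) (auxf_two_le v₀)
  obtain ⟨N, iN, nN, akN, aLN, tkLN, ζ, hgalN, hζ, hdet⟩ := exists_cyc k L q hq
  obtain ⟨W₀, hW₀⟩ := exists_over (N := N) v₀
  obtain ⟨φ, hφ⟩ := exists_fr (k := k) W₀
  rw [hW₀] at hφ
  have hqv : (q : 𝓞 k) ∉ v₀.asIdeal := auxf_not_mem v₀ q hq hBq
  have hqW₀ : (q : 𝓞 N) ∉ W₀.asIdeal := by
    rw [← auxf_under_nat (k := k), hW₀]
    exact hqv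
  -- the degree of a place of `L` above an inert place
  have hinert : ∀ V : HeightOneSpectrum (𝓞 L), ¬ Ram L (V.under (𝓞 k)) →
      ¬ Spl L (V.under (𝓞 k)) → V.asIdeal.inertiaDeg (𝓞 k) = ℓ := by
    intro V h1 h2
    rcases trichotomy k L ℓ hdeg (V.under (𝓞 k)) with h | h | h
    · exact absurd h.1 h1
    · exact (h.2.2.2 ⟨V, rfl⟩).2
    · exact absurd h.2.1 h2
  have hφL : ∃ x : L, φ (algebraMap L N x) ≠ algebraMap L N x := by
    by_contra hcon
    push Not at hcon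
    have h1 := fr_fix (L := L) W₀ φ (nrm v₀) 1 v₀ hW₀ (pow_one _).symm one_pos hφ hcon
    have h2 : (W₀.under (𝓞 L)).under (𝓞 k) = v₀ := by rw [auxf_under_under, hW₀]
    rw [hinert (W₀.under (𝓞 L)) (by rw [h2]; exact hr) (by rw [h2]; exact hs)] at h1
    exact hℓ.one_lt.ne' (Nat.dvd_one.mp h1)
  obtain ⟨E, E1, iE, nE, iE1, nE1, akE, akE1, aEE1, aEN, aE1N, aLE1, s1, s2, s3, s4, s5, s6,
    hgal1, hdeg1, hgalE, hE, hE1, hpow, τ, hτ⟩ := exists_fixed k L N ℓ hdeg φ hφL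
  -- the subgroup fixing `L`
  let H : Subgroup Gal(N/k) :=
    { carrier := {σ | ∀ x : L, σ (algebraMap L N x) = algebraMap L N x}
      mul_mem' := by
        intro σ σ' h h' x
        rw [AlgEquiv.mul_apply, h' x, h x]
      one_mem' := fun x => rfl
      inv_mem' := by
        intro σ h x
        have h1 : σ.symm (σ (algebraMap L N x)) = algebraMap L N x := σ.symm_apply_apply _
        rw [h x] at h1
        exact h1 }
  have hH : ∀ σ : Gal(N/k), σ ∈ H ↔ ∀ x : L, σ (algebraMap L N x) = algebraMap L N x :=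
    fun σ => Iff.rfl
  have hφℓ : φ ^ ℓ ∈ H := by
    rw [hH]
    intro x
    rw [← hE1]
    exact ⟨algebraMap L E1 x, (IsScalarTower.algebraMap_apply L E1 N x).symm⟩
  have hφn : φ ∉ H := by
    rw [hH]
    push Not
    exact hφL
  have hdvd : ∀ i : ℕ, φ ^ i ∈ H → ℓ ∣ i := by
    intro i hi
    by_contra hnd
    have hc : Nat.Coprime ℓ i := (Nat.Prime.coprime_iff_not_dvd hℓ).mpr hnd
    have hc' : IsCoprime (ℓ : ℤ) (i : ℤ) := Nat.isCoprime_iff_coprime.mpr hc
    obtain ⟨u, w, huw⟩ := hc'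
    apply hφn
    have e : φ = (φ ^ ℓ) ^ u * (φ ^ i) ^ w := by
      rw [← zpow_natCast φ ℓ, ← zpow_natCast φ i, ← zpow_mul, ← zpow_mul, ← zpow_add,
        mul_comm (ℓ : ℤ) u, mul_comm (i : ℤ) w, huw, zpow_one]
    rw [e]
    exact H.mul_mem (H.zpow_mem hφℓ u) (H.zpow_mem hi w)
  have hmemH : ∀ i : ℕ, ℓ ∣ i → φ ^ i ∈ H := by
    rintro i ⟨j, rfl⟩
    rw [pow_mul]
    exact H.pow_mem hφℓ j
  have hφζ : φ ζ = ζ ^ nrm v₀ := hφ.zeta hW₀ q hqW₀ ζ hζ.pow_eq_one
  -- Frobenius elements over `E`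
  have hfrob : ∀ W : HeightOneSpectrum (𝓞 N), (q : 𝓞 N) ∉ W.asIdeal → ∃ i : ℕ,
      (nrm (W.under (𝓞 E)) : ZMod q) = ((a ^ i : (ZMod q)ˣ) : ZMod q) ∧
      ∀ x : 𝓞 N, (φ ^ i) • x - x ^ nrm (W.under (𝓞 E)) ∈ W.asIdeal := by
    intro W hW
    obtain ⟨σ, hσ⟩ := exists_fr (k := E) W
    obtain ⟨i, hi⟩ := hpow σ
    refine ⟨i, ?_, ?_⟩
    · have h1 : σ ζ = ζ ^ nrm (W.under (𝓞 E)) := hσ.zeta rfl q hW ζ hζ.pow_eq_one
      rw [hi] at h1
      rw [auxf_norm_eq q hq ζ hζ φ (nrm v₀) _ i hφζ h1, Units.val_pow_eq_pow_val, ha]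
    · intro x
      have h1 := hσ x
      have h2 : σ • x = (φ ^ i) • x := by
        apply RingOfIntegers.ext
        exact hi x
      rw [h2] at h1
      exact h1
  have hgalE1 : IsGalois E1 N := IsGalois.tower_top_of_isGalois k E1 N
  refine ⟨q, a, E, E1, iE, nE, iE1, nE1, akE, akE1, aEE1, s1, hq, hord, hqv, ha.symm, hgal1,
    hdeg1, ⟨W₀.under (𝓞 E), ?_, ?_⟩, ?_, ?_, ?_⟩
  · rw [auxf_under_under, hW₀]
  · have h1 := fr_fix (L := E) W₀ φ (nrm v₀) 1 v₀ hW₀ (pow_one _).symm one_pos hφ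
      (fun x => (hE _).mp ⟨x, rfl⟩)
    exact Nat.dvd_one.mp h1
  · intro w hw
    obtain ⟨W, hWw⟩ := exists_over (N := N) w
    have hqW : (q : 𝓞 N) ∉ W.asIdeal := by
      rw [← auxf_under_nat (k := E), hWw]
      exact hw
    obtain ⟨i, hi1, hi2⟩ := hfrob W hqW
    rw [hWw] at hi1 hi2
    refine ⟨i, hi1, ?_⟩
    intro hdi hram hspl
    have hWk : W.under (𝓞 k) = w.under (𝓞 k) := by rw [← auxf_under_under (E := E), hWw]
    have h1 := fr_fix (L := L) W (φ ^ i) (nrm w) (w.asIdeal.inertiaDeg (𝓞 k)) (w.under (𝓞 k)) hWk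
      (auxf_nrm_pow w _ rfl) (auxf_deg_pos w) hi2 ((hH _).mp (hmemH i hdi))
    have h2 : (W.under (𝓞 L)).under (𝓞 k) = w.under (𝓞 k) := by rw [auxf_under_under, hWk]
    rw [hinert (W.under (𝓞 L)) (by rw [h2]; exact hram) (by rw [h2]; exact hspl)] at h1
    exact h1
  · intro w hw hram hdeg2
    obtain ⟨W, hWw⟩ := exists_over (N := N) w
    have hqW : (q : 𝓞 N) ∉ W.asIdeal := by
      rw [← auxf_under_nat (k := E1), hWw]
      exact hw
    obtain ⟨i, hi1, hi2⟩ := hfrob W hqW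
    have hWE : W.under (𝓞 E) = w.under (𝓞 E) := by rw [← auxf_under_under (E := E1), hWw]
    rw [hWE] at hi1 hi2
    have hWk : W.under (𝓞 k) = w.under (𝓞 k) := by rw [← auxf_under_under (E := E1), hWw]
    refine ⟨i, ?_, hi1⟩
    have hn1 : nrm w = nrm (w.under (𝓞 k)) := by
      rw [auxf_nrm_pow w (w.under (𝓞 k)) rfl, hdeg2, pow_one]
    have hn2 : nrm (w.under (𝓞 E)) = nrm w := by
      have h3 : nrm w = nrm (w.under (𝓞 E)) ^ w.asIdeal.inertiaDeg (𝓞 E) := auxf_nrm_pow w _ rfl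
      have h4 : nrm (w.under (𝓞 E)) = nrm (w.under (𝓞 k)) ^
          (w.under (𝓞 E)).asIdeal.inertiaDeg (𝓞 k) :=
        auxf_nrm_pow (w.under (𝓞 E)) _ (auxf_under_under w)
      have h5 := auxf_deg_pos (k := E) w
      have h6 := auxf_deg_pos (k := k) (w.under (𝓞 E))
      have h7 : nrm (w.under (𝓞 E)) ≤ nrm w := by
        conv_rhs => rw [h3]
        exact Nat.le_self_pow h5.ne' _
      have h8 : nrm w ≤ nrm (w.under (𝓞 E)) := by
        rw [hn1, h4]
        exact Nat.le_self_pow h6.ne' _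
      omega
    have h1 : ∀ x : 𝓞 L,
        (φ ^ i) • (algebraMap (𝓞 L) (𝓞 N) x) - algebraMap (𝓞 L) (𝓞 N) x ∈ W.asIdeal := by
      intro x
      have h2 := hi2 (algebraMap (𝓞 L) (𝓞 N) x)
      have h3 : (algebraMap (𝓞 L) (𝓞 N) x) ^ nrm (w.under (𝓞 E)) - algebraMap (𝓞 L) (𝓞 N) x ∈
          W.asIdeal := by
        have h4 := auxf_pow_sub w (algebraMap (𝓞 L) (𝓞 E1) x)
        rw [← hWw] at h4
        have h5 : algebraMap (𝓞 E1) (𝓞 N) ((algebraMap (𝓞 L) (𝓞 E1) x) ^ nrm (W.under (𝓞 E1)) -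
          algebraMap (𝓞 L) (𝓞 E1) x) ∈ W.asIdeal := h4
        have h6 : algebraMap (𝓞 E1) (𝓞 N) (algebraMap (𝓞 L) (𝓞 E1) x) =
            algebraMap (𝓞 L) (𝓞 N) x := by
          rw [← IsScalarTower.algebraMap_apply (𝓞 L) (𝓞 E1) (𝓞 N)]
        rw [map_sub, map_pow, h6, hWw, ← hn2] at h5
        exact h5
      have h7 := Ideal.add_mem _ h2 h3
      rw [sub_add_sub_cancel] at h7
      exact h7
    exact hdvd i ((hH _).mpr (fix_of_triv W (φ ^ i) (by rw [hWk]; exact hram) h1))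
  · intro w hw
    obtain ⟨x, hx⟩ := hφL
    refine spl_up k L E E1 ℓ hdeg hdeg1 τ ⟨x, ?_⟩ w hw
    intro hcon
    apply hx
    have h1 := hτ (algebraMap L E1 x)
    rw [hcon, ← IsScalarTower.algebraMap_apply L E1 N] at h1
    exact h1.symm

end Pool.Agent.Lib.MP_1a91b9_nuT.CF
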