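import Pool.Agent.Lib.MP_1a91b9_nuT.CF.ExistsX
import Pool.Agent.Lib.MP_1a91b9_nuT.CF.Trick

/-! # CF: tame reciprocity for cyclic extensions of odd prime degree

PROOF (complete; job of helper29, see team-store bsd_D_doc_CF.md):
x from exists_x. Let v0 be unramified, not Spl; show x(v0) <> 0. Let v1 with x(v1) <> 0 and p a place
of k different from v0, v1 and not ramified (infinitely many places). m = p * product of the
ramified places: m <> 0, m <> 1. x' = x with x'(p) = 0: RC m x' (RC.le from RC m0 x, m0 the product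
of the ramified places: zero at m0 <= v iff v ramified; z - 1 in m0 implies z - 1 in v for all
ramified v). ne_zero_of_inert with v0: not m <= v0.
-/

set_option autoImplicit false

namespace Pool.Agent.Lib.MP_1a91b9_nuT.CF

variable [CD]

open NumberField IsDedekindDomain UniqueFactorizationMonoid Pool.Agent.Lib.MP_1a91b9_nt S4

universe u

private theorem main_place (F : Type u) [Field F] [NumberField F] (q : ℕ) (hq : q.Prime) :
    ∃ v : HeightOneSpectrum (𝓞 F), (q : 𝓞 F) ∈ v.asIdeal := by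
  have hp : (Ideal.span {(q : ℤ)}).IsPrime :=
    (Ideal.span_singleton_prime (by exact_mod_cast hq.ne_zero)).mpr
      (Nat.prime_iff_prime_int.mp hq)
  obtain ⟨⟨P, hP, hPo⟩⟩ :=
    (inferInstance : Nonempty (Ideal.primesOver (Ideal.span {(q : ℤ)}) (𝓞 F)))
  have hmem : (q : 𝓞 F) ∈ P := by
    have h1 : (q : ℤ) ∈ Ideal.span {(q : ℤ)} := Ideal.mem_span_singleton_self _
    rw [hPo.over] at h1
    have h2 : algebraMap ℤ (𝓞 F) (q : ℤ) ∈ P := h1
    rwa [map_natCast] at h2
  have hne : P ≠ ⊥ := by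
    intro h
    rw [h, Ideal.mem_bot] at hmem
    exact hq.ne_zero (by exact_mod_cast hmem)
  exact ⟨⟨P, hP, hne⟩, hmem⟩

private theorem main_infinite (F : Type u) [Field F] [NumberField F] :
    Infinite (HeightOneSpectrum (𝓞 F)) := by
  choose f hf using fun q : Nat.Primes => main_place F q.1 q.2
  refine Infinite.of_injective f fun q1 q2 h => ?_
  by_contra hne
  have hne' : (q1 : ℕ) ≠ (q2 : ℕ) := fun h3 => hne (Subtype.ext h3)
  have hc : Nat.Coprime (q1 : ℕ) (q2 : ℕ) := (Nat.coprime_primes q1.2 q2.2).mpr hne'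
  obtain ⟨a, b, hab⟩ := (Nat.isCoprime_iff_coprime.mpr hc)
  have h1 := hf q1
  have h2 := hf q2
  rw [← h] at h2
  have h4 : ((a : 𝓞 F) * ((q1 : ℕ) : 𝓞 F) + (b : 𝓞 F) * ((q2 : ℕ) : 𝓞 F)) = 1 := by
    exact_mod_cast congrArg (Int.cast : ℤ → 𝓞 F) hab
  have h5 : (1 : 𝓞 F) ∈ (f q1).asIdeal := by
    rw [← h4]
    exact Ideal.add_mem _ (Ideal.mul_mem_left _ _ h1) (Ideal.mul_mem_left _ _ h2)
  exact (f q1).isPrime.ne_top ((Ideal.eq_top_iff_one _).mpr h5)

private theorem main_eq {F : Type u} [Field F] [NumberField F] {v w : HeightOneSpectrum (𝓞 F)}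
    (h : v.asIdeal ≤ w.asIdeal) : v = w :=
  HeightOneSpectrum.ext (v.isMaximal.eq_of_le w.isPrime.ne_top h)

/-- **Reciprocity.** Let `L / k` be a Galois extension of number fields of odd prime degree `ℓ`,
tamely ramified. There is a function `x` on the places of `k` with values in `ZMod ℓ` which is `0`
at the ramified places, which vanishes at an unramified place if and only if this place splits
completely, and which is a ray class function modulo the product of the ramified places. -/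
theorem reciprocity (k L : Type u) [Field k] [NumberField k] [Field L] [NumberField L]
    [Algebra k L] [IsGalois k L] (ℓ : ℕ) [Fact ℓ.Prime] (h2 : ℓ ≠ 2)
    (hdeg : Module.finrank k L = ℓ)
    (ht : ∀ v : HeightOneSpectrum (𝓞 k), Ram L v → (ℓ : 𝓞 k) ∉ v.asIdeal) :
    ∃ x : HeightOneSpectrum (𝓞 k) → ZMod ℓ, (∀ v, Ram L v → x v = 0) ∧
      (∀ v, ¬ Ram L v → (x v = 0 ↔ Spl L v)) ∧
      ∀ z : 𝓞 k, z ≠ 0 → (∀ v : HeightOneSpectrum (𝓞 k), Ram L v → z - 1 ∈ v.asIdeal) →
        evI x (Ideal.span {z}) = 0 := by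
  classical
  obtain ⟨x, ⟨v1, hv1⟩, hr, hs, hp⟩ := exists_x k L ℓ h2 hdeg ht
  refine ⟨x, hr, fun v0 hv0 => ⟨fun hx0 => ?_, fun h => hs v0 h⟩, hp⟩
  by_contra hns
  have hfin : {v : HeightOneSpectrum (𝓞 k) | Ram L v}.Finite := ram_finite k L
  obtain ⟨R, hR⟩ : ∃ R : Finset (HeightOneSpectrum (𝓞 k)), R = hfin.toFinset := ⟨_, rfl⟩
  have hRm : ∀ v, v ∈ R ↔ Ram L v := fun v => by
    rw [hR, Set.Finite.mem_toFinset]
    exact Iff.rfl
  have := main_infinite k
  obtain ⟨p, hp0⟩ := Infinite.exists_notMem_finset (insert v0 (insert v1 R))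
  rw [Finset.mem_insert, Finset.mem_insert, not_or, not_or] at hp0
  obtain ⟨hpv0, hpv1, hpR⟩ := hp0
  obtain ⟨m0, hm0⟩ : ∃ m0 : Ideal (𝓞 k), m0 = ∏ v ∈ R, v.asIdeal := ⟨_, rfl⟩
  have hm0le : ∀ w : HeightOneSpectrum (𝓞 k), m0 ≤ w.asIdeal ↔ w ∈ R := fun w => by
    rw [hm0, w.isPrime.prod_le]
    constructor
    · rintro ⟨v, hv, hvw⟩
      rwa [← main_eq hvw]
    · intro hw
      exact ⟨w, hw, le_rfl⟩
  obtain ⟨m, hm⟩ : ∃ m : Ideal (𝓞 k), m = p.asIdeal * m0 := ⟨_, rfl⟩
  have hmle : ∀ w : HeightOneSpectrum (𝓞 k), m ≤ w.asIdeal ↔ (w = p ∨ w ∈ R) := fun w => by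
    rw [hm, w.isPrime.mul_le, hm0le]
    constructor
    · rintro (h | h)
      · exact Or.inl (main_eq h).symm
      · exact Or.inr h
    · rintro (h | h)
      · rw [h]
        exact Or.inl le_rfl
      · exact Or.inr h
  have hm00 : m0 ≠ 0 := by
    rw [hm0]
    exact Finset.prod_ne_zero_iff.mpr fun v _ => v.ne_bot
  have hmne : m ≠ 0 := by
    rw [hm]
    exact mul_ne_zero p.ne_bot hm00
  have hmp : m ≤ p.asIdeal := (hmle p).mpr (Or.inl rfl)
  have hm1 : m ≠ 1 := by
    intro h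
    rw [h, Ideal.one_eq_top, top_le_iff] at hmp
    exact p.isPrime.ne_top hmp
  have hmm0 : m ≤ m0 := by
    rw [hm]
    exact (Ideal.mul_le_inf (I := p.asIdeal) (J := m0)).trans inf_le_right
  have hRC0 : RC m0 x := by
    refine ⟨fun v hv => hr v ((hRm v).mp ((hm0le v).mp hv)), fun z hz hz1 => ?_⟩
    refine hp z hz fun v hv => ?_
    exact (hm0le v).mpr ((hRm v).mpr hv) hz1
  obtain ⟨x', hx'⟩ : ∃ x' : HeightOneSpectrum (𝓞 k) → ZMod ℓ,
      x' = fun v => if v = p then 0 else x v := ⟨_, rfl⟩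
  have hx'p : x' p = 0 := by
    rw [hx']
    exact if_pos rfl
  have hx'n : ∀ v, v ≠ p → x' v = x v := fun v hv => by
    rw [hx']
    exact if_neg hv
  have hRC : RC m x' := by
    refine RC.le hRC0 hmm0 (fun v hv => ?_) (fun v hv => ?_)
    · refine hx'n v fun h => hv ?_
      exact (hmle v).mpr (Or.inl h)
    · rcases (hmle v).mp hv with h | h
      · rw [h, hx'p]
      · by_cases hvp : v = p
        · rw [hvp, hx'p]
        · rw [hx'n v hvp]
          exact hr v ((hRm v).mp h)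
  have hfinal := ne_zero_of_inert k L ℓ h2 hdeg m hmne hm1
    (fun v hv => (hmle v).mpr (Or.inr ((hRm v).mpr hv))) x' hRC
    ⟨v1, by
      rw [hx'n v1 (fun h => hpv1 h.symm)]
      exact hv1⟩
    (fun v hv => by
      by_cases hvp : v = p
      · rw [hvp, hx'p]
      · rw [hx'n v hvp]
        exact hs v hv) v0
    (fun h => by
      rcases (hmle v0).mp h with h | h
      · exact hpv0 h.symm
      · exact hv0 ((hRm v0).mp h)) hns
  rw [hx'n v0 (fun h => hpv0 h.symm)] at hfinal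
  exact hfinal hx0

end Pool.Agent.Lib.MP_1a91b9_nuT.CF
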