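import Pool.Agent.Lib.MP_1a91b9_nuT.CF.TentSum

/-! # CF: a partition of unity for the action of units on the mixed space

PROOF (complete; job of helper29, see team-store bsd_D_doc_CF.md):
r = Units.rank F. Write N = mixedEmbedding.norm, and for x with N x <> 0 (so normAtPlace w x > 0
for all w) the vector l(x) = (log normAtPlace_w x)_w in R^{places}. log N x = sum_w mult(w) l(x)_w.
logMap x (Mathlib: NumberField.mixedEmbedding.logMap) is a linear function of l(x), and
y_i(x) = coordinate i of logMap x in the basis (basisUnitLattice F).ofZLatticeBasis R (unitLattice F)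
of logSpace (as in Mathlib's definition of fundamentalCone) is a linear function of l(x), with
y_i(u x) = y_i(x) + e_i for u = fundSystem_i^{e_i} products (logMap_unit_smul and
logEmbedding (fundSystem i) = basis vector i). Put
  G(x) = tent(log N x) * prod_i tent(y_i(x) / M) if N x <> 0, G(x) = 0 if N x = 0.
The sum over e of G(prod fundSystem_i^(M e_i) x) = tent(log N x) * sum_e prod_i tent(y_i/M + e_i)
= tent(log N x) (TentSum). Lipschitz and compact support: the linear map l -> (sum mult_w l_w,
(y_i)_i) from R^{places} to R^{1+r} is injective (sum mult l = 0 and logMap = 0 imply l = 0: logMap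
= 0 gives mult(w)(l_w - (sum mult l)/n) = 0 for w <> w0, so l_w = 0 for w <> w0, then l_{w0} = 0),
so G(x) <> 0 implies |l_w| <= T for all w, for a constant T; i.e. exp(-T) <= normAtPlace_w x <=
exp T. Let clog(a) = log(max(a, exp(-T-1))), a Lipschitz function of a >= 0, and
Phi : R^{places} -> R, Phi(l) = tent(sum mult l) prod_i tent(y_i(l)/M), which is Lipschitz on the
bounded set (product of bounded Lipschitz functions, LipschitzWith on all of R^{places} because
each factor is globally Lipschitz and bounded by 1). Then G(x) = Phi((clog normAtPlace_w x)_w) for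
all x: if some normAtPlace_w x < exp(-T-1) then the clipped vector has a coordinate -T-1, outside
of the support of Phi. Composition of Lipschitz maps (normAtPlace_w is 1-Lipschitz for the sup norm
of the mixed space). Compact support: bounded, closed ball.
-/

set_option autoImplicit false

namespace Pool.Agent.Lib.MP_1a91b9_nuT.CF

variable [CD]

open NumberField IsDedekindDomain UniqueFactorizationMonoid Pool.Agent.Lib.MP_1a91b9_nt S4

universe u

/-- product of bounded Lipschitz functions -/
private theorem bump_mul {X : Type*} [PseudoMetricSpace X] {f g : X → ℝ} {C D : NNReal}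
    (hf : LipschitzWith C f) (hg : LipschitzWith D g) (hf1 : ∀ x, |f x| ≤ 1)
    (hg1 : ∀ x, |g x| ≤ 1) : LipschitzWith (C + D) (fun x => f x * g x) := by
  refine LipschitzWith.of_dist_le_mul fun x y => ?_
  have h1 := hf.dist_le_mul x y
  have h2 := hg.dist_le_mul x y
  rw [Real.dist_eq] at h1 h2 ⊢
  have h3 : f x * g x - f y * g y = (f x - f y) * g x + f y * (g x - g y) := by ring
  rw [h3]
  refine (abs_add_le _ _).trans ?_
  rw [abs_mul, abs_mul, NNReal.coe_add, add_mul]
  refine add_le_add ?_ ?_
  · exact (mul_le_of_le_one_right (abs_nonneg _) (hg1 x)).trans h1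
  · exact (mul_le_of_le_one_left (abs_nonneg _) (hf1 y)).trans h2

private theorem bump_prod {X ι : Type*} [PseudoMetricSpace X] (s : Finset ι) (f : ι → X → ℝ)
    (C : ι → NNReal) (hf : ∀ i, LipschitzWith (C i) (f i)) (hf1 : ∀ i x, |f i x| ≤ 1) :
    ∃ D : NNReal, LipschitzWith D (fun x => ∏ i ∈ s, f i x) ∧ ∀ x, |∏ i ∈ s, f i x| ≤ 1 := by
  classical
  induction s using Finset.induction_on with
  | empty =>
    refine ⟨0, ?_, fun x => ?_⟩
    · simp only [Finset.prod_empty]
      exact LipschitzWith.const 1
    · simp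
  | insert a s ha ih =>
    obtain ⟨D, hD, hD1⟩ := ih
    refine ⟨C a + D, ?_, fun x => ?_⟩
    · simp only [Finset.prod_insert ha]
      exact bump_mul (hf a) hD (hf1 a) hD1
    · rw [Finset.prod_insert ha, abs_mul]
      exact mul_le_one₀ (hf1 a x) (abs_nonneg _) (hD1 x)

private theorem bump_tent_abs (t : ℝ) : |tent t| ≤ 1 := by
  rw [abs_of_nonneg (tent_nonneg t)]
  exact tent_le_one t

/-- the clipped logarithm -/
private theorem bump_clog (c : ℝ) (hc : 0 < c) :
    LipschitzWith (Real.toNNReal c⁻¹) (fun a : ℝ => Real.log (max a c)) := by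
  have key : ∀ a b : ℝ, c ≤ b → b ≤ a → Real.log a - Real.log b ≤ c⁻¹ * (a - b) := by
    intro a b hb hab
    have hb0 : 0 < b := hc.trans_le hb
    have ha0 : 0 < a := hb0.trans_le hab
    rw [← Real.log_div ha0.ne' hb0.ne']
    refine (Real.log_le_sub_one_of_pos (div_pos ha0 hb0)).trans ?_
    have h1 : a / b - 1 = b⁻¹ * (a - b) := by
      field_simp
    rw [h1]
    exact mul_le_mul_of_nonneg_right (inv_anti₀ hc hb) (sub_nonneg.2 hab)
  refine LipschitzWith.of_dist_le_mul fun x y => ?_
  rw [Real.dist_eq, Real.dist_eq, Real.coe_toNNReal _ (inv_pos.2 hc).le]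
  have h2 : |max x c - max y c| ≤ |x - y| := abs_max_sub_max_le_abs x y c
  have hx : c ≤ max x c := le_max_right _ _
  have hy : c ≤ max y c := le_max_right _ _
  refine le_trans ?_ (mul_le_mul_of_nonneg_left h2 (inv_pos.2 hc).le)
  rcases le_total (max y c) (max x c) with h | h
  · have h3 : Real.log (max y c) ≤ Real.log (max x c) :=
      Real.log_le_log (hc.trans_le hy) h
    rw [abs_of_nonneg (sub_nonneg.2 h3), abs_of_nonneg (sub_nonneg.2 h)]
    exact key _ _ hy h
  · have h3 : Real.log (max x c) ≤ Real.log (max y c) :=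
      Real.log_le_log (hc.trans_le hx) h
    rw [abs_sub_comm, abs_of_nonneg (sub_nonneg.2 h3), abs_sub_comm (max x c),
      abs_of_nonneg (sub_nonneg.2 h)]
    exact key _ _ hx h

open scoped Classical in
private theorem bump_normAtPlace {F : Type*} [Field F] [NumberField F] (w : InfinitePlace F) :
    LipschitzWith 1 (fun x : mixedEmbedding.mixedSpace F => mixedEmbedding.normAtPlace w x) := by
  refine LipschitzWith.of_dist_le_mul fun x y => ?_
  rw [Real.dist_eq, NNReal.coe_one, one_mul]
  have hle : ∀ z : mixedEmbedding.mixedSpace F, mixedEmbedding.normAtPlace w z ≤ ‖z‖ := by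
    intro z
    rw [mixedEmbedding.norm_eq_sup'_normAtPlace]
    exact Finset.le_sup' (fun w => mixedEmbedding.normAtPlace w z) (Finset.mem_univ w)
  rw [dist_eq_norm, abs_le]
  constructor
  · have h1 := mixedEmbedding.normAtPlace_add_le w x (y - x)
    have h2 := hle (y - x)
    rw [add_sub_cancel] at h1
    rw [norm_sub_rev] at h2
    linarith
  · have h1 := mixedEmbedding.normAtPlace_add_le w y (x - y)
    have h2 := hle (x - y)
    rw [add_sub_cancel] at h1
    linarith

section

open NumberField.Units NumberField.Units.dirichletUnitTheorem NumberField.InfinitePlace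

variable (F : Type*) [Field F] [NumberField F]

/-- sum of the logarithms -/
private noncomputable def bumpS : (InfinitePlace F → ℝ) →ₗ[ℝ] ℝ :=
  ∑ w, (mult w : ℝ) • LinearMap.proj w

/-- the linear map behind logMap -/
private noncomputable def bumpL : (InfinitePlace F → ℝ) →ₗ[ℝ] logSpace F :=
  LinearMap.pi fun w => (mult w.1 : ℝ) •
    (LinearMap.proj w.1 - ((Module.finrank ℚ F : ℝ)⁻¹) • bumpS F)

private theorem bumpS_apply (l : InfinitePlace F → ℝ) : bumpS F l = ∑ w, (mult w : ℝ) * l w := by
  simp [bumpS, LinearMap.sum_apply]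

private theorem bumpL_apply (l : InfinitePlace F → ℝ) (w : {w : InfinitePlace F // w ≠ w₀}) :
    bumpL F l w = mult w.1 * (l w.1 - (Module.finrank ℚ F : ℝ)⁻¹ * bumpS F l) := by
  simp [bumpL]

open scoped Classical in
/-- the pair of the two maps in coordinates -/
private noncomputable def bumpA :
    (InfinitePlace F → ℝ) →ₗ[ℝ] (ℝ × (Fin (Units.rank F) → ℝ)) :=
  (bumpS F).prod
    (((basisUnitLattice F).ofZLatticeBasis ℝ (unitLattice F)).equivFun.toLinearMap ∘ₗ bumpL F)

private theorem bumpA_ker : LinearMap.ker (bumpA F) = ⊥ := by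
  classical
  rw [LinearMap.ker_eq_bot']
  intro l hl
  have h1 : bumpS F l = 0 := congrArg Prod.fst hl
  have h2 : ((basisUnitLattice F).ofZLatticeBasis ℝ (unitLattice F)).equivFun (bumpL F l) = 0 :=
    congrArg Prod.snd hl
  rw [LinearEquiv.map_eq_zero_iff] at h2
  have h3 : ∀ w : InfinitePlace F, w ≠ w₀ → l w = 0 := by
    intro w hw
    have h4 := congrFun h2 ⟨w, hw⟩
    rw [bumpL_apply, h1, mul_zero, sub_zero] at h4
    have h5 : ((mult w : ℕ) : ℝ) ≠ 0 := Nat.cast_ne_zero.2 mult_ne_zero
    exact (mul_eq_zero.1 h4).resolve_left h5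
  have h6 : l w₀ = 0 := by
    rw [bumpS_apply, Finset.sum_eq_single w₀ (fun w _ hw => by rw [h3 w hw, mul_zero])
      (fun h => absurd (Finset.mem_univ _) h)] at h1
    have h5 : ((mult (w₀ : InfinitePlace F) : ℕ) : ℝ) ≠ 0 := Nat.cast_ne_zero.2 mult_ne_zero
    exact (mul_eq_zero.1 h1).resolve_left h5
  funext w
  by_cases hw : w = w₀
  · rw [hw, h6]
    rfl
  · rw [h3 w hw]
    rfl

/-- the vector of logarithms -/
private noncomputable def bumpV (x : mixedEmbedding.mixedSpace F) : InfinitePlace F → ℝ :=
  fun w => Real.log (mixedEmbedding.normAtPlace w x)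

private theorem bumpS_V (x : mixedEmbedding.mixedSpace F) (hx : mixedEmbedding.norm x ≠ 0) :
    bumpS F (bumpV F x) = Real.log (mixedEmbedding.norm x) := by
  rw [mixedEmbedding.norm_ne_zero_iff] at hx
  rw [bumpS_apply, mixedEmbedding.norm_apply, Real.log_prod (fun w _ => pow_ne_zero _ (hx w))]
  refine Finset.sum_congr rfl fun w _ => ?_
  rw [Real.log_pow]
  rfl

private theorem bumpL_V (x : mixedEmbedding.mixedSpace F) (hx : mixedEmbedding.norm x ≠ 0) :
    bumpL F (bumpV F x) = mixedEmbedding.logMap x := by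
  funext w
  rw [bumpL_apply, bumpS_V F x hx, mixedEmbedding.logMap_apply, mul_comm (_⁻¹)]
  rfl

private theorem bump_logEmbedding (m : Fin (Units.rank F) → ℤ) :
    logEmbedding F (Additive.ofMul (∏ i, (fundSystem F i) ^ m i)) =
      ∑ i, m i • (basisUnitLattice F i : logSpace F) := by
  rw [ofMul_prod, map_sum]
  refine Finset.sum_congr rfl fun i _ => ?_
  rw [ofMul_zpow, map_zsmul, logEmbedding_fundSystem]

private theorem bump_coord (m : Fin (Units.rank F) → ℤ) (x : mixedEmbedding.mixedSpace F)
    (hx : mixedEmbedding.norm x ≠ 0) (i : Fin (Units.rank F)) :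
    (bumpA F (bumpV F ((∏ i, (fundSystem F i) ^ m i) • x))).2 i =
      m i + (bumpA F (bumpV F x)).2 i := by
  classical
  have hux : mixedEmbedding.norm ((∏ i, (fundSystem F i) ^ m i) • x) ≠ 0 := by
    rw [mixedEmbedding.norm_unit_smul]
    exact hx
  have h1 : ∀ z : mixedEmbedding.mixedSpace F, mixedEmbedding.norm z ≠ 0 →
      (bumpA F (bumpV F z)).2 = ((basisUnitLattice F).ofZLatticeBasis ℝ
        (unitLattice F)).equivFun (mixedEmbedding.logMap z) := by
    intro z hz
    rw [← bumpL_V F z hz]
    rfl
  rw [h1 _ hux, h1 _ hx, mixedEmbedding.logMap_unit_smul _ hx, map_add, Pi.add_apply,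
    bump_logEmbedding]
  congr 1
  rw [map_sum, Finset.sum_apply, Finset.sum_eq_single i]
  · rw [map_zsmul, Pi.smul_apply, Module.Basis.equivFun_apply,
      Module.Basis.ofZLatticeBasis_repr_apply, Module.Basis.repr_self, Finsupp.single_eq_same]
    simp
  · intro j _ hj
    rw [map_zsmul, Pi.smul_apply, Module.Basis.equivFun_apply,
      Module.Basis.ofZLatticeBasis_repr_apply, Module.Basis.repr_self,
      Finsupp.single_eq_of_ne hj.symm]
    simp
  · intro h
    exact absurd (Finset.mem_univ _) h

end

open scoped Classical in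
open mixedEmbedding in
/-- A Lipschitz function `G` with compact support on the mixed space, vanishing where the norm
vanishes, whose sum over a finite index free group of units is `tent (log (norm x))`. -/
theorem exists_bump (F : Type*) [Field F] [NumberField F] (M : ℕ) (hM : 0 < M) :
    ∃ (G : mixedEmbedding.mixedSpace F → ℝ) (C : NNReal), LipschitzWith C G ∧
      HasCompactSupport G ∧ (∀ x, mixedEmbedding.norm x = 0 → G x = 0) ∧
      ∀ x, mixedEmbedding.norm x ≠ 0 →
        HasSum (fun e : Fin (Units.rank F) → ℤ =>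
          G ((∏ i, (Units.fundSystem F i) ^ ((M : ℤ) * e i)) • x))
          (tent (Real.log (mixedEmbedding.norm x))) := by
  obtain ⟨K, hK0, hK⟩ := LinearMap.exists_antilipschitzWith (bumpA F) (bumpA_ker F)
  have hM1 : (1 : ℝ) ≤ M := by exact_mod_cast hM
  have hM0 : (0 : ℝ) < M := by exact_mod_cast hM
  obtain ⟨Psi, hPsi⟩ : ∃ Psi : ℝ × (Fin (Units.rank F) → ℝ) → ℝ,
    ∀ z, Psi z = tent z.1 * ∏ i, tent (z.2 i / M) := ⟨_, fun _ => rfl⟩
  have hPsiL : ∃ D : NNReal, LipschitzWith D Psi := by
    have h1 : LipschitzWith 1 (fun z : ℝ × (Fin (Units.rank F) → ℝ) => tent z.1) := by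
      refine LipschitzWith.of_dist_le_mul fun x y => ?_
      have h3 := tent_lipschitz.dist_le_mul x.1 y.1
      refine h3.trans (mul_le_mul_of_nonneg_left ?_ zero_le_one)
      exact le_max_left _ _
    have h2 : ∀ i, LipschitzWith (Real.toNNReal (M : ℝ)⁻¹)
        (fun z : ℝ × (Fin (Units.rank F) → ℝ) => tent (z.2 i / M)) := by
      intro i
      refine LipschitzWith.of_dist_le_mul fun x y => ?_
      have h3 := tent_lipschitz.dist_le_mul (x.2 i / M) (y.2 i / M)
      rw [NNReal.coe_one, one_mul] at h3
      refine h3.trans ?_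
      rw [Real.dist_eq, ← sub_div, abs_div, abs_of_pos hM0, div_eq_inv_mul,
        Real.coe_toNNReal _ (inv_pos.2 hM0).le]
      refine mul_le_mul_of_nonneg_left ?_ (inv_pos.2 hM0).le
      rw [← Real.dist_eq]
      exact (dist_le_pi_dist x.2 y.2 i).trans (le_max_right _ _)
    obtain ⟨D, hD, hD1⟩ := bump_prod Finset.univ
      (fun i (z : ℝ × (Fin (Units.rank F) → ℝ)) => tent (z.2 i / M)) _ h2
      (fun i z => bump_tent_abs _)
    have h4 := bump_mul h1 hD (fun _ => bump_tent_abs _) hD1
    refine ⟨1 + D, ?_⟩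
    have h5 : Psi = fun z => tent z.1 * ∏ i, tent (z.2 i / M) := funext hPsi
    rw [h5]
    exact h4
  obtain ⟨D, hD⟩ := hPsiL
  obtain ⟨T, hT⟩ : ∃ T : ℝ, T = K * M := ⟨_, rfl⟩
  have hT0 : 0 ≤ T := by
    rw [hT]
    exact mul_nonneg K.2 hM0.le
  -- the support
  have hsupp : ∀ l : InfinitePlace F → ℝ, Psi (bumpA F l) ≠ 0 → ∀ w, |l w| ≤ T := by
    intro l hl w
    have h1 : ‖bumpA F l‖ ≤ M := by
      rw [Prod.norm_def]
      refine max_le ?_ ?_
      · by_contra hcon
        push Not at hcon
        apply hl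
        have h5 : 1 ≤ |(bumpA F l).1| := (hM1.trans hcon.le)
        rw [hPsi, tent_eq_zero _ h5, zero_mul]
      · rw [pi_norm_le_iff_of_nonneg hM0.le]
        intro i
        by_contra hcon
        push Not at hcon
        apply hl
        have h5 : 1 ≤ |(bumpA F l).2 i / M| := by
          rw [abs_div, abs_of_pos hM0, one_le_div hM0]
          exact hcon.le
        rw [hPsi, Finset.prod_eq_zero (Finset.mem_univ i) (tent_eq_zero _ h5), mul_zero]
    have h2 := hK.le_mul_dist l 0
    rw [map_zero, dist_zero_right, dist_zero_right] at h2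
    calc |l w| = ‖l w‖ := rfl
      _ ≤ ‖l‖ := norm_le_pi_norm l w
      _ ≤ K * ‖bumpA F l‖ := h2
      _ ≤ T := by
        rw [hT]
        exact mul_le_mul_of_nonneg_left h1 K.2
  obtain ⟨c, hcdef⟩ : ∃ c : ℝ, c = Real.exp (-T - 1) := ⟨_, rfl⟩
  have hc : 0 < c := by
    rw [hcdef]
    exact Real.exp_pos _
  have hlc : Real.log c = -T - 1 := by
    rw [hcdef, Real.log_exp]
  obtain ⟨cl, hcl⟩ : ∃ cl : mixedSpace F → InfinitePlace F → ℝ,
    ∀ x w, cl x w = Real.log (max (normAtPlace w x) c) := ⟨_, fun _ _ => rfl⟩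
  have hclL : LipschitzWith (Real.toNNReal c⁻¹) cl := by
    refine LipschitzWith.of_dist_le_mul fun x y => ?_
    rw [dist_pi_le_iff (mul_nonneg (NNReal.coe_nonneg _) dist_nonneg)]
    intro w
    have h1 := (bump_clog c hc).dist_le_mul (normAtPlace w x) (normAtPlace w y)
    have h2 := (bump_normAtPlace w).dist_le_mul x y
    rw [NNReal.coe_one, one_mul] at h2
    rw [hcl, hcl]
    exact h1.trans (mul_le_mul_of_nonneg_left h2 (NNReal.coe_nonneg _))
  have hAL : LipschitzWith ‖LinearMap.toContinuousLinearMap (bumpA F)‖₊ (bumpA F) :=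
    (LinearMap.toContinuousLinearMap (bumpA F)).lipschitz
  have hcle : ∀ x w, -T - 1 ≤ cl x w := by
    intro x w
    rw [hcl, ← hlc]
    exact Real.log_le_log hc (le_max_right _ _)
  refine ⟨fun x => Psi (bumpA F (cl x)), _, hD.comp (hAL.comp hclL), ?_, ?_, ?_⟩
  · refine HasCompactSupport.intro (isCompact_closedBall (0 : mixedSpace F) (Real.exp T)) ?_
    intro x hx
    by_contra hne
    apply hx
    rw [mem_closedBall_zero_iff, norm_eq_sup'_normAtPlace]
    refine Finset.sup'_le _ _ fun w _ => ?_
    have h1 := hsupp (cl x) hne w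
    have h2 : cl x w ≤ T := (le_abs_self _).trans h1
    rw [hcl, Real.log_le_iff_le_exp (hc.trans_le (le_max_right _ _))] at h2
    exact (le_max_left _ _).trans h2
  · intro x hx
    rw [mixedEmbedding.norm_eq_zero_iff] at hx
    obtain ⟨w, hw⟩ := hx
    by_contra hne
    have h1 := hsupp (cl x) hne w
    rw [hcl, hw, max_eq_right hc.le, hlc, abs_le] at h1
    linarith [h1.1]
  · intro x hx
    have hclip : ∀ z : mixedSpace F, mixedEmbedding.norm z ≠ 0 →
        Psi (bumpA F (cl z)) = Psi (bumpA F (bumpV F z)) := by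
      intro z hz
      by_cases h : ∀ w, c ≤ normAtPlace w z
      · have h1 : cl z = bumpV F z := by
          funext w
          rw [hcl, max_eq_left (h w)]
          rfl
        rw [h1]
      · push Not at h
        obtain ⟨w, hw⟩ := h
        have hpos : 0 < normAtPlace w z :=
          lt_of_le_of_ne (normAtPlace_nonneg w z)
            (mixedEmbedding.norm_ne_zero_iff.1 hz w).symm
        have h1 : Psi (bumpA F (cl z)) = 0 := by
          by_contra hne
          have h2 := hsupp (cl z) hne w
          rw [hcl, max_eq_right hw.le, hlc, abs_le] at h2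
          linarith [h2.1]
        have h3 : Psi (bumpA F (bumpV F z)) = 0 := by
          by_contra hne
          have h2 := hsupp (bumpV F z) hne w
          have h4 : bumpV F z w < -T - 1 := by
            rw [← hlc]
            exact Real.log_lt_log hpos hw
          rw [abs_le] at h2
          linarith [h2.1]
        rw [h1, h3]
    have hfun : (fun e : Fin (Units.rank F) → ℤ =>
        Psi (bumpA F (cl ((∏ i, (Units.fundSystem F i) ^ ((M : ℤ) * e i)) • x)))) =
        fun e => tent (Real.log (mixedEmbedding.norm x)) *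
          ∏ i, tent ((bumpA F (bumpV F x)).2 i / M + e i) := by
      funext e
      have hux : mixedEmbedding.norm
          ((∏ i, (Units.fundSystem F i) ^ ((M : ℤ) * e i)) • x) ≠ 0 := by
        rw [mixedEmbedding.norm_unit_smul]
        exact hx
      rw [hclip _ hux, hPsi]
      congr 1
      · congr 1
        have h1 := bumpS_V F _ hux
        rw [mixedEmbedding.norm_unit_smul] at h1
        exact h1
      · refine Finset.prod_congr rfl fun i _ => ?_
        rw [bump_coord F (fun i => (M : ℤ) * e i) x hx i]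
        congr 1
        push_cast
        field_simp
        ring
    show HasSum (fun e : Fin (Units.rank F) → ℤ =>
        Psi (bumpA F (cl ((∏ i, (Units.fundSystem F i) ^ ((M : ℤ) * e i)) • x)))) _
    rw [hfun]
    have h1 := (tent_hasSum_pi (fun i => (bumpA F (bumpV F x)).2 i / M)).mul_left
      (tent (Real.log (mixedEmbedding.norm x)))
    rw [mul_one] at h1
    exact h1

end Pool.Agent.Lib.MP_1a91b9_nuT.CF
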