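import Pool.Agent.Lib.MP_1a91b9_nuT.CF.OrdExt

/-! # CF: a finite set of places which kills the class groups

PROOF (complete; job of helper29, see team-store bsd_D_doc_CF.md):
The class groups of k and L are finite: choose integral ideals representing all the classes, S = R
union the places of k dividing the representatives of Cl(k) or lying under primes dividing the
representatives of Cl(L). For v not in S: v^(-1) (or v) is in the class of a representative I: v J = (z)
with J representing the inverse class, J supported in S. Same for w.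
-/

set_option autoImplicit false

namespace Pool.Agent.Lib.MP_1a91b9_nuT.CF

variable [CD]

open NumberField IsDedekindDomain UniqueFactorizationMonoid Pool.Agent.Lib.MP_1a91b9_nt S4

universe u

/-- a finite set of places which kills the class group -/
private theorem chooses_one (F : Type u) [Field F] [NumberField F] :
    ∃ T : Set (HeightOneSpectrum (𝓞 F)), T.Finite ∧
      ∀ v : HeightOneSpectrum (𝓞 F), v ∉ T → ∃ y : Additive Fˣ, ord v y = 1 ∧
        ∀ v' : HeightOneSpectrum (𝓞 F), v' ∉ T → v' ≠ v → ord v' y = 0 := by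
  classical
  have hsurj := ClassGroup.mk0_surjective (R := 𝓞 F)
  choose I hI using hsurj
  refine ⟨{v | ∃ c : ClassGroup (𝓞 F), v.asIdeal ∣ (I c : Ideal (𝓞 F))}, ?_, ?_⟩
  · have : {v : HeightOneSpectrum (𝓞 F) | ∃ c : ClassGroup (𝓞 F),
        v.asIdeal ∣ (I c : Ideal (𝓞 F))} =
        ⋃ c : ClassGroup (𝓞 F), {v | v.asIdeal ∣ (I c : Ideal (𝓞 F))} := by
      ext v
      simp only [Set.mem_iUnion]
      rfl
    rw [this]
    refine Set.finite_iUnion fun c => Ideal.finite_factors ?_
    exact nonZeroDivisors.coe_ne_zero (I c)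
  · intro v hv
    have hv0 : v.asIdeal ∈ nonZeroDivisors (Ideal (𝓞 F)) :=
      mem_nonZeroDivisors_iff_ne_zero.mpr v.ne_bot
    set c : ClassGroup (𝓞 F) := (ClassGroup.mk0 ⟨v.asIdeal, hv0⟩)⁻¹ with hc
    have hcI0 : (I c : Ideal (𝓞 F)) ≠ 0 := nonZeroDivisors.coe_ne_zero (I c)
    have hone : ClassGroup.mk0 (⟨v.asIdeal, hv0⟩ * I c) = 1 := by
      rw [map_mul, hI c, hc, mul_inv_cancel]
    rw [ClassGroup.mk0_eq_one_iff] at hone
    obtain ⟨z, hz⟩ := hone.principal
    have hz' : v.asIdeal * (I c : Ideal (𝓞 F)) = Ideal.span {z} := hz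
    have hz0 : z ≠ 0 := by
      rintro rfl
      rw [Set.singleton_zero, Ideal.span_zero] at hz'
      exact mul_ne_zero v.ne_bot hcI0 hz'
    have hzF : (z : F) ≠ 0 := by
      rwa [Ne, RingOfIntegers.coe_eq_zero_iff]
    have hfac : normalizedFactors (Ideal.span {z}) =
        {v.asIdeal} + normalizedFactors (I c : Ideal (𝓞 F)) := by
      rw [← hz', normalizedFactors_mul v.ne_bot hcI0,
        normalizedFactors_irreducible v.irreducible, normalize_eq]
    have hcnt : ∀ v' : HeightOneSpectrum (𝓞 F),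
        v' ∉ {v | ∃ c : ClassGroup (𝓞 F), v.asIdeal ∣ (I c : Ideal (𝓞 F))} →
        (normalizedFactors (I c : Ideal (𝓞 F))).count v'.asIdeal = 0 := by
      intro v' hv'
      rw [Multiset.count_eq_zero]
      intro hmem
      exact hv' ⟨c, dvd_of_mem_normalizedFactors hmem⟩
    refine ⟨Additive.ofMul (Units.mk0 (z : F) hzF), ?_, ?_⟩
    · rw [ord_int v z _ rfl, hfac]
      rw [Multiset.count_add]
      have := hcnt v hv
      simp_all
    · intro v' hv' hne
      rw [ord_int v' z _ rfl, hfac]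
      rw [Multiset.count_add]
      have h1 := hcnt v' hv'
      have h2 : v'.asIdeal ≠ v.asIdeal := fun h => hne (HeightOneSpectrum.ext h)
      have h3 : ({v.asIdeal} : Multiset (Ideal (𝓞 F))).count v'.asIdeal = 0 := by
        rw [Multiset.count_singleton, if_neg h2]
      simp_all

/-- every place outside `S` (resp. not above `S`) is principal up to `S` -/
theorem exists_S (k L : Type u) [Field k] [NumberField k] [Field L] [NumberField L] [Algebra k L]
    (R : Set (HeightOneSpectrum (𝓞 k))) (hR : R.Finite) :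
    ∃ S : Set (HeightOneSpectrum (𝓞 k)), S.Finite ∧ R ⊆ S ∧
      (∀ v : HeightOneSpectrum (𝓞 k), v ∉ S → ∃ y : Additive kˣ, ord v y = 1 ∧
        ∀ v' : HeightOneSpectrum (𝓞 k), v' ∉ S → v' ≠ v → ord v' y = 0) ∧
      (∀ w : HeightOneSpectrum (𝓞 L), w.under (𝓞 k) ∉ S → ∃ y : Additive Lˣ, ord w y = 1 ∧
        ∀ w' : HeightOneSpectrum (𝓞 L), w'.under (𝓞 k) ∉ S → w' ≠ w → ord w' y = 0) := by
  obtain ⟨T, hT, hTk⟩ := chooses_one k
  obtain ⟨T', hT', hTL⟩ := chooses_one L
  refine ⟨R ∪ T ∪ (fun w : HeightOneSpectrum (𝓞 L) => w.under (𝓞 k)) '' T',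
    (hR.union hT).union (hT'.image _), fun v hv => Or.inl (Or.inl hv), ?_, ?_⟩
  · intro v hv
    obtain ⟨y, hy1, hy2⟩ := hTk v fun h => hv (Or.inl (Or.inr h))
    exact ⟨y, hy1, fun v' hv' hne => hy2 v' (fun h => hv' (Or.inl (Or.inr h))) hne⟩
  · intro w hw
    obtain ⟨y, hy1, hy2⟩ := hTL w fun h => hw (Or.inr ⟨w, h, rfl⟩)
    exact ⟨y, hy1, fun w' hw' hne => hy2 w' (fun h => hw' (Or.inr ⟨w', h, rfl⟩)) hne⟩

end Pool.Agent.Lib.MP_1a91b9_nuT.CF
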