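import Pool.Agent.Lib.MP_1a91b9_nuT.CF.LatSum

/-! # CF: Riemann sums of Lipschitz functions over lattices

PROOF (complete; job of helper29, see team-store bsd_D_doc_CF.md):
Choose a Z-basis b of Lambda (ZLattice; Module.Free, finrank = finrank V): b.ofZLatticeBasis R is an
R-basis of V, giving the linear equiv phi : (iota -> R) -> V, phi(e) = sum e_i b_i, which maps Z^iota
onto Lambda. G o phi is Lipschitz with compact support; int G d mu = covolume * int (G o phi)
(mu(fundamental domain) = covolume, image measure of a linear equiv is a multiple of the Haar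
measure: compare on the unit cube: phi [0,1)^n = fundamentalDomain b, ZLattice.covolume_eq_measure_
fundamentalDomain). Apply LatSum to G o phi with t' = phi^(-1) t.
-/

set_option autoImplicit false

namespace Pool.Agent.Lib.MP_1a91b9_nuT.CF

variable [CD]

open NumberField IsDedekindDomain UniqueFactorizationMonoid Pool.Agent.Lib.MP_1a91b9_nt S4

universe u

open MeasureTheory in
private theorem zlat_integral {V : Type*} [NormedAddCommGroup V] [NormedSpace ℝ V]
    [FiniteDimensional ℝ V] [MeasurableSpace V] [BorelSpace V] (μ : Measure V)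
    [μ.IsAddHaarMeasure] (Λ : Submodule ℤ V) [DiscreteTopology Λ] [IsZLattice ℝ Λ]
    {ι : Type*} [Fintype ι] (b : Module.Basis ι ℤ Λ) (G : V → ℝ) :
    (∫ x, G x ∂μ) = ZLattice.covolume Λ μ *
      ∫ y, G ((b.ofZLatticeBasis ℝ Λ).equivFunL.symm y) := by
  let B := b.ofZLatticeBasis ℝ Λ
  let φ : V ≃L[ℝ] (ι → ℝ) := B.equivFunL
  let ν : Measure (ι → ℝ) := Measure.map φ μ
  have hν : ν.IsAddHaarMeasure := φ.isAddHaarMeasure_map μ
  have h1 : ν = ν (TopologicalSpace.PositiveCompacts.piIcc01 ι) • (volume : Measure (ι → ℝ)) := by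
    have h := Measure.addHaarMeasure_unique ν (TopologicalSpace.PositiveCompacts.piIcc01 ι)
    rwa [addHaarMeasure_eq_volume_pi] at h
  have h2 : ν (Set.pi Set.univ fun _ : ι => Set.Ico (0 : ℝ) 1) =
      ν (TopologicalSpace.PositiveCompacts.piIcc01 ι) := by
    conv_lhs => rw [h1]
    rw [Measure.smul_apply, Real.volume_pi_Ico]
    simp
  have h3 : ν (Set.pi Set.univ fun _ : ι => Set.Ico (0 : ℝ) 1) =
      μ (ZSpan.fundamentalDomain B) := by
    show Measure.map φ μ _ = _
    rw [Measure.map_apply φ.continuous.measurable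
      (MeasurableSet.univ_pi fun _ => measurableSet_Ico)]
    congr 1
    ext x
    rw [ZSpan.mem_fundamentalDomain, Set.mem_preimage, Set.mem_univ_pi]
    exact Iff.rfl
  have h4 : ZLattice.covolume Λ μ =
      (ν (TopologicalSpace.PositiveCompacts.piIcc01 ι)).toReal := by
    rw [ZLattice.covolume_eq_measure_fundamentalDomain Λ μ (ZLattice.isAddFundamentalDomain b μ),
      ← h2, h3]
    rfl
  have h5 : (∫ x, G x ∂μ) = ∫ y, G (φ.symm y) ∂ν := by
    show _ = ∫ y, G (φ.symm y) ∂(Measure.map φ μ)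
    rw [show (φ : V → (ι → ℝ)) = φ.toHomeomorph.toMeasurableEquiv from rfl,
      MeasureTheory.integral_map_equiv]
    refine integral_congr_ae (Filter.Eventually.of_forall fun x => ?_)
    show G x = G (φ.symm (φ x))
    rw [φ.symm_apply_apply]
  rw [h5, h1, integral_smul_measure, h4]
  rfl

private theorem zlat_coord {V : Type*} [NormedAddCommGroup V] [NormedSpace ℝ V]
    [FiniteDimensional ℝ V] (Λ : Submodule ℤ V) [DiscreteTopology Λ] [IsZLattice ℝ Λ]
    {ι : Type*} [Fintype ι] (b : Module.Basis ι ℤ Λ) (t : V) (R : ℝ) (e : ι → ℤ) :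
    R⁻¹ • (t + ((b.equivFun.symm e : Λ) : V)) = (b.ofZLatticeBasis ℝ Λ).equivFunL.symm
      (fun i => ((b.ofZLatticeBasis ℝ Λ).equivFunL t i + e i) / R) := by
  rw [← ContinuousLinearEquiv.symm_apply_apply (b.ofZLatticeBasis ℝ Λ).equivFunL
    (R⁻¹ • (t + ((b.equivFun.symm e : Λ) : V)))]
  congr 1
  ext i
  rw [map_smul, map_add, Pi.smul_apply, Pi.add_apply]
  have h1 : (b.ofZLatticeBasis ℝ Λ).equivFunL ((b.equivFun.symm e : Λ) : V) i = e i := by
    have h2 := b.ofZLatticeBasis_repr_apply ℝ Λ (b.equivFun.symm e) i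
    have h3 : b.repr (b.equivFun.symm e) i = e i := by
      have h4 := congrFun (b.equivFun.apply_symm_apply e) i
      exact h4
    rw [h3] at h2
    exact h2
  rw [h1, smul_eq_mul, inv_mul_eq_div]

open MeasureTheory in
/-- the same for a general lattice -/
theorem zlat_sum {V : Type*} [NormedAddCommGroup V] [NormedSpace ℝ V] [FiniteDimensional ℝ V]
    [MeasurableSpace V] [BorelSpace V] (μ : Measure V) [μ.IsAddHaarMeasure]
    (Λ : Submodule ℤ V) [DiscreteTopology Λ] [IsZLattice ℝ Λ] (G : V → ℝ) (C : NNReal)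
    (hG : LipschitzWith C G) (hc : HasCompactSupport G) :
    ∃ D : ℝ, ∀ (t : V) (R : ℝ), 1 ≤ R →
      |∑' x : Λ, G (R⁻¹ • (t + (x : V))) -
        R ^ Module.finrank ℝ V * ((∫ x, G x ∂μ) / ZLattice.covolume Λ μ)| ≤
        D * R ^ Module.finrank ℝ V / R := by
  have hfin : Module.Finite ℤ Λ := ZLattice.module_finite ℝ Λ
  have hfree : Module.Free ℤ Λ := ZLattice.module_free ℝ Λ
  let b := Module.Free.chooseBasis ℤ Λ
  let φ := (b.ofZLatticeBasis ℝ Λ).equivFunL.symm
  have hL : LipschitzWith (C * ‖(φ : (Module.Free.ChooseBasisIndex ℤ Λ → ℝ) →L[ℝ] V)‖₊)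
      (fun y => G (φ y)) :=
    hG.comp (φ : (Module.Free.ChooseBasisIndex ℤ Λ → ℝ) →L[ℝ] V).lipschitz
  have hS : HasCompactSupport (fun y => G (φ y)) :=
    hc.comp_homeomorph φ.toHomeomorph
  obtain ⟨D, hD⟩ := lat_sum (fun y => G (φ y)) _ hL hS
  refine ⟨D, fun t R hR => ?_⟩
  have h1 := hD ((b.ofZLatticeBasis ℝ Λ).equivFunL t) R hR
  have h2 : (∑' x : Λ, G (R⁻¹ • (t + (x : V)))) = ∑' e : Module.Free.ChooseBasisIndex ℤ Λ → ℤ,
      G (φ fun i => ((b.ofZLatticeBasis ℝ Λ).equivFunL t i + e i) / R) := by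
    rw [← b.equivFun.symm.toEquiv.tsum_eq (fun x : Λ => G (R⁻¹ • (t + (x : V))))]
    refine tsum_congr fun e => ?_
    exact congrArg G (zlat_coord Λ b t R e)
  have h3 : (∫ x, G x ∂μ) / ZLattice.covolume Λ μ = ∫ y, G (φ y) := by
    rw [zlat_integral μ Λ b G, mul_div_cancel_left₀ _ (ZLattice.covolume_ne_zero Λ μ)]
  rw [h2, h3, Module.finrank_eq_card_basis (b.ofZLatticeBasis ℝ Λ)]
  exact h1

theorem zlat_support_finite {V : Type*} [NormedAddCommGroup V] [NormedSpace ℝ V]
    [FiniteDimensional ℝ V] (Λ : Submodule ℤ V) [DiscreteTopology Λ] [IsZLattice ℝ Λ] (G : V → ℝ)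
    (hc : HasCompactSupport G) (t : V) (R : ℝ) (hR : 0 < R) :
    (Function.support fun x : Λ => G (R⁻¹ • (t + (x : V)))).Finite := by
  have hprop : ProperSpace V := FiniteDimensional.proper ℝ V
  obtain ⟨K, hK⟩ := hc.isCompact.isBounded.exists_norm_le
  have hclosed : IsClosed (Λ : Set V) := by
    have : DiscreteTopology Λ.toAddSubgroup := ‹DiscreteTopology Λ›
    exact AddSubgroup.isClosed_of_discrete (H := Λ.toAddSubgroup)
  have hdisc : IsDiscrete (Λ : Set V) := DiscreteTopology.isDiscrete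
  have hfin := Metric.finite_isBounded_inter_isClosed hdisc
    (Metric.isBounded_closedBall (x := (0 : V)) (r := K * R + ‖t‖)) hclosed
  refine Set.Finite.of_finite_image (f := fun x : Λ => (x : V)) (hfin.subset ?_)
    Subtype.val_injective.injOn
  rintro _ ⟨x, hx, rfl⟩
  refine ⟨?_, x.2⟩
  rw [mem_closedBall_zero_iff]
  have h1 := hK _ (subset_tsupport G hx)
  rw [norm_smul, norm_inv, Real.norm_of_nonneg hR.le, inv_mul_le_iff₀ hR] at h1
  have h2 : ‖(x : V)‖ ≤ ‖t + (x : V)‖ + ‖t‖ := by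
    have := norm_sub_le (t + (x : V)) t
    rwa [add_sub_cancel_left] at this
  linarith

end Pool.Agent.Lib.MP_1a91b9_nuT.CF
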