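import Mathlib

/-! # CF: a linear relation between characters

PROOF (complete; job of helper29, see team-store bsd_D_doc_CF.md):
The map Lambda : B -> (J -> ZMod ell), x -> (c_j x), kills A cap B, so its image is a subgroup (=
subspace) with at most relIndex = ell^(s-1) elements (s = card J >= 1 as relIndex * ell = ell^s),
a proper subspace of (ZMod ell)^J; a nonzero linear form r vanishes on it (Submodule.exists_le_
ker_of_lt_top), r(e) = sum_j r_j e_j.
-/

set_option autoImplicit false

namespace Pool.Agent.Lib.MP_1a91b9_nuT.CF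

/-- characters with values in `ZMod ℓ` which kill a subgroup of index less than `ℓ ^ s` are
linearly dependent, `s` their number -/
theorem exists_relation {G : Type*} [AddCommGroup G] (ℓ : ℕ) [Fact ℓ.Prime] {J : Type*} [Fintype J]
    (c : J → (G →+ ZMod ℓ)) (A B : AddSubgroup G) (hA : ∀ j, ∀ x ∈ A, c j x = 0)
    (hi : A.relIndex B * ℓ = ℓ ^ Fintype.card J) :
    ∃ r : J → ZMod ℓ, r ≠ 0 ∧ ∀ x ∈ B, ∑ j, r j * c j x = 0 := by
  classical
  have hℓ : 1 < ℓ := (Fact.out : ℓ.Prime).one_lt
  -- the map of all characters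
  let Λ : G →+ (J → ZMod ℓ) := AddMonoidHom.pi c
  have hΛ : ∀ x j, Λ x j = c j x := fun x j => rfl
  let V : AddSubgroup (J → ZMod ℓ) := AddSubgroup.map Λ B
  let W : Submodule (ZMod ℓ) (J → ZMod ℓ) := AddSubgroup.toZModSubmodule ℓ V
  -- cardinality
  have hcard : Nat.card V ≤ A.relIndex B := by
    have h1 : Nat.card V = (Λ.comp B.subtype).ker.index := by
      have e1 : (Λ.comp B.subtype).range = V := by
        rw [AddMonoidHom.range_comp, AddSubgroup.range_subtype]
      rw [← e1, AddSubgroup.index_ker]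
    rw [h1]
    have hle : A.addSubgroupOf B ≤ (Λ.comp B.subtype).ker := by
      intro x hx
      rw [AddSubgroup.mem_addSubgroupOf] at hx
      rw [AddMonoidHom.mem_ker]
      funext j
      exact hA j _ hx
    have hne : (A.addSubgroupOf B).index ≠ 0 := by
      intro h0
      have h2 : A.relIndex B = 0 := h0
      rw [h2, zero_mul] at hi
      exact (pow_pos (by omega : 0 < ℓ) _).ne hi
    exact Nat.le_of_dvd (Nat.pos_of_ne_zero hne) (AddSubgroup.index_dvd_of_le hle)
  have hlt : Nat.card V < Nat.card (J → ZMod ℓ) := by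
    have h2 : Nat.card (J → ZMod ℓ) = ℓ ^ Fintype.card J := by
      rw [Nat.card_fun, Nat.card_zmod, Nat.card_eq_fintype_card]
    rw [h2, ← hi]
    have h3 : 0 < A.relIndex B := by
      rcases Nat.eq_zero_or_pos (A.relIndex B) with h0 | h0
      · rw [h0, zero_mul] at hi
        exact absurd hi (pow_pos (by omega : 0 < ℓ) _).ne
      · exact h0
    nlinarith
  have hW : W < ⊤ := by
    rw [lt_top_iff_ne_top]
    intro h0
    apply absurd hlt
    rw [not_lt]
    have h1 : V = ⊤ := by
      ext x
      refine ⟨fun _ => trivial, fun _ => ?_⟩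
      have h2 : x ∈ W := by rw [h0]; trivial
      exact h2
    rw [h1, AddSubgroup.card_top]
  obtain ⟨f, hf, hfW⟩ := Submodule.exists_le_ker_of_lt_top W hW
  refine ⟨fun j => f (Pi.single j 1), ?_, ?_⟩
  · intro h0
    apply hf
    apply LinearMap.pi_ext'
    intro j
    ext
    simpa using congrFun h0 j
  · intro x hx
    have h1 : Λ x ∈ W := AddSubgroup.mem_map_of_mem Λ hx
    have h2 : f (Λ x) = 0 := hfW h1
    rw [← h2]
    conv_rhs => rw [← Finset.univ_sum_single (Λ x), map_sum]
    refine Finset.sum_congr rfl fun j _ => ?_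
    have h3 : (Pi.single j (Λ x j) : J → ZMod ℓ) = (c j x) • Pi.single j 1 := by
      rw [← Pi.single_smul, smul_eq_mul, mul_one, hΛ]
    rw [h3, map_smul, smul_eq_mul, mul_comm]

end Pool.Agent.Lib.MP_1a91b9_nuT.CF
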