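import Pool.Agent.Lib.MP_1a91b9_nuT.CF.OrdExt

/-! # CF: the local character at a tamely ramified place

PROOF (complete; job of helper29, see team-store bsd_D_doc_CF.md):
Let Q be the unique place above v: e = ell, f = 1, every element of G = Gal(L/k) fixes Q and acts
trivially on O_L/Q = O_k/v (every x in O_L is congruent to an element of O_k modulo Q).
tame_moves: suppose sigma varpi - varpi in Q^2. Then sigma acts trivially on Q^i/Q^(i+1) for all i
(generated by varpi^i over O_k/v). There is a largest j with sigma x - x in Q^j for all x in O_L (as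
sigma <> 1; intersection of the Q^j is 0). Choose x with y = sigma x - x not in Q^(j+1). Then sigma^m x
- x = m y mod Q^(j+1) for all m (induction, sigma y = y mod Q^(j+1)), so 0 = ell y mod Q^(j+1), ell not
in Q: contradiction. (Work in the localization at Q, or with the valuation.)
tame_norm: c = class of sigma(varpi)/varpi in the residue field (a Q-unit): c <> 1 by tame_moves;
sigma^i(varpi)/varpi = product of conjugates of sigma(varpi)/varpi, each congruent to c, so c^ell = 1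
(sigma^ell = 1). So c has order ell in the group (O_L/Q)^x of order nrm v - 1.
loc_ram: pi = N(varpi): ord_v = f ord_Q(varpi) = 1. For y in k^x: y pi^(-ord_v y) is a v-unit with a
class in (O_k/v)^x; this defines a homomorphism k^x -> (O_k/v)^x; compose with a surjective homomorphism
(O_k/v)^x -> ZMod ell (cyclic group of order divisible by ell, kernel = ell-th powers). Kills norms:
y = varpi^i u, N y = pi^i N(u), N(u) = prod sigma(u) = u^ell modulo Q, and the residue of u is the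
class of an element of O_k, so the class of N(u) is an ell-th power. Second property: z = 1 mod v.
Third: take z prime to v whose class is a generator of (O_k/v)^x.
-/

set_option autoImplicit false

namespace Pool.Agent.Lib.MP_1a91b9_nuT.CF

variable [CD]

open NumberField IsDedekindDomain UniqueFactorizationMonoid Pool.Agent.Lib.MP_1a91b9_nt S4

universe u

section
variable {S : Type*} [CommRing S] [IsDedekindDomain S]

omit [IsDedekindDomain S] in
private theorem locram_pow_sub {I : Ideal S} {a b : S} (ha : a ∈ I) (hb : b ∈ I)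
    (h : a - b ∈ I ^ 2) (i : ℕ) (hi : 1 ≤ i) : a ^ i - b ^ i ∈ I ^ (i + 1) := by
  obtain ⟨j, rfl⟩ : ∃ j, i = j + 1 := ⟨i - 1, by omega⟩
  clear hi
  induction j with
  | zero => simpa using h
  | succ j ih =>
    have e : a ^ (j + 1 + 1) - b ^ (j + 1 + 1) =
        a * (a ^ (j + 1) - b ^ (j + 1)) + (a - b) * b ^ (j + 1) := by ring
    rw [e]
    refine add_mem ?_ ?_
    · rw [pow_succ', mul_comm I]
      exact mul_comm a _ ▸ Ideal.mul_mem_mul ih ha
    · have : I ^ (j + 1 + 1 + 1) = I ^ 2 * I ^ (j + 1) := by rw [← pow_add]; congr 1; ring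
      rw [this]
      exact Ideal.mul_mem_mul h (Ideal.pow_mem_pow hb _)

omit [IsDedekindDomain S] in
private theorem locram_pow_mem {Q : Ideal S} (σ : S →+* S) (hQ : ∀ x ∈ Q, σ x ∈ Q) (n : ℕ) (x : S)
    (hx : x ∈ Q ^ n) : σ x ∈ Q ^ n := by
  have h1 : Q.map σ ≤ Q := Ideal.map_le_iff_le_comap.mpr hQ
  have h2 : (Q ^ n).map σ ≤ Q ^ n := by
    rw [Ideal.map_pow]
    exact Ideal.pow_right_mono h1 n
  exact h2 (Ideal.mem_map_of_mem σ hx)

private theorem locram_graded {Q : Ideal S} [Q.IsPrime] (hQ0 : Q ≠ ⊥) (σ : S →+* S)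
    (hQ : ∀ x ∈ Q, σ x ∈ Q) (hres : ∀ x, σ x - x ∈ Q) {ϖ : S} (h1 : ϖ ∈ Q) (h2 : ϖ ∉ Q ^ 2)
    (h : σ ϖ - ϖ ∈ Q ^ 2) : ∀ (i : ℕ), 1 ≤ i → ∀ x ∈ Q ^ i, σ x - x ∈ Q ^ (i + 1) := by
  intro i
  induction i with
  | zero => intro hi; omega
  | succ i ih =>
    intro _ x hx
    rcases Nat.eq_zero_or_pos i with hi | hi
    · subst hi
      have hx1 : x ∈ Q ^ 1 := hx
      obtain ⟨d, e, he, hde⟩ := Ideal.exists_mul_add_mem_pow_succ (P := Q) hQ0 (i := 1) ϖ x
        (by simpa using h1) h2 hx1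
      have e1 : σ x - x = (σ ϖ - ϖ) * σ d + ϖ * (σ d - d) + (σ e - e) := by
        rw [← hde, map_add, map_mul]; ring
      rw [e1]
      refine add_mem (add_mem ?_ ?_) ?_
      · exact Ideal.mul_mem_right _ _ h
      · rw [show (0 + 1 + 1) = 2 from rfl, sq]
        exact Ideal.mul_mem_mul h1 (hres d)
      · exact sub_mem (locram_pow_mem σ hQ _ e he) he
    · have hQtop : Q ≠ ⊤ := Ideal.IsPrime.ne_top inferInstance
      have hx' : x ∈ Q ^ (i + 1) := hx
      -- `ϖ ^ (i+1)` is not in `Q ^ (i+2)`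
      have hnot : ∀ j : ℕ, ϖ ^ j ∉ Q ^ (j + 1) := by
        intro j
        induction j with
        | zero => simpa using (Ideal.ne_top_iff_one Q).mp hQtop
        | succ j ihj =>
          intro hj
          have e3 : ϖ ^ (j + 1) = ϖ ^ j * ϖ := pow_succ _ _
          have e4 : Q ^ (j + 1 + 1) ≤ Q ^ (j + 1) * Q := by rw [← pow_succ]
          -- use exact order
          have hmul : ¬ (Q ^ (j + 1 + 1) ∣ Ideal.span {ϖ ^ (j + 1)}) := by
            intro hd
            have hp : Prime Q := Ideal.prime_of_isPrime hQ0 inferInstance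
            have h5 : Ideal.span {ϖ ^ (j + 1)} = Ideal.span {ϖ ^ j} * Ideal.span {ϖ} := by
              rw [Ideal.span_singleton_mul_span_singleton, e3]
            rw [h5] at hd
            have h6 : Q ∣ Ideal.span {ϖ} := Ideal.dvd_span_singleton.mpr h1
            obtain ⟨c, hc⟩ := h6
            have h7 : ¬ Q ∣ c := by
              rintro ⟨c', rfl⟩
              apply h2
              rw [← Ideal.dvd_span_singleton, hc, sq]
              exact ⟨c', by ring⟩
            have h8 : Q ^ (j + 1) ∣ Ideal.span {ϖ ^ j} * c := by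
              have : Q ^ (j + 1 + 1) ∣ Q * (Ideal.span {ϖ ^ j} * c) := by
                convert hd using 1
                rw [hc]; ring
              rw [pow_succ'] at this
              exact (mul_dvd_mul_iff_left hQ0).mp this
            have h9 : Q ^ (j + 1) ∣ Ideal.span {ϖ ^ j} :=
              (hp.pow_dvd_of_dvd_mul_right _ h7 h8)
            exact ihj (Ideal.dvd_span_singleton.mp h9)
          exact hmul (Ideal.dvd_span_singleton.mpr hj)
      obtain ⟨d, e, he, hde⟩ := Ideal.exists_mul_add_mem_pow_succ (P := Q) hQ0 (i := i + 1)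
        (ϖ ^ (i + 1)) x (Ideal.pow_mem_pow h1 _) (hnot _) hx'
      have e1 : σ x - x = (σ ϖ ^ (i + 1) - ϖ ^ (i + 1)) * σ d + ϖ ^ (i + 1) * (σ d - d) +
          (σ e - e) := by
        rw [← hde, map_add, map_mul, map_pow]; ring
      rw [e1]
      refine add_mem (add_mem ?_ ?_) ?_
      · exact Ideal.mul_mem_right _ _ (locram_pow_sub (hQ _ h1) h1 h _ (by omega))
      · rw [pow_succ Q (i + 1)]
        exact Ideal.mul_mem_mul (Ideal.pow_mem_pow h1 _) (hres d)
      · exact sub_mem (locram_pow_mem σ hQ _ e he) he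

private theorem locram_moves {Q : Ideal S} [Q.IsPrime] (hQ0 : Q ≠ ⊥) (σ : S →+* S) (ℓ : ℕ)
    (hℓ : (ℓ : S) ∉ Q) (hQ : ∀ x ∈ Q, σ x ∈ Q) (hres : ∀ x, σ x - x ∈ Q)
    (hord : ∀ x, σ^[ℓ] x = x) {ϖ : S} (h1 : ϖ ∈ Q) (h2 : ϖ ∉ Q ^ 2)
    (h : σ ϖ - ϖ ∈ Q ^ 2) (x : S) : σ x = x := by
  have key : ∀ j : ℕ, ∀ x, σ x - x ∈ Q ^ (j + 1) := by
    intro j
    induction j with
    | zero => intro x; simpa using hres x
    | succ j ih =>
      intro x
      set y := σ x - x with hy
      have hyj : y ∈ Q ^ (j + 1) := ih x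
      have hsy : σ y - y ∈ Q ^ (j + 1 + 1) :=
        locram_graded hQ0 σ hQ hres h1 h2 h (j + 1) (by omega) y hyj
      have hm : ∀ m : ℕ, σ^[m] x - x - m * y ∈ Q ^ (j + 1 + 1) := by
        intro m
        induction m with
        | zero => simp
        | succ m ihm =>
          rw [Function.iterate_succ', Function.comp_apply]
          have e : σ (σ^[m] x) - x - ((m + 1 : ℕ) : S) * y =
              σ (σ^[m] x - x - m * y) + m * (σ y - y) := by
            rw [map_sub, map_sub, map_mul, map_natCast]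
            push_cast
            rw [hy]
            ring
          rw [e]
          exact add_mem (locram_pow_mem σ hQ _ _ ihm) (Ideal.mul_mem_left _ _ hsy)
      have h5 := hm ℓ
      rw [hord x, sub_self, zero_sub, neg_mem_iff] at h5
      rcases Ideal.IsPrime.mul_mem_pow Q h5 with h6 | h6
      · exact absurd h6 hℓ
      · exact h6
  have hbot : σ x - x ∈ (⨅ i, Q ^ i : Ideal S) := by
    rw [Ideal.mem_iInf]
    intro i
    rcases i with _ | i
    · simp
    · exact key i x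
  rw [Ideal.iInf_pow_eq_bot_of_isDomain Q (Ideal.IsPrime.ne_top inferInstance), Ideal.mem_bot,
    sub_eq_zero] at hbot
  exact hbot

private theorem locram_root {Q : Ideal S} [Q.IsPrime] (hQ0 : Q ≠ ⊥) (σ : S →+* S) (ℓ : ℕ)
    (hQ : ∀ x ∈ Q, σ x ∈ Q) (hres : ∀ x, σ x - x ∈ Q)
    (hord : ∀ x, σ^[ℓ] x = x) {ϖ : S} (h1 : ϖ ∈ Q) (h2 : ϖ ∉ Q ^ 2)
    (h : σ ϖ - ϖ ∉ Q ^ 2) : ∃ d : S, d - 1 ∉ Q ∧ d ^ ℓ - 1 ∈ Q := by
  obtain ⟨d, e, he, hde⟩ := Ideal.exists_mul_add_mem_pow_succ (P := Q) hQ0 (i := 1) ϖ (σ ϖ)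
    (by simpa using h1) h2 (by simpa using hQ _ h1)
  have he2 : e ∈ Q ^ 2 := he
  refine ⟨d, ?_, ?_⟩
  · intro hd
    apply h
    have : σ ϖ - ϖ = ϖ * (d - 1) + e := by rw [← hde]; ring
    rw [this]
    refine add_mem ?_ he2
    rw [sq]
    exact Ideal.mul_mem_mul h1 hd
  · have hm : ∀ m : ℕ, σ^[m] ϖ - d ^ m * ϖ ∈ Q ^ 2 := by
      intro m
      induction m with
      | zero => simp
      | succ m ih =>
        rw [Function.iterate_succ', Function.comp_apply]
        have e1 : σ (σ^[m] ϖ) - d ^ (m + 1) * ϖ =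
            σ (σ^[m] ϖ - d ^ m * ϖ) + (σ (d ^ m) - d ^ m) * σ ϖ + d ^ m * e := by
          rw [map_sub, map_mul]
          have : σ ϖ = ϖ * d + e := hde.symm
          rw [this]
          ring
        rw [e1]
        refine add_mem (add_mem (locram_pow_mem σ hQ _ _ ih) ?_) (Ideal.mul_mem_left _ _ he2)
        rw [sq]
        exact Ideal.mul_mem_mul (hres _) (hQ _ h1)
    have h5 := hm ℓ
    rw [hord] at h5
    have h6 : (d ^ ℓ - 1) * ϖ ∈ Q ^ 2 := by
      have : (d ^ ℓ - 1) * ϖ = -(ϖ - d ^ ℓ * ϖ) := by ring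
      rw [this]
      exact neg_mem h5
    rcases Ideal.IsPrime.mul_mem_pow Q h6 with h7 | h7
    · exact h7
    · exact absurd h7 h2
end

section
variable (k L : Type u) [Field k] [NumberField k] [Field L] [NumberField L] [Algebra k L]
  [IsGalois k L] (ℓ : ℕ) [Fact ℓ.Prime]

/-- the action on the integers as a ring homomorphism -/
private noncomputable def locramHom (σ : Gal(L/k)) : 𝓞 L →+* 𝓞 L :=
  MulSemiringAction.toRingHom Gal(L/k) (𝓞 L) σ

private theorem locram_hom_iter (σ : Gal(L/k)) (m : ℕ) (x : 𝓞 L) :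
    (locramHom k L σ)^[m] x = (σ ^ m) • x := by
  induction m with
  | zero => simp
  | succ m ih =>
    rw [Function.iterate_succ', Function.comp_apply, ih, pow_succ', mul_smul]
    rfl

private theorem locram_hom_algebraMap (σ : Gal(L/k)) (a : 𝓞 k) :
    locramHom k L σ (algebraMap (𝓞 k) (𝓞 L) a) = algebraMap (𝓞 k) (𝓞 L) a := by
  change σ • (algebraMap (𝓞 k) (𝓞 L) a) = _
  apply RingOfIntegers.coe_injective
  change σ (((algebraMap (𝓞 k) (𝓞 L) a : 𝓞 L)) : L) = ((algebraMap (𝓞 k) (𝓞 L) a : 𝓞 L) : L)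
  have e : ((algebraMap (𝓞 k) (𝓞 L) a : 𝓞 L) : L) = algebraMap k L (a : k) := rfl
  rw [e, AlgEquiv.commutes]

private theorem locram_data (hdeg : Module.finrank k L = ℓ) (v : HeightOneSpectrum (𝓞 k))
    (hr : Ram L v) (Q : HeightOneSpectrum (𝓞 L)) (hQ : Q.under (𝓞 k) = v) (σ : Gal(L/k)) :
    (∀ x ∈ Q.asIdeal, locramHom k L σ x ∈ Q.asIdeal) ∧
    (∀ x, locramHom k L σ x - x ∈ Q.asIdeal) ∧ nrm Q = nrm v := by
  have hQv : Q.asIdeal.under (𝓞 k) = v.asIdeal := congrArg HeightOneSpectrum.asIdeal hQ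
  obtain ⟨hcard, hall⟩ : Fintype.card (Over L v) = 1 ∧ ∀ w : Over L v,
      w.1.asIdeal.ramificationIdx (𝓞 k) = ℓ ∧ w.1.asIdeal.inertiaDeg (𝓞 k) = 1 := by
    rcases trichotomy k L ℓ hdeg v with h | h | h
    · exact ⟨h.2.2.1, h.2.2.2⟩
    · exact absurd hr h.1
    · exact absurd hr h.1
  have hf : Q.asIdeal.inertiaDeg (𝓞 k) = 1 := (hall ⟨Q, hQv⟩).2
  have hlo : Q.asIdeal.LiesOver v.asIdeal := ⟨hQv.symm⟩
  have hQp : Q.asIdeal.IsPrime := Q.isPrime
  have hQm : Q.asIdeal.IsMaximal := Q.isMaximal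
  have hvm : v.asIdeal.IsMaximal := v.isMaximal
  have hn : nrm Q = nrm v := by
    rw [nrm_eq, nrm_eq, ← Ideal.absNorm_pow_inertiaDeg v.asIdeal Q.asIdeal, hf, pow_one]
  have hcomap : Ideal.comap (locramHom k L σ) Q.asIdeal = Q.asIdeal := by
    have hinj : Function.Injective (locramHom k L σ) := by
      intro x y hxy
      exact MulAction.injective σ hxy
    have hprime : (Ideal.comap (locramHom k L σ) Q.asIdeal).IsPrime := Ideal.comap_isPrime _ _
    have hunder : (Ideal.comap (locramHom k L σ) Q.asIdeal).under (𝓞 k) = v.asIdeal := by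
      rw [Ideal.under, Ideal.comap_comap]
      have : (locramHom k L σ).comp (algebraMap (𝓞 k) (𝓞 L)) = algebraMap (𝓞 k) (𝓞 L) :=
        RingHom.ext fun a => locram_hom_algebraMap k L σ a
      rw [this]
      exact hQv
    have hne : Ideal.comap (locramHom k L σ) Q.asIdeal ≠ ⊥ := by
      intro h
      rw [h, Ideal.under] at hunder
      apply v.ne_bot
      rw [← hunder]
      exact Ideal.comap_bot_of_injective _ (FaithfulSMul.algebraMap_injective (𝓞 k) (𝓞 L))
    have hsub : Subsingleton (Over L v) := Fintype.card_le_one_iff_subsingleton.mp hcard.le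
    have h1 : (⟨⟨_, hprime, hne⟩, hunder⟩ : Over L v) = ⟨Q, hQv⟩ := Subsingleton.elim _ _
    exact congrArg (fun w : Over L v => w.1.asIdeal) h1
  have hmem : ∀ x ∈ Q.asIdeal, locramHom k L σ x ∈ Q.asIdeal := by
    intro x hx
    rw [← hcomap] at hx
    exact hx
  refine ⟨hmem, fun x => ?_, hn⟩
  -- surjectivity on residue fields
  have hsurj : Function.Surjective (algebraMap (𝓞 k ⧸ v.asIdeal) (𝓞 L ⧸ Q.asIdeal)) := by
    have hfin1 : Finite (𝓞 k ⧸ v.asIdeal) := Ideal.finiteQuotientOfFreeOfNeBot _ v.ne_bot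
    have hfin2 : Finite (𝓞 L ⧸ Q.asIdeal) := Ideal.finiteQuotientOfFreeOfNeBot _ Q.ne_bot
    have hfield : Field (𝓞 k ⧸ v.asIdeal) := Ideal.Quotient.field _
    have hinj : Function.Injective (algebraMap (𝓞 k ⧸ v.asIdeal) (𝓞 L ⧸ Q.asIdeal)) :=
      FaithfulSMul.algebraMap_injective _ _
    have hc : Nat.card (𝓞 k ⧸ v.asIdeal) = Nat.card (𝓞 L ⧸ Q.asIdeal) := by
      have := hn
      rw [nrm_eq, nrm_eq, Ideal.absNorm_apply, Ideal.absNorm_apply, Submodule.cardQuot_apply,
        Submodule.cardQuot_apply] at this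
      exact this.symm
    exact (hinj.bijective_of_nat_card_le hc.ge).2
  obtain ⟨a', ha'⟩ := hsurj (Ideal.Quotient.mk Q.asIdeal x)
  obtain ⟨a, rfl⟩ := Ideal.Quotient.mk_surjective a'
  have ha : x - algebraMap (𝓞 k) (𝓞 L) a ∈ Q.asIdeal := by
    rw [← Ideal.Quotient.eq, ← ha']
    rfl
  have e : locramHom k L σ x - x =
      locramHom k L σ (x - algebraMap (𝓞 k) (𝓞 L) a) - (x - algebraMap (𝓞 k) (𝓞 L) a) := by
    rw [map_sub, locram_hom_algebraMap]
    ring
  rw [e]
  exact sub_mem (hmem _ ha) ha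

private theorem locram_ell (v : HeightOneSpectrum (𝓞 k)) (ht : (ℓ : 𝓞 k) ∉ v.asIdeal)
    (Q : HeightOneSpectrum (𝓞 L)) (hQ : Q.under (𝓞 k) = v) : (ℓ : 𝓞 L) ∉ Q.asIdeal := by
  have hQv : Q.asIdeal.under (𝓞 k) = v.asIdeal := congrArg HeightOneSpectrum.asIdeal hQ
  intro h
  apply ht
  rw [← hQv]
  change algebraMap (𝓞 k) (𝓞 L) ℓ ∈ Q.asIdeal
  rwa [map_natCast]

private theorem locram_iter (hdeg : Module.finrank k L = ℓ) (σ : Gal(L/k)) (x : 𝓞 L) :
    (locramHom k L σ)^[ℓ] x = x := by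
  have h1 : σ ^ ℓ = 1 := by
    rw [← hdeg, ← IsGalois.card_aut_eq_finrank]
    exact pow_card_eq_one'
  rw [locram_hom_iter, h1, one_smul]

/-- tame inertia: a generator moves a uniformizer modulo `Q ^ 2` -/
theorem tame_moves (hdeg : Module.finrank k L = ℓ) (v : HeightOneSpectrum (𝓞 k)) (hr : Ram L v)
    (ht : (ℓ : 𝓞 k) ∉ v.asIdeal) (Q : HeightOneSpectrum (𝓞 L)) (hQ : Q.under (𝓞 k) = v)
    (σ : Gal(L/k)) (hσ : σ ≠ 1) (ϖ : 𝓞 L) (h1 : ϖ ∈ Q.asIdeal) (h2 : ϖ ∉ Q.asIdeal ^ 2) :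
    σ • ϖ - ϖ ∉ Q.asIdeal ^ 2 := by
  intro h
  have hQp : Q.asIdeal.IsPrime := Q.isPrime
  obtain ⟨hd1, hd2, -⟩ := locram_data k L ℓ hdeg v hr Q hQ σ
  have hfix := locram_moves (Q := Q.asIdeal) Q.ne_bot (locramHom k L σ) ℓ
    (locram_ell k L ℓ v ht Q hQ) hd1 hd2 (locram_iter k L ℓ hdeg σ) h1 h2 h
  apply hσ
  ext x
  rw [AlgEquiv.one_apply]
  obtain ⟨a, b, -, rfl⟩ := IsFractionRing.div_surjective (A := 𝓞 L) x
  have key : ∀ a : 𝓞 L, σ (algebraMap (𝓞 L) L a) = algebraMap (𝓞 L) L a := fun a =>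
    congrArg (algebraMap (𝓞 L) L) (hfix a)
  rw [map_div₀, key, key]

/-- the norm of a tamely ramified place is `1` modulo `ℓ` -/
theorem tame_norm (hdeg : Module.finrank k L = ℓ) (v : HeightOneSpectrum (𝓞 k)) (hr : Ram L v)
    (ht : (ℓ : 𝓞 k) ∉ v.asIdeal) : ℓ ∣ nrm v - 1 := by
  classical
  -- a place above `v`
  have hcard : Fintype.card (Over L v) = 1 := by
    rcases trichotomy k L ℓ hdeg v with h | h | h
    · exact h.2.2.1
    · exact absurd hr h.1
    · exact absurd hr h.1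
  obtain ⟨w, -⟩ := Fintype.card_eq_one_iff.mp hcard
  obtain ⟨Q, hQv⟩ := w
  have hQ : Q.under (𝓞 k) = v := HeightOneSpectrum.ext hQv
  have hQp : Q.asIdeal.IsPrime := Q.isPrime
  have hQm : Q.asIdeal.IsMaximal := Q.isMaximal
  -- a uniformizer
  obtain ⟨ϖ, h1, h2⟩ : ∃ ϖ ∈ Q.asIdeal, ϖ ∉ Q.asIdeal ^ 2 := by
    have hlt : Q.asIdeal ^ 2 < Q.asIdeal ^ 1 :=
      Ideal.pow_right_strictAnti Q.asIdeal Q.ne_bot hQp.ne_top (by norm_num)
    rw [pow_one] at hlt
    exact SetLike.exists_of_lt hlt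
  -- a nontrivial automorphism
  have hℓ : ℓ.Prime := Fact.out
  have hG : Nat.card Gal(L/k) = ℓ := by rw [IsGalois.card_aut_eq_finrank, hdeg]
  have hfin : Finite Gal(L/k) := Nat.finite_of_card_ne_zero (by rw [hG]; exact hℓ.ne_zero)
  have hnt : Nontrivial Gal(L/k) := Finite.one_lt_card_iff_nontrivial.mp (by rw [hG]; exact hℓ.one_lt)
  obtain ⟨σ, hσ⟩ := exists_ne (1 : Gal(L/k))
  obtain ⟨hd1, hd2, hn⟩ := locram_data k L ℓ hdeg v hr Q hQ σ
  have hmv := tame_moves k L ℓ hdeg v hr ht Q hQ σ hσ ϖ h1 h2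
  obtain ⟨d, hd, hdℓ⟩ := locram_root (Q := Q.asIdeal) Q.ne_bot (locramHom k L σ) ℓ
    hd1 hd2 (locram_iter k L ℓ hdeg σ) h1 h2 hmv
  -- in the residue field
  letI : Field (𝓞 L ⧸ Q.asIdeal) := Ideal.Quotient.field _
  have hfin2 : Finite (𝓞 L ⧸ Q.asIdeal) := Ideal.finiteQuotientOfFreeOfNeBot _ Q.ne_bot
  have : Fintype (𝓞 L ⧸ Q.asIdeal) := Fintype.ofFinite _
  set δ : 𝓞 L ⧸ Q.asIdeal := Ideal.Quotient.mk Q.asIdeal d with hδ
  have e1 : δ ^ ℓ = 1 := by
    rw [hδ, ← map_pow, ← map_one (Ideal.Quotient.mk Q.asIdeal), Ideal.Quotient.eq]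
    exact hdℓ
  have e2 : δ ≠ 1 := by
    rw [hδ, ← map_one (Ideal.Quotient.mk Q.asIdeal), Ne, Ideal.Quotient.eq]
    exact hd
  have e3 : orderOf δ = ℓ := orderOf_eq_prime e1 e2
  have e0 : δ ≠ 0 := by
    rintro h0
    rw [h0, zero_pow hℓ.ne_zero] at e1
    exact zero_ne_one e1
  have e4 : orderOf (Units.mk0 δ e0) = ℓ := by
    rw [← e3, ← orderOf_units]
    rfl
  have e5 : ℓ ∣ Fintype.card (𝓞 L ⧸ Q.asIdeal)ˣ := by
    rw [← e4]
    exact orderOf_dvd_card
  rw [Fintype.card_units] at e5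
  have e6 : Fintype.card (𝓞 L ⧸ Q.asIdeal) = nrm v := by
    rw [← hn, nrm_eq, Ideal.absNorm_apply, Submodule.cardQuot_apply, Nat.card_eq_fintype_card]
  rwa [e6] at e5

end

open NumberField IsDedekindDomain UniqueFactorizationMonoid Pool.Agent.Lib.MP_1a91b9_nt S4

section
variable {F : Type u} [Field F] [NumberField F]

private theorem locram_val (w : HeightOneSpectrum (𝓞 F)) (y : Fˣ) :
    w.valuation F (y : F) = WithZero.exp (-(ord w (Additive.ofMul y))) := by
  rw [← HeightOneSpectrum.valuationOfNeZero_eq]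
  have h : ord w (Additive.ofMul y) = -(Multiplicative.toAdd (w.valuationOfNeZero (K := F) y)) :=
    rfl
  rw [h, neg_neg]
  rfl

private theorem locram_lt (w : HeightOneSpectrum (𝓞 F)) (y : Fˣ) :
    w.valuation F (y : F) < 1 ↔ 0 < ord w (Additive.ofMul y) := by
  rw [locram_val, ← WithZero.exp_zero, WithZero.exp_lt_exp]
  omega

private theorem locram_one (w : HeightOneSpectrum (𝓞 F)) (y : Fˣ) :
    w.valuation F (y : F) = 1 ↔ ord w (Additive.ofMul y) = 0 := by
  rw [locram_val, ← WithZero.exp_zero, WithZero.exp_inj]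
  omega

private theorem locram_int (w : HeightOneSpectrum (𝓞 F)) (z : 𝓞 F) (hz : z ∉ w.asIdeal) (y : Fˣ)
    (hy : (y : F) = (z : F)) : ord w (Additive.ofMul y) = 0 := by
  have h1 := mt (ord_pos_iff w z y hy).1 hz
  have h2 := ord_int w z y hy
  omega

omit [NumberField F] in
private theorem locram_prod (V : Valuation F (WithZero (Multiplicative ℤ))) {ι : Type*}
    (s : Finset ι) (x : ι → F) (a : F) (ha : V a ≤ 1) (hx : ∀ i ∈ s, V (x i - a) < 1) :
    V (∏ i ∈ s, x i - a ^ s.card) < 1 := by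
  classical
  induction s using Finset.induction_on with
  | empty => simp
  | insert j s hj ih =>
    have h1 := ih fun i hi => hx i (Finset.mem_insert_of_mem hi)
    have h2 := hx j (Finset.mem_insert_self _ _)
    have hP : V (∏ i ∈ s, x i) ≤ 1 := by
      have h3 : ∏ i ∈ s, x i = (∏ i ∈ s, x i - a ^ s.card) + a ^ s.card := by ring
      rw [h3]
      refine (Valuation.map_add _ _ _).trans (max_le h1.le ?_)
      rw [map_pow]
      exact pow_le_one' ha _
    rw [Finset.prod_insert hj, Finset.card_insert_of_notMem hj]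
    have h4 : x j * ∏ i ∈ s, x i - a ^ (s.card + 1) =
        (x j - a) * (∏ i ∈ s, x i) + a * (∏ i ∈ s, x i - a ^ s.card) := by ring
    rw [h4]
    refine (Valuation.map_add _ _ _).trans_lt (max_lt ?_ ?_)
    · rw [map_mul]
      exact (mul_le_mul' le_rfl hP).trans_lt (by rwa [mul_one])
    · rw [map_mul]
      exact (mul_le_mul' ha le_rfl).trans_lt (by rwa [one_mul])

private theorem locram_psi (R : Type*) [Field R] [Finite R] (ℓ : ℕ) [Fact ℓ.Prime]
    (h : ℓ ∣ Nat.card R - 1) :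
    ∃ (ψ : Additive Rˣ →+ ZMod ℓ) (γ : Rˣ), ψ (Additive.ofMul γ) ≠ 0 := by
  have hc : Nat.card (Additive Rˣ) = Nat.card R - 1 := Nat.card_units R
  have h' : ℓ ∣ Nat.card (Additive Rˣ) := by rw [hc]; exact h
  let e : ZMod (Nat.card (Additive Rˣ)) ≃+ Additive Rˣ := zmodAddCyclicAddEquiv inferInstance
  refine ⟨(ZMod.castHom h' (ZMod ℓ)).toAddMonoidHom.comp e.symm.toAddMonoidHom,
    Additive.toMul (e 1), ?_⟩
  have h1 : ((ZMod.castHom h' (ZMod ℓ)).toAddMonoidHom.comp e.symm.toAddMonoidHom)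
      (Additive.ofMul (Additive.toMul (e 1))) = (1 : ZMod ℓ) := by
    show (ZMod.castHom h' (ZMod ℓ)) (e.symm (e 1)) = 1
    rw [e.symm_apply_apply, map_one]
  rw [h1]
  exact one_ne_zero

end

section
variable {k L : Type u} [Field k] [NumberField k] [Field L] [NumberField L] [Algebra k L]

private theorem locram_surj (v : HeightOneSpectrum (𝓞 k)) (Q : HeightOneSpectrum (𝓞 L))
    (hQ : Q.asIdeal.under (𝓞 k) = v.asIdeal) (hf : Q.asIdeal.inertiaDeg (𝓞 k) = 1) (z : 𝓞 L) :
    ∃ a : 𝓞 k, z - algebraMap (𝓞 k) (𝓞 L) a ∈ Q.asIdeal := by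
  have hvm : v.asIdeal.IsMaximal := v.isMaximal
  have hQm : Q.asIdeal.IsMaximal := Q.isMaximal
  have i2 : Q.asIdeal.LiesOver v.asIdeal := ⟨hQ.symm⟩
  let f : 𝓞 k →+* 𝓞 L ⧸ Q.asIdeal :=
    (Ideal.Quotient.mk Q.asIdeal).comp (algebraMap (𝓞 k) (𝓞 L))
  have hker : RingHom.ker f = v.asIdeal := by
    ext a
    rw [RingHom.mem_ker, ← hQ, Ideal.mem_comap]
    exact Ideal.Quotient.eq_zero_iff_mem
  have hn : Ideal.absNorm v.asIdeal = Ideal.absNorm Q.asIdeal := by
    have h := Ideal.absNorm_pow_inertiaDeg v.asIdeal Q.asIdeal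
    rwa [hf, pow_one] at h
  have hcard : Nat.card (𝓞 L ⧸ Q.asIdeal) ≤ Nat.card (𝓞 k ⧸ RingHom.ker f) := by
    rw [hker]
    exact le_of_eq hn.symm
  have hfin : Finite (𝓞 L ⧸ Q.asIdeal) := Q.asIdeal.finiteQuotientOfFreeOfNeBot Q.ne_bot
  have hbij := (RingHom.kerLift_injective f).bijective_of_nat_card_le hcard
  obtain ⟨b, hb⟩ := hbij.2 (Ideal.Quotient.mk Q.asIdeal z)
  obtain ⟨a, rfl⟩ := Ideal.Quotient.mk_surjective b
  refine ⟨a, ?_⟩
  rw [← Ideal.Quotient.eq]
  exact hb.symm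

private theorem locram_approx (v : HeightOneSpectrum (𝓞 k)) (Q : HeightOneSpectrum (𝓞 L))
    (hQ : Q.asIdeal.under (𝓞 k) = v.asIdeal) (hf : Q.asIdeal.inertiaDeg (𝓞 k) = 1) (y : L)
    (hy : Q.valuation L y ≤ 1) :
    ∃ a : 𝓞 k, Q.valuation L (y - algebraMap k L (a : k)) < 1 := by
  obtain ⟨z, hz⟩ := Q.exists_valuation_sub_lt_of_integer (K := L) hy 1
  obtain ⟨a, ha⟩ := locram_surj v Q hQ hf z
  refine ⟨a, ?_⟩
  have h1 : y - algebraMap k L (a : k) = -(algebraMap (𝓞 L) L z - y) +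
      algebraMap (𝓞 L) L (z - algebraMap (𝓞 k) (𝓞 L) a) := by
    have h2 : algebraMap (𝓞 L) L (algebraMap (𝓞 k) (𝓞 L) a) = algebraMap k L (a : k) := rfl
    rw [map_sub, h2]
    ring
  rw [h1]
  refine (Valuation.map_add _ _ _).trans_lt (max_lt ?_ ?_)
  · rw [Valuation.map_neg]
    simpa using hz
  · exact (Q.valuation_lt_one_iff_mem _).2 ha

end

section
variable (k L : Type u) [Field k] [NumberField k] [Field L] [NumberField L] [Algebra k L]
  [IsGalois k L] (ℓ : ℕ) [Fact ℓ.Prime]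

/-- the local character at a tamely ramified place -/
theorem loc_ram (hdeg : Module.finrank k L = ℓ) (v : HeightOneSpectrum (𝓞 k)) (hr : Ram L v)
    (ht : (ℓ : 𝓞 k) ∉ v.asIdeal) :
    ∃ c : Additive kˣ →+ ZMod ℓ, (∀ y : Additive Lˣ, c (nmA k L y) = 0) ∧
      (∀ (z : 𝓞 k) (y : kˣ), (y : k) = (z : k) → z - 1 ∈ v.asIdeal → c (Additive.ofMul y) = 0) ∧
      ∃ z : 𝓞 k, z ∉ v.asIdeal ∧ ∀ y : kˣ, (y : k) = (z : k) → c (Additive.ofMul y) ≠ 0 := by
  classical
  rcases trichotomy k L ℓ hdeg v with ⟨_, _, hcard, hw⟩ | ⟨hr', _⟩ | ⟨hr', _⟩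
  rotate_left
  · exact absurd hr hr'
  · exact absurd hr hr'
  obtain ⟨⟨Q, hQ⟩, hQu⟩ := Fintype.card_eq_one_iff.1 hcard
  have he : Q.asIdeal.ramificationIdx (𝓞 k) = ℓ := (hw ⟨Q, hQ⟩).1
  have hf : Q.asIdeal.inertiaDeg (𝓞 k) = 1 := (hw ⟨Q, hQ⟩).2
  have hQv : Q.under (𝓞 k) = v := HeightOneSpectrum.ext hQ
  have hinv : ∀ (σ : Gal(L/k)) (y : Additive Lˣ), ord Q (autA σ y) = ord Q y := by
    intro σ
    obtain ⟨w', hw', h⟩ := ord_autA σ Q
    have h1 : w'.asIdeal.under (𝓞 k) = v.asIdeal := by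
      rw [← hQ]
      exact congrArg HeightOneSpectrum.asIdeal hw'
    have h2 : w' = Q := congrArg Subtype.val (hQu ⟨w', h1⟩)
    rw [h2] at h
    exact h
  have hnm : ∀ y : Additive Lˣ, ord v (nmA k L y) = ord Q y := by
    intro y
    rw [ord_nmA, Fintype.sum_eq_single (⟨Q, hQ⟩ : Over L v) (fun w hne => absurd (hQu w) hne)]
    rw [hf, Nat.cast_one, one_mul]
  have hinc : ∀ y : Additive kˣ, ord Q (incA k L y) = (ℓ : ℤ) * ord v y := by
    intro y
    rw [ord_incA, he, hQv]
  have hV : ∀ (σ : Gal(L/k)) (x : L), Q.valuation L (σ x) = Q.valuation L x := by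
    intro σ x
    rcases eq_or_ne x 0 with rfl | hx
    · rw [map_zero]
    · have h1 : Q.valuation L ((Units.mk0 x hx : Lˣ) : L) =
          WithZero.exp (-(ord Q (Additive.ofMul (Units.mk0 x hx)))) := locram_val _ _
      have h2 : Q.valuation L ((Units.map (σ : L →* L) (Units.mk0 x hx) : Lˣ) : L) =
          WithZero.exp (-(ord Q (Additive.ofMul (Units.map (σ : L →* L) (Units.mk0 x hx))))) :=
        locram_val _ _
      have h3 := hinv σ (Additive.ofMul (Units.mk0 x hx))
      have h4 : autA σ (Additive.ofMul (Units.mk0 x hx)) =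
          Additive.ofMul (Units.map (σ : L →* L) (Units.mk0 x hx)) := rfl
      rw [h4] at h3
      rw [h3, ← h1] at h2
      exact h2
  have hVinc : ∀ x : k, Q.valuation L (algebraMap k L x) < 1 → v.valuation k x < 1 := by
    intro x hx
    rcases eq_or_ne x 0 with rfl | hx0
    · rw [map_zero]
      exact zero_lt_one
    · have h1 := (locram_lt Q (Units.map (algebraMap k L : k →* L) (Units.mk0 x hx0))).1 hx
      have h2 := hinc (Additive.ofMul (Units.mk0 x hx0))
      have h3 : incA k L (Additive.ofMul (Units.mk0 x hx0)) =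
          Additive.ofMul (Units.map (algebraMap k L : k →* L) (Units.mk0 x hx0)) := rfl
      rw [h3] at h2
      rw [h2] at h1
      have h4 : 0 < ord v (Additive.ofMul (Units.mk0 x hx0)) :=
        pos_of_mul_pos_right h1 (Nat.cast_nonneg ℓ)
      exact (locram_lt v (Units.mk0 x hx0)).2 h4
  obtain ⟨-, ϖ0, -, hϖ⟩ := exists_ord_one Q
  obtain ⟨ϖ, hϖe⟩ : ∃ ϖ : Additive Lˣ, ϖ = Additive.ofMul ϖ0 := ⟨_, rfl⟩
  rw [← hϖe] at hϖ
  obtain ⟨π, hπe⟩ : ∃ π : Additive kˣ, π = nmA k L ϖ := ⟨_, rfl⟩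
  have hπ : ord v π = 1 := by rw [hπe, hnm, hϖ]
  -- the projection to the units at `v`
  obtain ⟨u, hu⟩ : ∃ u : Additive kˣ →+ Additive kˣ, ∀ y, u y = y - ord v y • π :=
    ⟨AddMonoidHom.id _ - ((zmultiplesHom (Additive kˣ)) π).comp (ord v), fun y => rfl⟩
  have hou : ∀ y, ord v (u y) = 0 := by
    intro y
    rw [hu, map_sub, map_zsmul, hπ]
    simp
  have hmem : ∀ y : Additive kˣ,
      algebraMap k (v.adicCompletion k) ((Additive.toMul (u y) : kˣ) : k) ∈
        v.adicCompletionIntegers k := by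
    intro y
    rw [HeightOneSpectrum.mem_adicCompletionIntegers, valued_algebraMap]
    exact le_of_eq ((locram_one v _).2 (hou y))
  have hfin : Finite (IsLocalRing.ResidueField (v.adicCompletionIntegers k)) := finite_residue v
  obtain ⟨g, hg⟩ : ∃ g : kˣ →* IsLocalRing.ResidueField (v.adicCompletionIntegers k),
      ∀ y : kˣ, g y = IsLocalRing.residue (v.adicCompletionIntegers k)
        ⟨_, hmem (Additive.ofMul y)⟩ := by
    refine ⟨⟨⟨fun y => IsLocalRing.residue (v.adicCompletionIntegers k)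
        ⟨_, hmem (Additive.ofMul y)⟩, ?_⟩, ?_⟩, fun y => rfl⟩
    · rw [← map_one (IsLocalRing.residue (v.adicCompletionIntegers k))]
      congr 1
      apply Subtype.ext
      show algebraMap k (v.adicCompletion k) ((Additive.toMul (u (Additive.ofMul 1)) : kˣ) : k) = 1
      rw [ofMul_one, map_zero, toMul_zero, Units.val_one, map_one]
    · intro a b
      show IsLocalRing.residue (v.adicCompletionIntegers k) _ =
        IsLocalRing.residue (v.adicCompletionIntegers k) _ *
          IsLocalRing.residue (v.adicCompletionIntegers k) _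
      rw [← map_mul]
      congr 1
      apply Subtype.ext
      show algebraMap k (v.adicCompletion k)
          ((Additive.toMul (u (Additive.ofMul (a * b))) : kˣ) : k) =
        algebraMap k (v.adicCompletion k) ((Additive.toMul (u (Additive.ofMul a)) : kˣ) : k) *
        algebraMap k (v.adicCompletion k) ((Additive.toMul (u (Additive.ofMul b)) : kˣ) : k)
      rw [ofMul_mul, map_add, toMul_add, Units.val_mul, map_mul]
  obtain ⟨ψ, γ, hγ⟩ := locram_psi (IsLocalRing.ResidueField (v.adicCompletionIntegers k)) ℓ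
    (tame_norm k L ℓ hdeg v hr ht)
  have hgz : ∀ (z : 𝓞 k) (y : kˣ), (y : k) = (z : k) → z ∉ v.asIdeal →
      g y = (IsLocalRing.residue (v.adicCompletionIntegers k)).comp
        (algebraMap (𝓞 k) (v.adicCompletionIntegers k)) z := by
    intro z y hy hz
    rw [hg, RingHom.comp_apply]
    congr 1
    apply Subtype.ext
    show algebraMap k (v.adicCompletion k) ((Additive.toMul (u (Additive.ofMul y)) : kˣ) : k) =
      algebraMap k (v.adicCompletion k) (algebraMap (𝓞 k) k z)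
    have h1 : u (Additive.ofMul y) = Additive.ofMul y := by
      rw [hu, locram_int v z hz y hy, zero_smul, sub_zero]
    rw [h1, toMul_ofMul, hy]
  refine ⟨ψ.comp (MonoidHom.toAdditive g.toHomUnits), ?_, ?_, ?_⟩
  · intro y
    obtain ⟨y', hy'⟩ : ∃ y' : Additive Lˣ, y' = y - ord Q y • ϖ := ⟨_, rfl⟩
    have h0 : ord Q y' = 0 := by
      rw [hy', map_sub, map_zsmul, hϖ]
      simp
    have h1 : u (nmA k L y) = nmA k L y' := by
      rw [hu, hnm, hy', map_sub, map_zsmul, hπe]
    have h2 : Q.valuation L ((Additive.toMul y' : Lˣ) : L) = 1 := (locram_one Q _).2 h0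
    obtain ⟨a, ha⟩ := locram_approx v Q hQ hf _ h2.le
    have hale : Q.valuation L (algebraMap k L (a : k)) ≤ 1 := by
      have h3 : algebraMap k L (a : k) = algebraMap (𝓞 L) L (algebraMap (𝓞 k) (𝓞 L) a) := rfl
      rw [h3]
      exact Q.valuation_le_one _
    have h3 := locram_prod (Q.valuation L) (Finset.univ : Finset Gal(L/k))
      (fun σ => σ ((Additive.toMul y' : Lˣ) : L)) (algebraMap k L (a : k)) hale (by
        intro σ _
        have h4 : σ ((Additive.toMul y' : Lˣ) : L) - algebraMap k L (a : k) =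
            σ (((Additive.toMul y' : Lˣ) : L) - algebraMap k L (a : k)) := by
          rw [map_sub, AlgEquiv.commutes]
        rw [h4, hV]
        exact ha)
    rw [← Algebra.norm_eq_prod_automorphisms, Finset.card_univ, ← Nat.card_eq_fintype_card,
      IsGalois.card_aut_eq_finrank, hdeg, ← map_pow, ← map_sub] at h3
    have h5 := hVinc _ h3
    have h6 : g (Additive.toMul (nmA k L y)) =
        ((IsLocalRing.residue (v.adicCompletionIntegers k)).comp
          (algebraMap (𝓞 k) (v.adicCompletionIntegers k)) a) ^ ℓ := by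
      rw [hg, RingHom.comp_apply, ← map_pow, ← sub_eq_zero, ← map_sub,
        residue_eq_zero_iff_valued]
      have h7 : (((⟨_, hmem (Additive.ofMul (Additive.toMul (nmA k L y)))⟩ :
          v.adicCompletionIntegers k) -
          (algebraMap (𝓞 k) (v.adicCompletionIntegers k) a) ^ ℓ :
          v.adicCompletionIntegers k) : v.adicCompletion k) =
          algebraMap k (v.adicCompletion k)
            (Algebra.norm k ((Additive.toMul y' : Lˣ) : L) - (a : k) ^ ℓ) := by
        have h8 : algebraMap k (v.adicCompletion k) ((Additive.toMul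
            (u (Additive.ofMul (Additive.toMul (nmA k L y)))) : kˣ) : k) =
            algebraMap k (v.adicCompletion k)
              (Algebra.norm k ((Additive.toMul y' : Lˣ) : L)) := by
          rw [ofMul_toMul, h1]
          rfl
        rw [map_sub, map_pow, ← h8]
        rfl
      rw [h7, valued_algebraMap]
      exact h5
    have hρ : (IsLocalRing.residue (v.adicCompletionIntegers k)).comp
        (algebraMap (𝓞 k) (v.adicCompletionIntegers k)) a ≠ 0 := by
      intro h0'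
      rw [h0', zero_pow (Fact.out : ℓ.Prime).ne_zero] at h6
      have h7 : IsUnit (g (Additive.toMul (nmA k L y))) := ⟨g.toHomUnits _, rfl⟩
      rw [h6] at h7
      exact not_isUnit_zero h7
    have h8 : g.toHomUnits (Additive.toMul (nmA k L y)) = (Units.mk0 _ hρ) ^ ℓ := by
      apply Units.ext
      rw [Units.val_pow_eq_pow_val, Units.val_mk0, ← h6]
      rfl
    show ψ (Additive.ofMul (g.toHomUnits (Additive.toMul (nmA k L y)))) = 0
    rw [h8, ofMul_pow, map_nsmul]
    simp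
  · intro z y hy hz
    have hzv : z ∉ v.asIdeal := by
      intro h
      have h1 : (1 : 𝓞 k) ∈ v.asIdeal := by
        have h2 := v.asIdeal.sub_mem h hz
        rwa [sub_sub_cancel] at h2
      exact v.isPrime.ne_top ((Ideal.eq_top_iff_one _).2 h1)
    have h1 := hgz z y hy hzv
    have h2 : (IsLocalRing.residue (v.adicCompletionIntegers k)).comp
        (algebraMap (𝓞 k) (v.adicCompletionIntegers k)) (z - 1) = 0 := by
      rw [← RingHom.mem_ker, residue_ker]
      exact hz
    rw [map_sub, map_one, sub_eq_zero] at h2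
    have h3 : g.toHomUnits y = 1 := by
      apply Units.ext
      rw [Units.val_one, ← h2, ← h1]
      rfl
    show ψ (Additive.ofMul (g.toHomUnits y)) = 0
    rw [h3, ofMul_one, map_zero]
  · obtain ⟨z, hz⟩ := residue_surjective v (γ : IsLocalRing.ResidueField _)
    have hzv : z ∉ v.asIdeal := by
      intro h
      rw [← residue_ker v, RingHom.mem_ker, hz] at h
      exact γ.ne_zero h
    refine ⟨z, hzv, fun y hy => ?_⟩
    have h3 : g.toHomUnits y = γ := by
      apply Units.ext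
      rw [← hz, ← hgz z y hy hzv]
      rfl
    show ψ (Additive.ofMul (g.toHomUnits y)) ≠ 0
    rw [h3]
    exact hγ

end

end Pool.Agent.Lib.MP_1a91b9_nuT.CF
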