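import Mathlib

/-! # CF: Herbrand type index formulas for finitely generated abelian groups

PROOF (complete; job of helper29, see team-store bsd_D_doc_CF.md):
Exact sequence 0 -> ker g -> ker fg -> ker f -> coker g -> coker fg -> coker f -> 0. By hand:
index(range fg) = index(range f) [f(B) : f(gB)] and [f(B) : f(gB)] = [B : gB + ker f]; index(range g)
= [B : gB + ker f][gB + ker f : gB], [gB + ker f : gB] = |ker f| / |ker f cap gB|; |ker fg| = |ker g|
|ker f cap gB| (g maps ker fg onto ker f cap gB with kernel ker g).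
-/

set_option autoImplicit false

namespace Pool.Agent.Lib.MP_1a91b9_nuT.CF

/-- multiplicativity of `|coker| / |ker|` -/
theorem index_comp {B : Type*} [AddCommGroup B] (f g : B →+ B) [Finite f.ker] [Finite g.ker]
    (hf : f.range.index ≠ 0) (hg : g.range.index ≠ 0) :
    (f.comp g).range.index * (Nat.card f.ker * Nat.card g.ker) =
      f.range.index * g.range.index * Nat.card (f.comp g).ker ∧
    (f.comp g).range.index ≠ 0 ∧ Finite (f.comp g).ker := by
  have h1 : (f.comp g).range.index = (g.range ⊔ f.ker).index * f.range.index := by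
    rw [AddMonoidHom.range_comp, AddSubgroup.index_map]
  have h2 : g.range.relIndex f.ker * (g.range ⊔ f.ker).index = g.range.index := by
    rw [← AddSubgroup.relIndex_sup_left f.ker g.range]
    exact AddSubgroup.relIndex_mul_index le_sup_left
  have h3 : Nat.card (g.range ⊓ f.ker : AddSubgroup B) * g.range.relIndex f.ker =
      Nat.card f.ker := by
    rw [← AddSubgroup.relIndex_bot_left, ← AddSubgroup.relIndex_bot_left,
      ← AddSubgroup.inf_relIndex_right g.range f.ker]
    exact AddSubgroup.relIndex_mul_relIndex _ _ _ bot_le inf_le_right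
  have hle : g.ker ≤ (f.comp g).ker := by
    intro x hx
    rw [AddMonoidHom.mem_ker] at hx ⊢
    rw [AddMonoidHom.comp_apply, hx, map_zero]
  have h4 : Nat.card g.ker * Nat.card (g.range ⊓ f.ker : AddSubgroup B) =
      Nat.card (f.comp g).ker := by
    have h5 : g.ker.relIndex (f.comp g).ker = Nat.card (g.range ⊓ f.ker : AddSubgroup B) := by
      rw [AddSubgroup.relIndex_ker]
      have h6 : (f.comp g).ker = f.ker.comap g := by
        ext x
        rfl
      rw [h6, AddSubgroup.map_comap_eq]
    rw [← h5, ← AddSubgroup.relIndex_bot_left, ← AddSubgroup.relIndex_bot_left]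
    exact AddSubgroup.relIndex_mul_relIndex _ _ _ bot_le hle
  have hf0 : Nat.card f.ker ≠ 0 := Nat.card_pos.ne'
  have hg0 : Nat.card g.ker ≠ 0 := Nat.card_pos.ne'
  refine ⟨?_, ?_, ?_⟩
  · rw [h1, ← h2, ← h3, ← h4]
    ring
  · rw [h1]
    rw [← h2] at hg
    exact mul_ne_zero (right_ne_zero_of_mul hg) hf
  · apply Nat.finite_of_card_ne_zero
    rw [← h4]
    rw [← h3] at hf0
    exact mul_ne_zero hg0 (left_ne_zero_of_mul hf0)

end Pool.Agent.Lib.MP_1a91b9_nuT.CF
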