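import Mathlib

/-! # CF: multiplication by an integer on a finitely generated abelian group

PROOF (complete; job of helper29, see team-store bsd_D_doc_CF.md):
Structure: A = Z^r x T, T finite (Module.equiv_free_prod_directSum or torsion submodule): index n^r
|T/nT| and |T/nT| = |T[n]| for finite T. Or: the lemma holds for Z^r and for finite groups and is
multiplicative via HerbA-type arguments.
-/

set_option autoImplicit false

namespace Pool.Agent.Lib.MP_1a91b9_nuT.CF

/-- the formula for a finite group -/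
private theorem fin (A : Type*) [AddCommGroup A] [Finite A] (n : ℕ) :
    (nsmulAddMonoidHom n : A →+ A).range.index = Nat.card (nsmulAddMonoidHom n : A →+ A).ker := by
  have h1 := (nsmulAddMonoidHom n : A →+ A).range.index_mul_card
  have h2 := (nsmulAddMonoidHom n : A →+ A).ker.index_mul_card
  rw [AddSubgroup.index_ker, mul_comm] at h2
  have h3 : Nat.card (nsmulAddMonoidHom n : A →+ A).range ≠ 0 := Nat.card_pos.ne'
  exact mul_right_cancel₀ h3 (h1.trans h2.symm)

/-- the formula for `ℤ ^ r` -/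
private theorem free (r n : ℕ) (hn : 0 < n) :
    (nsmulAddMonoidHom n : (Fin r → ℤ) →+ (Fin r → ℤ)).range.index = n ^ r ∧
      (nsmulAddMonoidHom n : (Fin r → ℤ) →+ (Fin r → ℤ)).ker = ⊥ := by
  constructor
  · have h1 : (nsmulAddMonoidHom n : (Fin r → ℤ) →+ (Fin r → ℤ)).range =
        AddSubgroup.pi Set.univ (fun _ => AddSubgroup.zmultiples (n : ℤ)) := by
      ext x
      simp only [AddMonoidHom.mem_range, nsmulAddMonoidHom_apply, AddSubgroup.mem_pi, Set.mem_univ,
        forall_true_left, Int.mem_zmultiples_iff]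
      constructor
      · rintro ⟨y, rfl⟩ i
        exact ⟨y i, by simp⟩
      · intro h
        choose y hy using h
        exact ⟨y, by ext i; simp [hy i]⟩
    rw [h1, AddSubgroup.index_pi]
    simp [Int.index_zmultiples]
  · rw [eq_bot_iff]
    intro x hx
    rw [AddMonoidHom.mem_ker, nsmulAddMonoidHom_apply] at hx
    rw [AddSubgroup.mem_bot]
    exact (smul_eq_zero.1 hx).resolve_left hn.ne'

/-- transport along an isomorphism -/
private theorem equiv {A C : Type*} [AddCommGroup A] [AddCommGroup C] (e : A ≃+ C) (n : ℕ) :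
    (nsmulAddMonoidHom n : A →+ A).range.index = (nsmulAddMonoidHom n : C →+ C).range.index ∧
      Nonempty ((nsmulAddMonoidHom n : A →+ A).ker ≃ (nsmulAddMonoidHom n : C →+ C).ker) := by
  constructor
  · rw [← AddSubgroup.index_map_equiv _ e]
    congr 1
    ext x
    simp only [AddSubgroup.mem_map, AddMonoidHom.mem_range, nsmulAddMonoidHom_apply]
    constructor
    · rintro ⟨y, ⟨z, rfl⟩, rfl⟩
      exact ⟨e z, by simp⟩
    · rintro ⟨z, rfl⟩
      exact ⟨n • e.symm z, ⟨e.symm z, rfl⟩, by simp⟩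
  · refine ⟨e.toEquiv.subtypeEquiv fun x => ?_⟩
    simp only [AddMonoidHom.mem_ker, nsmulAddMonoidHom_apply]
    show n • x = 0 ↔ n • e x = 0
    rw [← map_nsmul, map_eq_zero_iff e e.injective]

/-- the formula for a product -/
private theorem prod (A C : Type*) [AddCommGroup A] [AddCommGroup C] (n : ℕ) :
    (nsmulAddMonoidHom n : A × C →+ A × C).range =
      (nsmulAddMonoidHom n : A →+ A).range.prod (nsmulAddMonoidHom n : C →+ C).range ∧
    (nsmulAddMonoidHom n : A × C →+ A × C).ker =
      (nsmulAddMonoidHom n : A →+ A).ker.prod (nsmulAddMonoidHom n : C →+ C).ker := by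
  constructor
  · ext ⟨x, y⟩
    simp only [AddMonoidHom.mem_range, nsmulAddMonoidHom_apply, AddSubgroup.mem_prod, Prod.exists,
      Prod.smul_mk, Prod.mk.injEq]
    constructor
    · rintro ⟨a, b, h1, h2⟩
      exact ⟨⟨a, h1⟩, ⟨b, h2⟩⟩
    · rintro ⟨⟨a, h1⟩, ⟨b, h2⟩⟩
      exact ⟨a, b, h1, h2⟩
  · ext ⟨x, y⟩
    simp only [AddMonoidHom.mem_ker, nsmulAddMonoidHom_apply, AddSubgroup.mem_prod,
      Prod.smul_mk, Prod.mk_eq_zero]

private theorem rankfin (A : Type*) [AddCommGroup A] [Finite A] : Module.finrank ℤ A = 0 := by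
  apply Module.finrank_eq_zero_of_rank_eq_zero
  rw [rank_eq_zero_iff]
  intro x
  obtain ⟨m, hm, hx⟩ := (isOfFinAddOrder_of_finite x).exists_nsmul_eq_zero
  exact ⟨m, by exact_mod_cast hm.ne', by simpa using hx⟩

/-- `|A / n A| = n ^ rank A * |A[n]|` -/
theorem index_nsmul (A : Type*) [AddCommGroup A] [Module.Finite ℤ A] (n : ℕ) (hn : 0 < n) :
    (nsmulAddMonoidHom n : A →+ A).range.index =
      n ^ Module.finrank ℤ A * Nat.card (nsmulAddMonoidHom n : A →+ A).ker ∧
    Finite (nsmulAddMonoidHom n : A →+ A).ker := by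
  have : AddGroup.FG A := Module.Finite.iff_addGroup_fg.1 inferInstance
  obtain ⟨r, ι, hι, p, hp, e, ⟨φ⟩⟩ := AddCommGroup.equiv_free_prod_directSum_zmod A
  classical
  have : ∀ i, NeZero (p i ^ e i) := fun i => ⟨pow_ne_zero _ (hp i).ne_zero⟩
  have hT : Finite (DirectSum ι fun i => ZMod (p i ^ e i)) :=
    Finite.of_equiv _ (DirectSum.addEquivProd (fun i => ZMod (p i ^ e i))).symm.toEquiv
  set T := DirectSum ι fun i => ZMod (p i ^ e i) with hTdef
  let ψ : A ≃+ (Fin r → ℤ) × T :=
    φ.trans (AddEquiv.prodCongr (Finsupp.linearEquivFunOnFinite ℤ ℤ (Fin r)).toAddEquiv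
      (AddEquiv.refl T))
  obtain ⟨h1, ⟨h2⟩⟩ := equiv ψ n
  obtain ⟨h3, h4⟩ := prod (Fin r → ℤ) T n
  obtain ⟨h5, h6⟩ := free r n hn
  have hr : Module.finrank ℤ A = r := by
    rw [ψ.toIntLinearEquiv.finrank_eq]
    have h8 : Module.finrank ℤ ((Fin r → ℤ) × T) = Module.finrank ℤ (Fin r → ℤ) := by
      have h9 := Submodule.finrank_quotient_add_finrank
        (LinearMap.ker (LinearMap.fst ℤ (Fin r → ℤ) T))
      rw [(LinearMap.quotKerEquivOfSurjective _ LinearMap.fst_surjective).finrank_eq] at h9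
      have h10 : Module.finrank ℤ (LinearMap.ker (LinearMap.fst ℤ (Fin r → ℤ) T)) = 0 := by
        have : Finite (LinearMap.ker (LinearMap.fst ℤ (Fin r → ℤ) T)) := by
          rw [LinearMap.ker_fst]
          exact Finite.of_surjective (LinearMap.rangeRestrict (LinearMap.inr ℤ (Fin r → ℤ) T))
            (LinearMap.surjective_rangeRestrict _)
        exact rankfin (LinearMap.ker (LinearMap.fst ℤ (Fin r → ℤ) T))
      rw [h10, add_zero] at h9
      exact h9.symm
    rw [h8, Module.finrank_fin_fun]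
  have hk : Nat.card (nsmulAddMonoidHom n : (Fin r → ℤ) × T →+ (Fin r → ℤ) × T).ker =
      Nat.card (nsmulAddMonoidHom n : T →+ T).ker := by
    rw [h4, h6, Nat.card_congr (AddSubgroup.prodEquiv _ _).toEquiv, Nat.card_prod,
      AddSubgroup.card_bot, one_mul]
  have hk0 : Nat.card (nsmulAddMonoidHom n : T →+ T).ker ≠ 0 := Nat.card_pos.ne'
  constructor
  · rw [h1, h3, AddSubgroup.index_prod, h5, fin, hr, Nat.card_congr h2, hk]
  · apply Nat.finite_of_card_ne_zero
    rw [Nat.card_congr h2, hk]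
    exact hk0

end Pool.Agent.Lib.MP_1a91b9_nuT.CF
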