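import Pool.Agent.Lib.MP_1a91b9_nuT.CF.HerbA
import Pool.Agent.Lib.MP_1a91b9_nuT.CF.HerbB
import Pool.Agent.Lib.MP_1a91b9_nuT.CF.HerbC

/-! # CF: the index of `(σ - 1) B` when the norm is zero

PROOF (complete; job of helper29, see team-store bsd_D_doc_CF.md):
ker(sigma - 1) on B: there sum sigma^i = ell, so it is killed by ell and finitely generated, finite.
For 1 <= i <= ell - 1 the endomorphisms 1 - sigma^i and 1 - sigma have the same range and kernel
(1 - sigma^i = (1 - sigma)(1 + .. + sigma^(i-1)) and 1 - sigma = (1 - (sigma^i)^j) with i j = 1 mod ell).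
By HerbC the product of the 1 - sigma^i is ell. HerbA (multiplicativity of index/kernel) by induction
over the list: index(ell B) |ker(1 - sigma)|^(ell-1) = index((1-sigma)B)^(ell-1) |B[ell]|. With HerbB:
index(ell B) = ell^((ell-1) b) |B[ell]|, so (index/|ker|)^(ell-1) = (ell^b)^(ell-1) (need the index
of (1 - sigma)B nonzero: it contains ell B up to ... since ell = (1 - sigma) u on B, ell B is contained
in (1 - sigma) B, finite index). Take (ell-1)-th roots in N (index = ell^b |ker| after cross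
multiplication: (index)^(ell-1) = (ell^b |ker|)^(ell-1)). range(sigma-1) = range(1-sigma).
-/

set_option autoImplicit false

namespace Pool.Agent.Lib.MP_1a91b9_nuT.CF

/-- iteration of `index_comp` over a list -/
private theorem list_index {B : Type*} [AddCommGroup B] (I k : ℕ) (hI : I ≠ 0) (hk : k ≠ 0)
    (l : List (AddMonoid.End B))
    (hl : ∀ f ∈ l, (AddMonoidHom.range f).index = I ∧ Nat.card (AddMonoidHom.ker f) = k) :
    (AddMonoidHom.range l.prod).index * k ^ l.length =
      I ^ l.length * Nat.card (AddMonoidHom.ker l.prod) ∧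
    (AddMonoidHom.range l.prod).index ≠ 0 ∧ Finite (AddMonoidHom.ker l.prod) := by
  induction l with
  | nil =>
    have h1 : AddMonoidHom.range (1 : AddMonoid.End B) = ⊤ :=
      AddMonoidHom.range_eq_top.2 fun x => ⟨x, rfl⟩
    have h2 : AddMonoidHom.ker (1 : AddMonoid.End B) = ⊥ := by
      rw [eq_bot_iff]
      intro x hx
      exact hx
    rw [List.prod_nil, h1, h2]
    simp
    infer_instance
  | cons f l ih =>
    obtain ⟨h1, h2, h3⟩ := ih fun g hg => hl g (List.mem_cons_of_mem _ hg)
    obtain ⟨h4, h5⟩ := hl f List.mem_cons_self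
    have hfin : Finite (AddMonoidHom.ker f) := Nat.finite_of_card_ne_zero (by rw [h5]; exact hk)
    obtain ⟨h6, h7, h8⟩ := index_comp f l.prod (by rw [h4]; exact hI) h2
    have h9 : (f * l.prod : AddMonoid.End B) = AddMonoidHom.comp f l.prod := rfl
    rw [List.prod_cons, h9]
    refine ⟨?_, h7, h8⟩
    rw [h4, h5] at h6
    have h10 : Nat.card (AddMonoidHom.ker l.prod) ≠ 0 := Nat.card_pos.ne'
    apply mul_right_cancel₀ h10
    rw [List.length_cons, pow_succ, pow_succ]
    calc (AddMonoidHom.comp f l.prod).range.index * (k ^ l.length * k) *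
          Nat.card (AddMonoidHom.ker l.prod) =
        (AddMonoidHom.comp f l.prod).range.index * (k * Nat.card (AddMonoidHom.ker l.prod)) *
          k ^ l.length := by ring
      _ = I * Nat.card (AddMonoidHom.comp f l.prod).ker *
          ((AddMonoidHom.range l.prod).index * k ^ l.length) := by rw [h6]; ring
      _ = I ^ l.length * I * Nat.card (AddMonoidHom.comp f l.prod).ker *
          Nat.card (AddMonoidHom.ker l.prod) := by rw [h1]; ring

/-- `|B / (σ - 1) B| = ℓ ^ b * |B[σ - 1]|` if the norm is `0` on `B` and `rank B = (ℓ - 1) b` -/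
theorem index_sub_one (B : Type*) [AddCommGroup B] [Module.Finite ℤ B] (σ : AddMonoid.End B)
    (ℓ b : ℕ) (hℓ : ℓ.Prime) (hσ : σ ^ ℓ = 1) (hN : ∑ i ∈ Finset.range ℓ, σ ^ i = 0)
    (hb : Module.finrank ℤ B = (ℓ - 1) * b) :
    (AddMonoidHom.range (σ - 1 : AddMonoid.End B)).index =
      ℓ ^ b * Nat.card (AddMonoidHom.ker (σ - 1 : AddMonoid.End B)) ∧
    Finite (AddMonoidHom.ker (σ - 1 : AddMonoid.End B)) := by
  obtain ⟨h1, h2⟩ := index_nsmul B ℓ hℓ.pos
  have hℓe : ((ℓ : ℕ) : AddMonoid.End B) = nsmulAddMonoidHom ℓ := by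
    ext x
    rfl
  -- the range and kernel of `1 - σ ^ j`
  have hfac : ∀ (τ : AddMonoid.End B) (j : ℕ), ∃ u : AddMonoid.End B,
      1 - τ ^ j = (1 - τ) * u ∧ 1 - τ ^ j = u * (1 - τ) := by
    intro τ j
    refine ⟨∑ i ∈ Finset.range j, τ ^ i, (mul_neg_geom_sum τ j).symm, (geom_sum_mul_neg τ j).symm⟩
  have hrange : ∀ f g u : AddMonoid.End B, f = g * u →
      AddMonoidHom.range f ≤ AddMonoidHom.range g := by
    rintro f g u rfl x ⟨y, rfl⟩
    exact ⟨u y, rfl⟩
  have hker : ∀ f g u : AddMonoid.End B, f = u * g →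
      AddMonoidHom.ker g ≤ AddMonoidHom.ker f := by
    rintro f g u rfl x hx
    have hx1 : g x = 0 := hx
    show u (g x) = 0
    rw [hx1, map_zero]
  have hsame : ∀ j : ℕ, j ∈ List.range (ℓ - 1) →
      AddMonoidHom.range (1 - σ ^ (j + 1) : AddMonoid.End B) = AddMonoidHom.range (1 - σ : AddMonoid.End B) ∧
      AddMonoidHom.ker (1 - σ ^ (j + 1) : AddMonoid.End B) = AddMonoidHom.ker (1 - σ : AddMonoid.End B) := by
    intro j hj
    rw [List.mem_range] at hj
    have hcop : Nat.Coprime (j + 1) ℓ := by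
      refine ((Nat.Prime.coprime_iff_not_dvd hℓ).2 fun h => ?_).symm
      have := Nat.le_of_dvd (by omega) h
      omega
    obtain ⟨u, hu1, hu2⟩ := hfac σ (j + 1)
    obtain ⟨m, hm⟩ := Nat.exists_mul_mod_eq_one_of_coprime hcop hℓ.one_lt
    have hm2 : (σ ^ (j + 1)) ^ m = σ := by
      rw [← pow_mul, ← Nat.div_add_mod ((j + 1) * m) ℓ, hm.2, pow_add, pow_mul, hσ, one_pow,
        one_mul, pow_one]
    obtain ⟨w, hw1, hw2⟩ := hfac (σ ^ (j + 1)) m
    rw [hm2] at hw1 hw2
    exact ⟨le_antisymm (hrange _ _ u hu1) (hrange _ _ w hw1),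
      le_antisymm (hker _ _ w hw2) (hker _ _ u hu2)⟩
  have hprod := prod_one_sub σ ℓ hℓ hN
  -- finiteness
  have hfin : Finite (AddMonoidHom.ker (1 - σ : AddMonoid.End B)) := by
    have hle : AddMonoidHom.ker (1 - σ : AddMonoid.End B) ≤ (nsmulAddMonoidHom ℓ : B →+ B).ker := by
      intro x hx
      have hx1 : σ x = x := (sub_eq_zero.1 (show x - σ x = 0 from hx)).symm
      have hx2 : ∀ i : ℕ, (σ ^ i) x = x := by
        intro i
        induction i with
        | zero => rfl
        | succ i ih =>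
          rw [pow_succ]
          show (σ ^ i) (σ x) = x
          rw [hx1, ih]
      have hx3 : (∑ i ∈ Finset.range ℓ, σ ^ i) x = ℓ • x := by
        have h3 : (∑ i ∈ Finset.range ℓ, σ ^ i) x = ∑ i ∈ Finset.range ℓ, (σ ^ i) x :=
          AddMonoidHom.finsetSum_apply _ _ _
        rw [h3, Finset.sum_congr rfl fun i _ => hx2 i, Finset.sum_const, Finset.card_range]
      rw [hN] at hx3
      exact hx3.symm
    exact Finite.of_injective (AddSubgroup.inclusion hle) (AddSubgroup.inclusion_injective hle)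
  have hk : Nat.card (AddMonoidHom.ker (1 - σ : AddMonoid.End B)) ≠ 0 := Nat.card_pos.ne'
  have hI : (AddMonoidHom.range (1 - σ : AddMonoid.End B)).index ≠ 0 := by
    have hle : (nsmulAddMonoidHom ℓ : B →+ B).range ≤ AddMonoidHom.range (1 - σ : AddMonoid.End B) := by
      have h3 : ∀ l : List ℕ, l ≠ [] → AddMonoidHom.range
          ((l.map fun i => (1 - σ ^ (i + 1) : AddMonoid.End B)).prod : AddMonoid.End B) ≤ AddMonoidHom.range (1 - σ : AddMonoid.End B) := by
        intro l hl
        cases l with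
        | nil => exact absurd rfl hl
        | cons a l =>
          rw [List.map_cons, List.prod_cons]
          obtain ⟨u, hu1, -⟩ := hfac σ (a + 1)
          exact (hrange _ _ _ rfl).trans (hrange _ _ u hu1)
      have h4 := h3 (List.range (ℓ - 1)) (by
        intro h
        rw [List.range_eq_nil] at h
        have := hℓ.two_le
        omega)
      rw [hprod, hℓe] at h4
      exact h4
    intro h0
    have h5 := AddSubgroup.index_dvd_of_le hle
    rw [h0, zero_dvd_iff, h1] at h5
    exact mul_ne_zero (pow_ne_zero _ hℓ.ne_zero) Nat.card_pos.ne' h5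
  obtain ⟨h3, -, -⟩ := list_index _ _ hI hk ((List.range (ℓ - 1)).map fun i => 1 - σ ^ (i + 1)) (by
    intro f hf
    obtain ⟨j, hj, rfl⟩ := List.mem_map.1 hf
    obtain ⟨h4, h5⟩ := hsame j hj
    exact ⟨congrArg AddSubgroup.index h4, by rw [h5]⟩)
  rw [hprod, List.length_map, List.length_range, hℓe, h1, hb] at h3
  have hneg : (σ - 1 : AddMonoid.End B) = -(1 - σ) := by rw [neg_sub]
  have hr : AddMonoidHom.range (σ - 1 : AddMonoid.End B) = AddMonoidHom.range (1 - σ : AddMonoid.End B) := by
    ext x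
    constructor
    · rintro ⟨y, rfl⟩
      exact ⟨-y, by
        show -y - σ (-y) = σ y - y
        rw [map_neg]
        abel⟩
    · rintro ⟨y, rfl⟩
      exact ⟨-y, by
        show σ (-y) - -y = y - σ y
        rw [map_neg]
        abel⟩
  have hkk : AddMonoidHom.ker (σ - 1 : AddMonoid.End B) = AddMonoidHom.ker (1 - σ : AddMonoid.End B) := by
    ext x
    show (σ - 1 : AddMonoid.End B) x = 0 ↔ (1 - σ : AddMonoid.End B) x = 0
    rw [hneg]
    exact neg_eq_zero
  rw [hr, hkk]
  refine ⟨?_, hfin⟩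
  have h6 : Nat.card (nsmulAddMonoidHom ℓ : B →+ B).ker ≠ 0 := Nat.card_pos.ne'
  have h7 : (ℓ ^ b * Nat.card (AddMonoidHom.ker (1 - σ : AddMonoid.End B))) ^ (ℓ - 1) =
      (AddMonoidHom.range (1 - σ : AddMonoid.End B)).index ^ (ℓ - 1) := by
    apply mul_right_cancel₀ h6
    rw [← h3, mul_pow, ← pow_mul, mul_comm b (ℓ - 1)]
    ring
  have h8 : ℓ - 1 ≠ 0 := by
    have := hℓ.two_le
    omega
  exact (Nat.pow_left_injective h8 h7).symm

end Pool.Agent.Lib.MP_1a91b9_nuT.CF
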