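import Pool.Agent.Lib.MP_1a91b9_nuT.CF.HerbD

/-! # CF: the norm index

PROOF (complete; job of helper29, see team-store bsd_D_doc_CF.md):
Let M^s = ker(sigma - 1), N = sum sigma^i, B = ker N = (sigma - 1) M (hN; conversely N(sigma - 1) =
sigma^ell - 1 = 0). rank B = rank M - rank M^s = (ell - 1) b (B = range(sigma-1), M/M^s = B). HerbD for
B (sigma maps B to B): |B/(sigma-1)B| = ell^b |B[sigma-1]|, and B[sigma-1] = M^s cap B = M^s[ell] (N =
ell on M^s). The map sigma - 1 : M -> B/(sigma-1)B is onto with kernel M^s + B: [M : M^s + B] = ell^b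
|M^s[ell]|. N : M -> N M has kernel B and N(M^s + B) = N M^s = ell M^s, so [N M : ell M^s] = [M : M^s + B]
= ell^b |M^s[ell]|. [M^s : ell M^s] = ell^a |M^s[ell]| (HerbB). N M is contained in M^s ((sigma-1) N =
0). So [M^s : N M] ell^b |M^s[ell]| = ell^a |M^s[ell]|.
-/

set_option autoImplicit false

namespace Pool.Agent.Lib.MP_1a91b9_nuT.CF

/-- if `ker N = (σ - 1) M`, `rank M ^ σ = a`, `rank M = a + (ℓ - 1) b` then
`[M ^ σ : N M] = ℓ ^ (a - b)` -/
theorem herbrand (M : Type*) [AddCommGroup M] [Module.Finite ℤ M] (σ : AddMonoid.End M)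
    (ℓ a b : ℕ) (hℓ : ℓ.Prime) (hσ : σ ^ ℓ = 1)
    (hN : ∀ x : M, (∑ i ∈ Finset.range ℓ, σ ^ i) x = 0 → ∃ y : M, x = σ y - y)
    (ha : Module.finrank ℤ (AddMonoidHom.ker (σ - 1 : AddMonoid.End M)) = a)
    (hb : Module.finrank ℤ M = a + (ℓ - 1) * b) :
    (AddMonoidHom.range (∑ i ∈ Finset.range ℓ, σ ^ i : AddMonoid.End M)).relIndex
      (AddMonoidHom.ker (σ - 1 : AddMonoid.End M)) * ℓ ^ b = ℓ ^ a := by
  obtain ⟨N, hNd⟩ : ∃ N : AddMonoid.End M, N = ∑ i ∈ Finset.range ℓ, σ ^ i := ⟨_, rfl⟩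
  obtain ⟨D, hD⟩ : ∃ D : AddMonoid.End M, D = σ - 1 := ⟨_, rfl⟩
  rw [← hNd] at hN ⊢
  rw [← hD] at ha ⊢
  have hDa : ∀ x, D x = σ x - x := by
    intro x
    rw [hD]
    rfl
  have hND : ∀ x, N (D x) = 0 := by
    intro x
    have h1 : N * D = 0 := by
      rw [hNd, hD, geom_sum_mul, hσ, sub_self]
    have h2 : (N * D) x = 0 := by
      rw [h1]
      rfl
    exact h2
  have hDN : ∀ x, D (N x) = 0 := by
    intro x
    have h1 : D * N = 0 := by
      rw [hNd, hD, mul_geom_sum, hσ, sub_self]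
    have h2 : (D * N) x = 0 := by
      rw [h1]
      rfl
    exact h2
  -- the norm on the invariants
  have hinv : ∀ x, D x = 0 → N x = ℓ • x := by
    intro x hx
    have hx1 : σ x = x := by
      rw [hDa] at hx
      exact sub_eq_zero.1 hx
    have hx2 : ∀ i : ℕ, (σ ^ i) x = x := by
      intro i
      induction i with
      | zero => rfl
      | succ i ih =>
        rw [pow_succ]
        show (σ ^ i) (σ x) = x
        rw [hx1, ih]
    rw [hNd]
    have h3 : (∑ i ∈ Finset.range ℓ, σ ^ i) x = ∑ i ∈ Finset.range ℓ, (σ ^ i) x :=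
      AddMonoidHom.finsetSum_apply _ _ _
    rw [h3, Finset.sum_congr rfl fun i _ => hx2 i, Finset.sum_const, Finset.card_range]
  -- the subgroups
  obtain ⟨S, hS⟩ : ∃ S : AddSubgroup M, S = AddMonoidHom.ker D := ⟨_, rfl⟩
  obtain ⟨B, hB⟩ : ∃ B : AddSubgroup M, B = AddMonoidHom.ker N := ⟨_, rfl⟩
  have hSm : ∀ x, x ∈ S ↔ D x = 0 := by
    intro x
    rw [hS]
    rfl
  have hBm : ∀ x, x ∈ B ↔ N x = 0 := by
    intro x
    rw [hB]
    rfl
  have hBr : AddMonoidHom.range D = B := by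
    ext x
    rw [hBm]
    constructor
    · rintro ⟨y, rfl⟩
      exact hND y
    · intro hx
      obtain ⟨y, hy⟩ := hN x hx
      exact ⟨y, (hDa y).trans hy.symm⟩
  rw [← hS] at ha ⊢
  -- `σ` on `B`
  have hσB : ∀ x ∈ B, σ x ∈ B := by
    intro x hx
    rw [hBm] at hx ⊢
    have h1 : N (σ x) = N (D x) + N x := by
      rw [← map_add, hDa, sub_add_cancel]
    rw [h1, hND, hx, add_zero]
  let τ : AddMonoid.End B := AddMonoidHom.mk' (fun x : B => (⟨σ x, hσB x x.2⟩ : B))
    (fun x y => Subtype.ext (map_add σ (x : M) (y : M)))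
  have hτ : ∀ x : B, ((τ x : B) : M) = σ x := fun x => rfl
  have hτp : ∀ (i : ℕ) (x : B), (((τ ^ i) x : B) : M) = (σ ^ i) x := by
    intro i
    induction i with
    | zero => intro x; rfl
    | succ i ih =>
      intro x
      rw [pow_succ, pow_succ]
      show (((τ ^ i) (τ x) : B) : M) = (σ ^ i) (σ x)
      rw [ih, hτ]
  have hτ1 : τ ^ ℓ = 1 := by
    ext x
    rw [hτp, hσ]
    rfl
  have hτN : ∑ i ∈ Finset.range ℓ, τ ^ i = 0 := by
    ext x
    have h3 : (∑ i ∈ Finset.range ℓ, τ ^ i) x = ∑ i ∈ Finset.range ℓ, (τ ^ i) x :=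
      AddMonoidHom.finsetSum_apply _ _ _
    have h4 : (∑ i ∈ Finset.range ℓ, σ ^ i) (x : M) = ∑ i ∈ Finset.range ℓ, (σ ^ i) (x : M) :=
      AddMonoidHom.finsetSum_apply _ _ _
    rw [h3, AddSubgroup.val_finsetSum, Finset.sum_congr rfl fun i _ => hτp i x, ← h4, ← hNd]
    exact (hBm x).1 x.2
  -- ranks
  have hrank : Module.finrank ℤ B = (ℓ - 1) * b := by
    have h1 := Submodule.finrank_quotient_add_finrank (AddMonoidHom.toIntLinearMap D).ker
    have h2 := (AddMonoidHom.toIntLinearMap D).quotKerEquivRange.finrank_eq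
    have h3 : Module.finrank ℤ (AddMonoidHom.toIntLinearMap D).range = Module.finrank ℤ B := by
      refine LinearEquiv.finrank_eq (AddEquiv.toIntLinearEquiv ?_)
      exact AddEquiv.addSubgroupCongr (H := (AddMonoidHom.toIntLinearMap D).range.toAddSubgroup)
        (K := B) (by rw [← hBr]; rfl)
    have h4 : Module.finrank ℤ (AddMonoidHom.toIntLinearMap D).ker = Module.finrank ℤ S := by
      refine LinearEquiv.finrank_eq (AddEquiv.toIntLinearEquiv ?_)
      exact AddEquiv.addSubgroupCongr (H := (AddMonoidHom.toIntLinearMap D).ker.toAddSubgroup)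
        (K := S) (by rw [hS]; rfl)
    rw [h2, h3, h4, ha, hb] at h1
    omega
  have hfinB : Module.Finite ℤ B :=
    Module.Finite.of_injective (B.subtype.toIntLinearMap) Subtype.val_injective
  have hfinS : Module.Finite ℤ S :=
    Module.Finite.of_injective (S.subtype.toIntLinearMap) Subtype.val_injective
  obtain ⟨h1, h2⟩ := index_sub_one B τ ℓ b hℓ hτ1 hτN hrank
  obtain ⟨h3, h4⟩ := index_nsmul S ℓ hℓ.pos
  rw [ha] at h3
  -- the kernels agree
  have hker : Nat.card (AddMonoidHom.ker (τ - 1 : AddMonoid.End B)) =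
      Nat.card (nsmulAddMonoidHom ℓ : S →+ S).ker := by
    refine Nat.card_congr ⟨fun x => ⟨⟨((x : B) : M), ?_⟩, ?_⟩, fun x => ⟨⟨((x : S) : M), ?_⟩, ?_⟩,
      fun x => rfl, fun x => rfl⟩
    · rw [hSm, hDa]
      have h5 : (τ - 1 : AddMonoid.End B) (x : B) = 0 := x.2
      exact congrArg (fun y : B => (y : M)) h5
    · have h5 : (τ - 1 : AddMonoid.End B) (x : B) = 0 := x.2
      have h6 : D ((x : B) : M) = 0 := by
        rw [hDa]
        exact congrArg (fun y : B => (y : M)) h5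
      have h7 := hinv _ h6
      have h8 := (hBm _).1 (x : B).2
      apply Subtype.ext
      show ℓ • ((x : B) : M) = 0
      rw [← h7, h8]
    · have h5 : ℓ • (x : S) = 0 := x.2
      rw [hBm, hinv _ ((hSm _).1 (x : S).2)]
      exact congrArg (fun y : S => (y : M)) h5
    · apply Subtype.ext
      show σ ((x : S) : M) - ((x : S) : M) = 0
      rw [← hDa]
      exact (hSm _).1 (x : S).2
  -- the index of `D B` in `B`
  have hDB : (B.map D).relIndex B = ℓ ^ b * Nat.card (nsmulAddMonoidHom ℓ : S →+ S).ker := by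
    rw [← hker, ← h1]
    unfold AddSubgroup.relIndex
    congr 1
    ext x
    rw [AddSubgroup.mem_addSubgroupOf]
    constructor
    · rintro ⟨y, hy, hyx⟩
      refine ⟨⟨y, hy⟩, ?_⟩
      apply Subtype.ext
      rw [← hyx]
      exact (hDa y).symm
    · rintro ⟨y, rfl⟩
      exact ⟨(y : M), y.2, hDa y⟩
  have hidx : (B ⊔ S).index = ℓ ^ b * Nat.card (nsmulAddMonoidHom ℓ : S →+ S).ker := by
    have h5 := AddSubgroup.relIndex_map_map D B ⊤
    have h6 : (⊤ : AddSubgroup M).map D = B := by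
      rw [← hBr]
      exact (AddMonoidHom.range_eq_map _).symm
    have h7 : AddMonoidHom.ker D = S := hS.symm
    rw [h6, h7, hDB, top_sup_eq, AddSubgroup.relIndex_top_right] at h5
    exact h5.symm
  -- the index of `ℓ S` in `N M`
  have hNS : (S.map N).relIndex (AddMonoidHom.range N) =
      ℓ ^ b * Nat.card (nsmulAddMonoidHom ℓ : S →+ S).ker := by
    have h5 := AddSubgroup.relIndex_map_map N S ⊤
    have h6 : (⊤ : AddSubgroup M).map N = AddMonoidHom.range N :=
      (AddMonoidHom.range_eq_map _).symm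
    have h7 : AddMonoidHom.ker N = B := hB.symm
    rw [h6, h7, top_sup_eq, AddSubgroup.relIndex_top_right, sup_comm, hidx] at h5
    exact h5
  -- the index of `ℓ S` in `S`
  have hSS : (S.map N).relIndex S =
      ℓ ^ a * Nat.card (nsmulAddMonoidHom ℓ : S →+ S).ker := by
    rw [← h3]
    unfold AddSubgroup.relIndex
    congr 1
    ext x
    rw [AddSubgroup.mem_addSubgroupOf]
    constructor
    · rintro ⟨y, hy, hyx⟩
      refine ⟨⟨y, hy⟩, ?_⟩
      apply Subtype.ext
      rw [← hyx]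
      exact (hinv y ((hSm y).1 hy)).symm
    · rintro ⟨y, rfl⟩
      exact ⟨(y : M), y.2, hinv _ ((hSm _).1 y.2)⟩
  have hle1 : S.map N ≤ AddMonoidHom.range N := by
    rintro x ⟨y, -, rfl⟩
    exact ⟨y, rfl⟩
  have hle2 : AddMonoidHom.range N ≤ S := by
    rintro x ⟨y, rfl⟩
    rw [hSm]
    exact hDN y
  have hmul := AddSubgroup.relIndex_mul_relIndex _ _ _ hle1 hle2
  rw [hNS, hSS] at hmul
  have hc : Nat.card (nsmulAddMonoidHom ℓ : S →+ S).ker ≠ 0 := Nat.card_pos.ne'
  apply mul_right_cancel₀ hc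
  rw [← hmul]
  ring

end Pool.Agent.Lib.MP_1a91b9_nuT.CF
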