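import Pool.Agent.Lib.MP_1a91b9_nuT.CF.Defs

/-! # CF: the logarithm of a Dirichlet series with Euler product

PROOF (complete; job of helper29, see team-store bsd_D_doc_CF.md):
S4.hasProd_Lf (r = 0) gives the absolutely convergent Euler product prod_w (1 - X(w) N w^(-s))^(-1)
= Lf X s for s > 1. |X(w)| <= 1, N w >= 2. Taking norms: HasProd of |1 - X(w) N w^(-s)|^(-1), hence
log|Lf X s| = sum_w -log|1 - X(w) N w^(-s)| (each factor nonzero, the sum converges absolutely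
because |log|1 - z|| <= 2|z| for |z| <= 1/2, and the product is not 0: exp of the sum). For |z| <=
1/2: |-log|1-z| - Re z| <= |z|^2 (Complex.norm_log_one_add_sub_self_le or the power series: Re of
-log(1-z) - z, |..| <= sum_{k>=2} |z|^k/k <= |z|^2). So the difference is at most sum_w N w^(-2s) <=
sum_w N w^(-2) =: B. summable_places: places inject into ideals, S4.summable_ideals.
-/

set_option autoImplicit false

namespace Pool.Agent.Lib.MP_1a91b9_nuT.CF

variable [CD]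

open NumberField IsDedekindDomain UniqueFactorizationMonoid Pool.Agent.Lib.MP_1a91b9_nt S4

universe u

section
variable (F : Type u) [Field F] [NumberField F]

private theorem logl_two_le (v : HeightOneSpectrum (𝓞 F)) : 2 ≤ nrm v := by
  have := finite_residue v
  exact Finite.one_lt_card

private theorem logl_pow (w : HeightOneSpectrum (𝓞 F)) (s : ℝ) :
    (Ideal.absNorm w.asIdeal : ℂ) ^ (-(s : ℂ)) = (((nrm w : ℝ) ^ (-s) : ℝ) : ℂ) := by
  rw [← nrm_eq, Complex.ofReal_cpow (by positivity)]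
  push_cast
  rfl

theorem summable_places (s : ℝ) (hs : 1 < s) :
    Summable fun w : HeightOneSpectrum (𝓞 F) => (nrm w : ℝ) ^ (-s) := by
  exact summable_nrm s hs

/-- `log |L(s)| = ∑ Re X(w) N w ^ (-s) + O(1)`, uniformly in `X` and in `1 < s ≤ 2` -/
theorem log_L : ∃ B : ℝ, ∀ X : Ideal (𝓞 F) → ℂ, X 0 = 0 → X 1 = 1 →
    (∀ I J, X (I * J) = X I * X J) → (∀ I, ‖X I‖ ≤ 1) → ∀ s : ℝ, 1 < s → s ≤ 2 →
      Lf X (s : ℂ) ≠ 0 ∧
      |Real.log ‖Lf X (s : ℂ)‖ -
        ∑' w : HeightOneSpectrum (𝓞 F), (X w.asIdeal).re * (nrm w : ℝ) ^ (-s)| ≤ B := by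
  refine ⟨∑' w : HeightOneSpectrum (𝓞 F), (nrm w : ℝ) ^ (-(2 : ℝ)), ?_⟩
  intro X h0 h1 hmul hX s hs hs2
  have hp := (hasProd_Lf X h1 hmul 0 le_rfl (fun I => by rw [Real.rpow_zero]; exact hX I) (s : ℂ)
    (by rw [Complex.ofReal_re]; linarith)).2
  obtain ⟨z, hz⟩ : ∃ z : HeightOneSpectrum (𝓞 F) → ℂ,
      z = fun w => X w.asIdeal * (Ideal.absNorm w.asIdeal : ℂ) ^ (-(s : ℂ)) := ⟨_, rfl⟩
  have hzw : ∀ w, z w = X w.asIdeal * (((nrm w : ℝ) ^ (-s) : ℝ) : ℂ) := fun w => by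
    rw [hz]
    show X w.asIdeal * (Ideal.absNorm w.asIdeal : ℂ) ^ (-(s : ℂ)) = _
    rw [logl_pow]
  have hre : ∀ w, (z w).re = (X w.asIdeal).re * (nrm w : ℝ) ^ (-s) := fun w => by
    rw [hzw, Complex.re_mul_ofReal]
  have hn : ∀ w, ‖z w‖ ≤ (nrm w : ℝ) ^ (-s) := fun w => by
    have h3 : (0 : ℝ) ≤ (nrm w : ℝ) ^ (-s) := by positivity
    rw [hzw, norm_mul, Complex.norm_real, Real.norm_eq_abs, abs_of_nonneg h3]
    calc ‖X w.asIdeal‖ * (nrm w : ℝ) ^ (-s) ≤ 1 * (nrm w : ℝ) ^ (-s) :=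
          mul_le_mul_of_nonneg_right (hX _) h3
      _ = _ := one_mul _
  have hnr : ∀ w : HeightOneSpectrum (𝓞 F), (2 : ℝ) ≤ (nrm w : ℝ) := fun w => by
    exact_mod_cast logl_two_le F w
  have hhalf : ∀ w : HeightOneSpectrum (𝓞 F), (nrm w : ℝ) ^ (-s) ≤ 1 / 2 := fun w => by
    have h4 : (nrm w : ℝ) ^ (-s) ≤ (nrm w : ℝ) ^ (-(1 : ℝ)) :=
      Real.rpow_le_rpow_of_exponent_le (by linarith [hnr w]) (by linarith)
    rw [Real.rpow_neg_one] at h4
    refine h4.trans ?_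
    rw [one_div]
    exact inv_anti₀ (by norm_num) (hnr w)
  have hzh : ∀ w, ‖-z w‖ ≤ 1 / 2 := fun w => by
    rw [norm_neg]
    exact (hn w).trans (hhalf w)
  have hsum : Summable fun w : HeightOneSpectrum (𝓞 F) => (nrm w : ℝ) ^ (-s) :=
    summable_places F s hs
  have hsz : Summable z := Summable.of_norm_bounded hsum hn
  obtain ⟨g, hg⟩ : ∃ g : HeightOneSpectrum (𝓞 F) → ℂ, g = fun w => -Complex.log (1 + -z w) :=
    ⟨_, rfl⟩
  have hgw : ∀ w, g w = -Complex.log (1 + -z w) := fun w => by rw [hg]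
  have hgn : ∀ w, ‖g w‖ ≤ 3 / 2 * (nrm w : ℝ) ^ (-s) := fun w => by
    rw [hgw, norm_neg]
    refine (Complex.norm_log_one_add_half_le_self (hzh w)).trans ?_
    rw [norm_neg]
    exact mul_le_mul_of_nonneg_left (hn w) (by norm_num)
  have hsg : Summable g := Summable.of_norm_bounded (hsum.mul_left (3 / 2)) hgn
  have hne : ∀ w, 1 + -z w ≠ 0 := fun w h => by
    have h5 : -z w = -1 := by linear_combination h
    have h6 := hzh w
    rw [h5, norm_neg, norm_one] at h6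
    norm_num at h6
  have hexp : ∀ w, Complex.exp (g w) =
      (1 - X w.asIdeal * (Ideal.absNorm w.asIdeal : ℂ) ^ (-(s : ℂ)))⁻¹ := fun w => by
    rw [hgw, Complex.exp_neg, Complex.exp_log (hne w), hz, sub_eq_add_neg]
  have hL : Lf X (s : ℂ) = Complex.exp (∑' w, g w) := by
    have h7 := hsg.hasSum.cexp
    refine hp.unique ?_
    have h8 : (fun w : HeightOneSpectrum (𝓞 F) =>
        (1 - X w.asIdeal * (Ideal.absNorm w.asIdeal : ℂ) ^ (-(s : ℂ)))⁻¹) = Complex.exp ∘ g := by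
      funext w
      exact (hexp w).symm
    rw [h8]
    exact h7
  refine ⟨by rw [hL]; exact Complex.exp_ne_zero _, ?_⟩
  have hlog : Real.log ‖Lf X (s : ℂ)‖ = ∑' w, (g w).re := by
    rw [hL, Complex.norm_exp, Real.log_exp, Complex.re_tsum hsg]
  have hzre : ∑' w : HeightOneSpectrum (𝓞 F), (X w.asIdeal).re * (nrm w : ℝ) ^ (-s) =
      ∑' w, (z w).re := tsum_congr fun w => (hre w).symm
  have hsgr : Summable fun w => (g w).re := (Complex.hasSum_re hsg.hasSum).summable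
  have hszr : Summable fun w => (z w).re := (Complex.hasSum_re hsz.hasSum).summable
  rw [hlog, hzre, ← hsgr.tsum_sub hszr]
  have hdiff : ∀ w, ‖(g w).re - (z w).re‖ ≤ (nrm w : ℝ) ^ (-(2 : ℝ)) := fun w => by
    have h9 : ‖Complex.log (1 + -z w) - -z w‖ ≤ ‖-z w‖ ^ 2 * (1 - ‖-z w‖)⁻¹ / 2 :=
      Complex.norm_log_one_add_sub_self_le (lt_of_le_of_lt (hzh w) (by norm_num))
    have h10 : (1 - ‖-z w‖)⁻¹ ≤ 2 := by
      have h11 : (1 : ℝ) / 2 ≤ 1 - ‖-z w‖ := by linarith [hzh w]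
      have h12 := inv_anti₀ (by norm_num : (0 : ℝ) < 1 / 2) h11
      have h13 : ((1 : ℝ) / 2)⁻¹ = 2 := by norm_num
      rw [h13] at h12
      exact h12
    have h14 : ‖-z w‖ ^ 2 * (1 - ‖-z w‖)⁻¹ / 2 ≤ ‖-z w‖ ^ 2 := by
      have h15 : ‖-z w‖ ^ 2 * (1 - ‖-z w‖)⁻¹ ≤ ‖-z w‖ ^ 2 * 2 :=
        mul_le_mul_of_nonneg_left h10 (by positivity)
      linarith
    have h16 : (g w).re - (z w).re = -(Complex.log (1 + -z w) - -z w).re := by
      rw [hgw, Complex.sub_re, Complex.neg_re, Complex.neg_re]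
      ring
    have h17 : ‖(g w).re - (z w).re‖ ≤ ‖Complex.log (1 + -z w) - -z w‖ := by
      rw [h16, norm_neg, Real.norm_eq_abs]
      exact Complex.abs_re_le_norm _
    refine (h17.trans (h9.trans h14)).trans ?_
    rw [norm_neg]
    have h18 : ‖z w‖ ^ 2 ≤ ((nrm w : ℝ) ^ (-s)) ^ 2 :=
      pow_le_pow_left₀ (norm_nonneg _) (hn w) 2
    refine h18.trans ?_
    have h19 : ((nrm w : ℝ) ^ (-s)) ^ 2 = (nrm w : ℝ) ^ (-s * 2) := by
      rw [Real.rpow_mul (by positivity)]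
      norm_num
    rw [h19]
    exact Real.rpow_le_rpow_of_exponent_le (by linarith [hnr w]) (by linarith)
  have h20 := tsum_of_norm_bounded (summable_places F 2 (by norm_num)).hasSum hdiff
  rw [Real.norm_eq_abs] at h20
  exact h20

end

end Pool.Agent.Lib.MP_1a91b9_nuT.CF
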