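import Pool.Agent.Lib.MP_1a91b9_nuT.CF.LogL

/-! # CF: the sum over all places

PROOF (complete; job of helper29, see team-store bsd_D_doc_CF.md):
Take X(I) = 1 for I <> 0 and X(0) = 0 in log_L (multiplicative as O is a domain). Lf X s = sum over
nonzero ideals of N I^(-s) = dedekindZeta F s for real s > 1 (S4 / MP_1a91b9_nt.Residue relate the
two, or NumberField.dedekindZeta as the L-series with coefficients card of ideals of norm n), and
(s - 1) dedekindZeta F s -> residue > 0 as s -> 1+ (NumberField.tendsto_sub_one_mul_dedekindZeta_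
nhdsGT, dedekindZeta_residue_pos). So |log Lf - log(1/(s-1))| is bounded near 1; on the compact
interval [1 + delta, 2] Lf is continuous and positive, or: monotone decreasing in s and >= 1, so
bounded by its value at 1 + delta. Elementary alternative: for s in (1,2], Lf is decreasing, >= 1.
-/

set_option autoImplicit false

namespace Pool.Agent.Lib.MP_1a91b9_nuT.CF

variable [CD]

open NumberField IsDedekindDomain UniqueFactorizationMonoid Pool.Agent.Lib.MP_1a91b9_nt S4

universe u

section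
variable (F : Type u) [Field F] [NumberField F]

/-- the trivial function on the nonzero ideals -/
private noncomputable def primeSum_X (I : Ideal (𝓞 F)) : ℂ :=
  open Classical in if I = 0 then 0 else 1

/-- the zeta function as a sum over ideals -/
private noncomputable def primeSum_Z (s : ℝ) : ℝ :=
  ∑' I : Ideal (𝓞 F), (Ideal.absNorm I : ℝ) ^ (-s)

private theorem primeSum_term (s : ℝ) (hs : 1 < s) (I : Ideal (𝓞 F)) :
    primeSum_X F I * (Ideal.absNorm I : ℂ) ^ (-(s : ℂ)) =
      (((Ideal.absNorm I : ℝ) ^ (-s) : ℝ) : ℂ) := by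
  unfold primeSum_X
  split_ifs with h
  · subst h
    rw [zero_mul]
    have h0 : Ideal.absNorm (0 : Ideal (𝓞 F)) = 0 := Ideal.absNorm_eq_zero_iff.2 rfl
    rw [h0, Nat.cast_zero, Real.zero_rpow (by linarith), Complex.ofReal_zero]
  · rw [one_mul, Complex.ofReal_cpow (Nat.cast_nonneg _), Complex.ofReal_natCast,
      Complex.ofReal_neg]

private theorem primeSum_Lf (s : ℝ) (hs : 1 < s) :
    Lf (primeSum_X F) (s : ℂ) = ((primeSum_Z F s : ℝ) : ℂ) := by
  unfold Lf primeSum_Z
  rw [Complex.ofReal_tsum]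
  exact tsum_congr fun I => primeSum_term F s hs I

private theorem primeSum_summable (s : ℝ) (hs : 1 < s) :
    Summable fun I : Ideal (𝓞 F) => primeSum_X F I * (Ideal.absNorm I : ℂ) ^ (-(s : ℂ)) := by
  have h := summable_ideals F s hs
  refine (Complex.ofRealCLM.summable h).congr fun I => ?_
  rw [primeSum_term F s hs I]
  rfl

private theorem primeSum_zeta (s : ℝ) (hs : 1 < s) :
    dedekindZeta F (s : ℂ) = ((primeSum_Z F s : ℝ) : ℂ) := by
  rw [← primeSum_Lf F s hs]
  unfold Lf dedekindZeta LSeries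
  rw [← (Equiv.sigmaFiberEquiv (fun I : Ideal (𝓞 F) => Ideal.absNorm I)).tsum_eq]
  have hsum := (Equiv.sigmaFiberEquiv (fun I : Ideal (𝓞 F) => Ideal.absNorm I)).summable_iff.2
    (primeSum_summable F s hs)
  refine Eq.trans ?_ hsum.tsum_sigma.symm
  refine tsum_congr fun n => ?_
  rw [LSeries.term_def]
  split_ifs with h0
  · subst h0
    have h1 : ∀ c : {I : Ideal (𝓞 F) // Ideal.absNorm I = 0},
        primeSum_X F (c : Ideal (𝓞 F)) * (Ideal.absNorm (c : Ideal (𝓞 F)) : ℂ) ^ (-(s : ℂ)) =
          0 := by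
      intro c
      have hc : (c : Ideal (𝓞 F)) = 0 := Ideal.absNorm_eq_zero_iff.1 c.2
      unfold primeSum_X
      rw [if_pos hc, zero_mul]
    have h2 : (∑' c : {I : Ideal (𝓞 F) // Ideal.absNorm I = 0},
        primeSum_X F (c : Ideal (𝓞 F)) * (Ideal.absNorm (c : Ideal (𝓞 F)) : ℂ) ^ (-(s : ℂ))) =
          0 := by
      rw [tsum_congr h1, tsum_zero]
    exact h2.symm
  · have h1 : ∀ c : {I : Ideal (𝓞 F) // Ideal.absNorm I = n},
        primeSum_X F (c : Ideal (𝓞 F)) * (Ideal.absNorm (c : Ideal (𝓞 F)) : ℂ) ^ (-(s : ℂ)) =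
          (n : ℂ) ^ (-(s : ℂ)) := by
      intro c
      have hc : (c : Ideal (𝓞 F)) ≠ 0 := by
        intro hc
        apply h0
        rw [← c.2, hc]
        exact Ideal.absNorm_eq_zero_iff.2 rfl
      unfold primeSum_X
      rw [if_neg hc, one_mul, c.2]
    have hfin : Finite {I : Ideal (𝓞 F) // Ideal.absNorm I = n} :=
      (Ideal.finite_setOfPred_absNorm_eq n).to_subtype
    have h2 : (∑' c : {I : Ideal (𝓞 F) // Ideal.absNorm I = n},
        primeSum_X F (c : Ideal (𝓞 F)) * (Ideal.absNorm (c : Ideal (𝓞 F)) : ℂ) ^ (-(s : ℂ))) =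
          Nat.card {I : Ideal (𝓞 F) // Ideal.absNorm I = n} • (n : ℂ) ^ (-(s : ℂ)) := by
      rw [tsum_congr h1, tsum_const]
    refine Eq.trans ?_ h2.symm
    rw [nsmul_eq_mul, Complex.cpow_neg, div_eq_mul_inv]

private theorem primeSum_one_le (s : ℝ) (hs : 1 < s) : 1 ≤ primeSum_Z F s := by
  unfold primeSum_Z
  have h := (summable_ideals F s hs).le_tsum (1 : Ideal (𝓞 F)) (fun I _ => by positivity)
  rwa [map_one, Nat.cast_one, Real.one_rpow] at h

private theorem primeSum_anti (s s' : ℝ) (hs : 1 < s) (h : s ≤ s') :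
    primeSum_Z F s' ≤ primeSum_Z F s := by
  unfold primeSum_Z
  refine (summable_ideals F s' (by linarith)).tsum_le_tsum (fun I => ?_)
    (summable_ideals F s hs)
  rcases Nat.eq_zero_or_pos (Ideal.absNorm I) with h0 | h0
  · rw [h0, Nat.cast_zero, Real.zero_rpow (by linarith), Real.zero_rpow (by linarith)]
  · exact Real.rpow_le_rpow_of_exponent_le (by exact_mod_cast h0) (by linarith)

private theorem primeSum_log : ∃ B : ℝ, ∀ s : ℝ, 1 < s → s ≤ 2 →
    |Real.log (primeSum_Z F s) - Real.log (1 / (s - 1))| ≤ B := by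
  have hρ := dedekindZeta_residue_pos F
  have ht := tendsto_sub_one_mul_dedekindZeta_nhdsGT F
  have ht2 : Filter.Tendsto (fun s : ℝ => (s - 1) * primeSum_Z F s)
      (nhdsWithin 1 (Set.Ioi 1)) (nhds (dedekindZeta_residue F)) := by
    have h1 := (Complex.continuous_re.tendsto _).comp ht
    rw [Complex.ofReal_re] at h1
    refine h1.congr' ?_
    filter_upwards [self_mem_nhdsWithin] with s hs
    have hs1 : 1 < s := hs
    show ((((s : ℂ) - 1) * dedekindZeta F (s : ℂ))).re = _
    rw [primeSum_zeta F s hs1, ← Complex.ofReal_one, ← Complex.ofReal_sub, ← Complex.ofReal_mul,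
      Complex.ofReal_re]
  have h2 : ∀ᶠ s in nhdsWithin (1 : ℝ) (Set.Ioi 1),
      dedekindZeta_residue F / 2 < (s - 1) * primeSum_Z F s ∧
        (s - 1) * primeSum_Z F s < 2 * dedekindZeta_residue F :=
    (ht2.eventually (lt_mem_nhds (by linarith))).and (ht2.eventually (gt_mem_nhds (by linarith)))
  obtain ⟨u, hu, hu2⟩ := (mem_nhdsGT_iff_exists_Ioo_subset' (show (1 : ℝ) < 2 by norm_num)).1 h2
  have hu1 : 1 < u := hu
  -- the point `c` between `1` and `u`
  let c : ℝ := min ((1 + u) / 2) 2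
  have hc1 : 1 < c := lt_min (by linarith) (by norm_num)
  have hcu : c < u := lt_of_le_of_lt (min_le_left _ _) (by linarith)
  refine ⟨|Real.log (dedekindZeta_residue F / 2)| + |Real.log (2 * dedekindZeta_residue F)| +
    |Real.log (c - 1)| + |Real.log (primeSum_Z F c)|, fun s hs1 hs2 => ?_⟩
  have hZ := primeSum_one_le F s hs1
  have hZ0 : 0 < primeSum_Z F s := by linarith
  have hs0 : 0 < s - 1 := by linarith
  have e1 : Real.log (primeSum_Z F s) - Real.log (1 / (s - 1)) =
      Real.log ((s - 1) * primeSum_Z F s) := by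
    rw [Real.log_mul hs0.ne' hZ0.ne', one_div, Real.log_inv]
    ring
  rw [e1]
  have p1 := abs_nonneg (Real.log (dedekindZeta_residue F / 2))
  have p2 := abs_nonneg (Real.log (2 * dedekindZeta_residue F))
  have p3 := abs_nonneg (Real.log (c - 1))
  have p4 := abs_nonneg (Real.log (primeSum_Z F c))
  rcases lt_or_ge s u with hsu | hsu
  · obtain ⟨h3, h4⟩ : dedekindZeta_residue F / 2 < (s - 1) * primeSum_Z F s ∧
        (s - 1) * primeSum_Z F s < 2 * dedekindZeta_residue F := hu2 ⟨hs1, hsu⟩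
    have l1 := Real.log_le_log (by linarith) h3.le
    have l2 := Real.log_le_log (by positivity) h4.le
    have q1 := neg_abs_le (Real.log (dedekindZeta_residue F / 2))
    have q2 := le_abs_self (Real.log (2 * dedekindZeta_residue F))
    rw [abs_le]
    constructor <;> linarith
  · have h3 := primeSum_anti F c s hc1 (by linarith)
    have h4 : Real.log (primeSum_Z F s) ≤ Real.log (primeSum_Z F c) := Real.log_le_log hZ0 h3
    have h5 : 0 ≤ Real.log (primeSum_Z F s) := Real.log_nonneg hZ
    have h6 : Real.log (c - 1) ≤ Real.log (s - 1) := Real.log_le_log (by linarith) (by linarith)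
    have h7 : Real.log (s - 1) ≤ 0 := Real.log_nonpos hs0.le (by linarith)
    rw [Real.log_mul hs0.ne' hZ0.ne']
    have q1 := neg_abs_le (Real.log (c - 1))
    have q2 := le_abs_self (Real.log (primeSum_Z F c))
    rw [abs_le]
    constructor <;> linarith

end

/-- `∑ N w ^ (-s) = log (1 / (s - 1)) + O(1)` -/
theorem prime_sum (F : Type u) [Field F] [NumberField F] :
    ∃ B : ℝ, ∀ s : ℝ, 1 < s → s ≤ 2 →
      |PZ (Set.univ : Set (HeightOneSpectrum (𝓞 F))) s - Real.log (1 / (s - 1))| ≤ B := by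
  classical
  obtain ⟨B0, hB0⟩ := log_L F
  obtain ⟨B1, hB1⟩ := primeSum_log F
  have hX1 : primeSum_X F 1 = 1 := if_neg one_ne_zero
  have hXmul : ∀ I J, primeSum_X F (I * J) = primeSum_X F I * primeSum_X F J := by
    intro I J
    unfold primeSum_X
    by_cases hI : I = 0
    · rw [if_pos hI, zero_mul, if_pos (by rw [hI, zero_mul])]
    · by_cases hJ : J = 0
      · rw [if_pos hJ, mul_zero, if_pos (by rw [hJ, mul_zero])]
      · rw [if_neg hI, if_neg hJ, mul_one, if_neg (mul_ne_zero hI hJ)]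
  have hXn : ∀ I, ‖primeSum_X F I‖ ≤ 1 := by
    intro I
    unfold primeSum_X
    split_ifs <;> simp
  refine ⟨B0 + B1, fun s hs1 hs2 => ?_⟩
  have h1 := (hB0 (primeSum_X F) (if_pos rfl) hX1 hXmul hXn s hs1 hs2).2
  have h2 := hB1 s hs1 hs2
  have h3 : (∑' w : HeightOneSpectrum (𝓞 F), (primeSum_X F w.asIdeal).re * (nrm w : ℝ) ^ (-s)) =
      PZ (Set.univ : Set (HeightOneSpectrum (𝓞 F))) s := by
    unfold PZ
    refine tsum_congr fun w => ?_
    have h4 : primeSum_X F w.asIdeal = 1 := if_neg w.ne_bot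
    rw [h4, Complex.one_re, one_mul, Set.indicator_univ]
  have h5 : ‖Lf (primeSum_X F) (s : ℂ)‖ = primeSum_Z F s := by
    rw [primeSum_Lf F s hs1, Complex.norm_real, Real.norm_of_nonneg]
    linarith [primeSum_one_le F s hs1]
  rw [h3, h5] at h1
  rw [abs_le] at h1 h2 ⊢
  constructor <;> linarith [h1.1, h1.2, h2.1, h2.2]

end Pool.Agent.Lib.MP_1a91b9_nuT.CF
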