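import Pool.Agent.Lib.MP_1a91b9_nuT.CF.Defs

/-! # CF: the tents sum to one

PROOF (complete; job of helper29, see team-store bsd_D_doc_CF.md):
tent t = max 0 (1 - |t|). For t real let n = floor(t): the translates t + e with |t + e| < 1 are
e = -n (value t - n = fract t) and e = -n - 1 (value fract t - 1), with tents 1 - fract t and
fract t (if fract t = 0 the second is tent(-1) = 0). So the sum over e in Z is 1 (finite support:
hasSum_sum_of_ne_finset_zero with the finset {-n, -n-1}). Product version: the support is contained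
in the finite product of the sets {-n_i, -n_i - 1}; sum of products = product of sums
(Finset.prod_univ_sum / Fintype.piFinset). tent is 1-Lipschitz: abs and max are.
-/

set_option autoImplicit false

namespace Pool.Agent.Lib.MP_1a91b9_nuT.CF

variable [CD]

open NumberField IsDedekindDomain UniqueFactorizationMonoid Pool.Agent.Lib.MP_1a91b9_nt S4

universe u

theorem tent_nonneg (t : ℝ) : 0 ≤ tent t := by
  exact le_max_left _ _

theorem tent_le_one (t : ℝ) : tent t ≤ 1 := by
  unfold tent
  refine max_le zero_le_one ?_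
  have := abs_nonneg t
  linarith

theorem tent_lipschitz : LipschitzWith 1 tent := by
  refine LipschitzWith.of_le_add fun x y => ?_
  unfold tent
  rw [Real.dist_eq]
  have h1 : |y| ≤ |x| + |x - y| := by
    have h2 := abs_sub_abs_le_abs_sub y x
    rw [abs_sub_comm] at h2
    linarith
  have h3 := abs_nonneg (x - y)
  refine max_le ?_ ?_
  · have := le_max_left 0 (1 - |y|)
    linarith
  · have := le_max_right 0 (1 - |y|)
    linarith

theorem tent_eq_zero (t : ℝ) (h : 1 ≤ |t|) : tent t = 0 := by
  unfold tent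
  exact max_eq_left (by linarith)

private theorem tentSum_zero (t : ℝ) (e : ℤ) (he : e ∉ ({-⌊t⌋, -⌊t⌋ - 1} : Finset ℤ)) :
    tent (t + e) = 0 := by
  rw [Finset.mem_insert, Finset.mem_singleton, not_or] at he
  apply tent_eq_zero
  have h1 := Int.floor_le t
  have h2 := Int.lt_floor_add_one t
  rcases lt_or_ge e (-⌊t⌋ - 1) with h | h
  · have h3 : (e : ℝ) ≤ -(⌊t⌋ : ℝ) - 2 := by
      have : e ≤ -⌊t⌋ - 2 := by omega
      exact_mod_cast this
    rw [abs_of_nonpos (by linarith)]
    linarith
  · have h3 : -(⌊t⌋ : ℝ) + 1 ≤ (e : ℝ) := by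
      have : -⌊t⌋ + 1 ≤ e := by omega
      exact_mod_cast this
    rw [abs_of_nonneg (by linarith)]
    linarith

private theorem tentSum_sum (t : ℝ) :
    ∑ e ∈ ({-⌊t⌋, -⌊t⌋ - 1} : Finset ℤ), tent (t + e) = 1 := by
  have h1 := Int.floor_le t
  have h2 := Int.lt_floor_add_one t
  rw [Finset.sum_pair (by omega)]
  unfold tent
  push_cast
  have e1 : |t + -(⌊t⌋ : ℝ)| = t - ⌊t⌋ := by
    rw [abs_of_nonneg (by linarith)]
    ring
  have e2 : |t + (-(⌊t⌋ : ℝ) - 1)| = 1 - (t - ⌊t⌋) := by
    rw [abs_of_nonpos (by linarith)]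
    ring
  rw [e1, e2, max_eq_right (by linarith), max_eq_right (by linarith)]
  ring


/-- the same on `ℤ ^ r` -/
theorem tent_hasSum_pi {ι : Type*} [Fintype ι] (t : ι → ℝ) :
    HasSum (fun e : ι → ℤ => ∏ i, tent (t i + e i)) 1 := by
  classical
  have h : HasSum (fun e : ι → ℤ => ∏ i, tent (t i + e i)) _ := hasSum_sum_of_ne_finset_zero
    (s := Fintype.piFinset fun i => ({-⌊t i⌋, -⌊t i⌋ - 1} : Finset ℤ)) (fun e he => by
      rw [Fintype.mem_piFinset, not_forall] at he
      obtain ⟨i, hi⟩ := he
      exact Finset.prod_eq_zero (Finset.mem_univ i) (tentSum_zero (t i) (e i) hi))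
  rw [← Finset.prod_univ_sum (fun i => ({-⌊t i⌋, -⌊t i⌋ - 1} : Finset ℤ))
    (fun i (e : ℤ) => tent (t i + e)), Finset.prod_congr rfl (fun i _ => tentSum_sum (t i)),
    Finset.prod_const_one] at h
  exact h

end Pool.Agent.Lib.MP_1a91b9_nuT.CF
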